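import Pool.Agent.Work.MP_8b6acb_cap.Interface

/-!
# The chain-level value of a type (definitions)

Everything of `MP_8b6acb_cap` (namespace `R5`) is reused.  New: the kernels see the ACTUAL order of
the suffix, and the elements of a set of marks (the light elements outside the object) are not seen
while they are used; in exchange they give the gain `gg`.
-/

namespace R5

open Finset

section

variable {α : Type} [DecidableEq α]

/-! ## Orders -/

/-- The sequences of `r` distinct elements of `G`. -/
def seqs : ℕ → Finset α → Finset (List α)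
  | 0, _ => {[]}
  | r + 1, G => G.biUnion fun g => (seqs r (G.erase g)).image (List.cons g)

/-- `1` if the sets `U, U + π₁, U + π₁ + π₂, …` all have label `B`. -/
noncomputable def gd (τ : Finset α → Lab) : Finset α → List α → ℝ
  | U, [] => if τ U = Lab.B then 1 else 0
  | U, x :: π => if τ U = Lab.B then gd τ (insert x U) π else 0

/-- The same without the first set (chains starting at a cut vertex). -/
noncomputable def gdv (τ : Finset α → Lab) (V : Finset α) : List α → ℝ
  | [] => 0
  | x :: π => gd τ (insert x V) π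

/-- The sum of the costs of the sets `U, U + π₁, …` without the last one. -/
noncomputable def csum (c : Finset α → ℝ) : Finset α → List α → ℝ
  | _, [] => 0
  | U, x :: π => c U + csum c (insert x U) π

/-! ## The kernel -/

/-- The kernel along a sequence: `M` = marks, `N` = total mass of the elements that are still
available, `W` = unmarked elements already used, `i` = number of marked elements already used. -/
noncomputable def kc (ρ : α → ℝ) (M : Finset α) (N : ℝ) : List α → Finset α → ℕ → ℝ
  | [], _, _ => 1
  | g :: π, W, i => if g ∈ M then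
      ρ g / (N - ∑ h ∈ W, ρ h) * ((M.card : ℝ) / ((M.card : ℝ) - i)) * kc ρ M N π W (i + 1)
    else ρ g / (N - ∑ h ∈ W, ρ h) * kc ρ M N π (insert g W) i

/-- The gain of `j` marked elements among `b` possible ones. -/
noncomputable def gg (b j : ℕ) : ℝ := ∑ i ∈ range j, Real.log ((b : ℝ) / ((b : ℝ) - i))

/-- The cost of the slot `U`: star at `X`, upper set `U0` of the object, marks `M`. -/
noncomputable def sc (ρ : α → ℝ) (n : ℝ) (X U0 M U : Finset α) : ℝ :=
  -Real.log (1 - ((∑ g ∈ U0 \ X, ρ g) + ∑ g ∈ (U \ U0) \ M, ρ g) / n)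

/-! ## Expected costs along good chains -/

/-- Auxiliary recursion for `ec`. -/
noncomputable def ecn (τ : Finset α → Lab) (D : Finset α) (c : Finset α → ℝ) : ℕ → Finset α → ℝ
  | 0, _ => 0
  | n + 1, U => if τ U = Lab.B then
      c U * bw τ D U + (∑ x ∈ D \ U, ecn τ D c n (insert x U)) / ((n : ℝ) + 1) else 0

/-- Expected total cost of the sets of a random chain from `U` to `D` (without `D`), restricted to
the chains with all labels `B`. -/
noncomputable def ec (τ : Finset α → Lab) (D : Finset α) (c : Finset α → ℝ) (U : Finset α) : ℝ :=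
  ecn τ D c (D \ U).card U

/-- The same for the chains starting at a cut vertex `V`. -/
noncomputable def ev (τ : Finset α → Lab) (D : Finset α) (c : Finset α → ℝ) (V : Finset α) : ℝ :=
  c V * bwb τ D V + (∑ x ∈ D \ V, ec τ D c (insert x V)) / ((D \ V).card : ℝ)

/-! ## Masses without the suffix factor -/

/-- `pe` without the factor `bw`. -/
noncomputable def pe1 (τ : Finset α → Lab) (D X V : Finset α) (x : α) : ℝ :=
  if X ⊆ V ∧ isE τ V x then
    fw τ X / (((D.card : ℝ) + 1) * (D.card.choose X.card : ℝ) *
      ((D.card - X.card).choose (V.card - X.card) : ℝ) * ((D.card : ℝ) - (V.card : ℝ)))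
  else 0

/-- `pv` without the factor `bwb`. -/
noncomputable def pv1 (τ : Finset α → Lab) (D X V : Finset α) : ℝ :=
  if X ⊆ V ∧ τ V = Lab.X then
    fw τ X / (((D.card : ℝ) + 1) * (D.card.choose X.card : ℝ) *
      ((D.card - X.card).choose (V.card - X.card) : ℝ))
  else 0

/-- `yLe` without the factor `bw`. -/
noncomputable def y1e (τ : Finset α → Lab) (D V : Finset α) : ℝ :=
  aw τ V / (((D.card : ℝ) + 1) * (D.card.choose V.card : ℝ) * ((D.card : ℝ) - (V.card : ℝ)))

/-- `yLv` without the factor `bwb`. -/
noncomputable def y1v (τ : Finset α → Lab) (D V : Finset α) : ℝ :=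
  aw τ V / (((D.card : ℝ) + 1) * (D.card.choose V.card : ℝ))

/-! ## The value -/

/-- The slot costs of the star at `X` and the object with upper set `U0`. -/
noncomputable def SS (ρ : Finset α → α → ℝ) (mk : Finset α → Finset α) (D X U0 : Finset α) :
    Finset α → ℝ := sc (ρ X) ((D.card : ℝ) - X.card) X U0 (mk U0)

/-- The gain of the marks. -/
noncomputable def gm (mk : Finset α → Finset α) (D U : Finset α) : ℝ :=
  gg (mk U).card (mk U ∩ (D \ U)).card

/-- The constant part of the logarithm of the kernel. -/
noncomputable def KV (ρ : Finset α → α → ℝ) (mk : Finset α → Finset α) (D X U : Finset α) : ℝ :=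
  Real.log ((D.card - U.card).factorial : ℝ) -
    ((D.card : ℝ) - U.card) * Real.log ((D.card : ℝ) - X.card) +
    (∑ g ∈ D \ U, Real.log (ρ X g)) + gm mk D U

/-- The colour L value of a type with densities `ρ`, marks `mk` and `T`-side potential `H`. -/
noncomputable def LVc (τ : Finset α → Lab) (D : Finset α) (ρ : Finset α → α → ℝ)
    (mk : Finset α → Finset α) (H : Finset α → ℝ) : ℝ :=
  (∑ X ∈ D.powerset,
    ((∑ V ∈ D.powerset, ∑ x ∈ D \ V, (pe τ D X V x * KV ρ mk D X (insert x V) +
        pe1 τ D X V x * ec τ D (SS ρ mk D X (insert x V)) (insert x V))) +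
    ∑ V ∈ D.powerset, (pv τ D X V * KV ρ mk D X V +
        pv1 τ D X V * ev τ D (SS ρ mk D X V) V))) +
  (∑ V ∈ D.powerset, ∑ x ∈ D \ V, yLe τ D V x *
    (Real.log (((V.card : ℝ) + 1) / ((D.card : ℝ) + 1)) + H V +
      Real.log (Zt τ D / y1e τ D V))) +
  ∑ V ∈ D.powerset, yLv τ D V *
    (Real.log (D.card : ℝ) + Real.log ((V.card : ℝ) / (D.card : ℝ)) + H V +
      Real.log (Zt τ D / y1v τ D V))

/-- The gain of the `S`-side. -/
noncomputable def SGc (τ : Finset α → Lab) (D : Finset α) (ρ : Finset α → α → ℝ)
    (mk : Finset α → Finset α) : ℝ :=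
  ∑ X ∈ D.powerset,
    ((∑ g ∈ D \ X, PP1 τ D X g * (Real.log ((D \ X).card : ℝ) - Real.log (ρ X g))) +
    (∑ V ∈ D.powerset, ∑ x ∈ D \ V,
      (pe1 τ D X V x * ec τ D (SS ρ mk D X (insert x V)) (insert x V) +
        pe τ D X V x * gm mk D (insert x V))) +
    ∑ V ∈ D.powerset, (pv1 τ D X V * ev τ D (SS ρ mk D X V) V + pv τ D X V * gm mk D V))

/-- The colour L part of `COST1` (normalised by `z`). -/
noncomputable def CL1 (τ : Finset α → Lab) (D : Finset α) (z : ℝ) : ℝ :=
  (∑ V ∈ D.powerset, ∑ x ∈ D \ V, yLe τ D V x *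
    Real.log (aw τ V / (((V.card : ℝ) + 1) * z))) +
  ∑ V ∈ D.powerset, yLv τ D V *
    Real.log (aw τ V * (D.card : ℝ) / (((D.card : ℝ) + 1) * (V.card : ℝ) * z))

/-- Relative entropy term. -/
noncomputable def COST1 (τ : Finset α → Lab) (D : Finset α) : ℝ :=
  CL1 τ D (Zt τ D) + CL1 (dual τ D) D (Zt τ D)

/-- The value of a type, with explicit densities and marks on both sides. -/
noncomputable def VALc (τ : Finset α → Lab) (D : Finset α) (ρS : Finset α → α → ℝ)
    (mS : Finset α → Finset α) (ρT : Finset α → α → ℝ) (mT : Finset α → Finset α) : ℝ :=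
  SGc τ D ρS mS + SGc (dual τ D) D ρT mT -
    Real.log (D.card : ℝ) * (PEL τ D + PEL (dual τ D) D) - COST1 τ D

/-- The marks of a set `L` of light elements: the lights outside the object, if there are at least
two of them. -/
def lmk (L U : Finset α) : Finset α := if 2 ≤ (L \ U).card then L \ U else ∅

end

end R5
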