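import Pool.Agent.Work.MP_8b6acb_fq.Basic
import Pool.Agent.Work.MP_8b6acb_cap.MAINNET
import Pool.Agent.Work.MP_8b6acb_cap.CUT3

/-! Block CUTQ. -/

namespace R5

open Finset MP_8b6acb_co

namespace CQ

section

variable {α : Type} [DecidableEq α]

theorem SGc_congr {τ : Finset α → Lab} {D : Finset α} {ρ : Finset α → α → ℝ}
    {mk mk' : Finset α → Finset α} (h : ∀ U ⊆ D, mk U = mk' U) :
    SGc τ D ρ mk = SGc τ D ρ mk' := by
  unfold SGc
  refine sum_congr rfl fun X _ => ?_
  congr 1
  · congr 1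
    refine sum_congr rfl fun V hV => sum_congr rfl fun x hx => ?_
    have h1 : insert x V ⊆ D := insert_subset (mem_sdiff.1 hx).1 (mem_powerset.1 hV)
    unfold SS gm
    rw [h _ h1]
  · refine sum_congr rfl fun V hV => ?_
    unfold SS gm
    rw [h _ (mem_powerset.1 hV)]

theorem VALc_congr {τ : Finset α → Lab} {D : Finset α} {ρ ρ' : Finset α → α → ℝ}
    {mS mS' mT mT' : Finset α → Finset α} (h : ∀ U ⊆ D, mS U = mS' U)
    (h' : ∀ U ⊆ D, mT U = mT' U) :
    VALc τ D ρ mS ρ' mT = VALc τ D ρ mS' ρ' mT' := by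
  unfold VALc
  rw [SGc_congr h, SGc_congr h']

theorem PEL_nonneg (τ : Finset α → Lab) (D : Finset α) : 0 ≤ PEL τ D :=
  sum_nonneg fun _ hV => sum_nonneg fun x _ => MN.yLe_nn τ x (mem_powerset.1 hV)

/-- The marks do not meet the object. -/
theorem lmk_disjoint (L U : Finset α) : Disjoint (lmk L U) U := by
  unfold lmk
  split_ifs
  · exact sdiff_disjoint
  · exact disjoint_empty_left _

theorem lmk_subset (L U : Finset α) : lmk L U ⊆ L \ U := by
  unfold lmk
  split_ifs
  · exact Subset.refl _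
  · exact empty_subset _

theorem lmk_congr {L U U' : Finset α} (h : L \ U = L \ U') : lmk L U = lmk L U' := by
  unfold lmk
  rw [h]

end

variable {α : Type} [Fintype α] [DecidableEq α]

/-- The light elements of a source. -/
def LS (c : Finset α → Lab) (s : Finset α) : Finset α :=
  univ.filter fun x => x ∉ s ∧ c (insert x s) = Lab.B

/-- The light elements of a sink. -/
def LT (c : Finset α → Lab) (t : Finset α) : Finset α := t.filter fun x => c (t.erase x) = Lab.A

/-- The marks of the sources. -/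
def mkS (c : Finset α → Lab) (s u : Finset α) : Finset α := lmk (LS c s) u

/-- The marks of the sinks. -/
def mkT (c : Finset α → Lab) (t v : Finset α) : Finset α := lmk (LT c t) (t \ v)

theorem mkT_subset (c : Finset α → Lab) (t v : Finset α) : mkT c t v ⊆ v := by
  intro x hx
  have h1 := lmk_subset _ _ hx
  rw [mem_sdiff, mem_sdiff] at h1
  have h2 : x ∈ t := (mem_filter.1 h1.1).1
  by_contra h3
  exact h1.2 ⟨h2, h3⟩

theorem mkS_eq (c : Finset α → Lab) (s U : Finset α) : mkS c s (s ∪ U) = lmk (LS c s) U := by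
  unfold mkS
  refine lmk_congr ?_
  ext x
  simp only [mem_sdiff, mem_union, LS, mem_filter, mem_univ, true_and]
  tauto

theorem mkT_eq (c : Finset α → Lab) {s t U : Finset α} (hU : U ⊆ t \ s) :
    mkT c t (s ∪ ((t \ s) \ U)) = lmk (LT c t) U := by
  unfold mkT
  refine lmk_congr ?_
  congr 1
  ext x
  simp only [mem_sdiff, mem_union, not_or, not_and, not_not]
  constructor
  · rintro ⟨h1, h2, h3⟩
    exact h3 ⟨h1, h2⟩
  · intro h
    have := mem_sdiff.1 (hU h)
    exact ⟨this.1, this.2, fun _ => h⟩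

/-- The densities are in `(0, 1]`. -/
theorem rhoS {c : Finset α → Lab} {i j : ℕ} {S T : Finset (Finset α)} {a b : Finset α → ℝ}
    (h : Net c i j S T a b) {s t : Finset α} (hs : s ∈ S) (ht : t ∈ T) (hst : s ⊆ t) :
    ∀ X ⊆ t \ s, ∀ g ∈ (t \ s) \ X,
      0 < MU c T a b s (s ∪ insert g X) / MU c T a b s (s ∪ X) ∧
        MU c T a b s (s ∪ insert g X) / MU c T a b s (s ∪ X) ≤ 1 := by
  intro X hX g hg
  have h1 : s ∪ insert g X ⊆ t := union_subset hst
    (insert_subset (mem_sdiff.1 (mem_sdiff.1 hg).1).1 (hX.trans sdiff_subset))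
  have h2 : s ∪ X ⊆ s ∪ insert g X := union_subset_union (Subset.refl _) (subset_insert _ _)
  have p1 := MN.MU_pos h hs ht h1
  have p2 := MN.MU_pos h hs ht (h2.trans h1)
  exact ⟨div_pos p1 p2, (div_le_one p2).2 (MN.MU_anti h hs h2)⟩

theorem rhoT {c : Finset α → Lab} {i j : ℕ} {S T : Finset (Finset α)} {a b : Finset α → ℝ}
    (h : Net c i j S T a b) {s t : Finset α} (hs : s ∈ S) (ht : t ∈ T) :
    ∀ U ⊆ t \ s, ∀ g ∈ (t \ s) \ U,
      0 < NU c S a b t (s ∪ ((t \ s) \ insert g U)) / NU c S a b t (s ∪ ((t \ s) \ U)) ∧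
        NU c S a b t (s ∪ ((t \ s) \ insert g U)) / NU c S a b t (s ∪ ((t \ s) \ U)) ≤ 1 := by
  intro U _ g _
  have h2 : s ∪ ((t \ s) \ insert g U) ⊆ s ∪ ((t \ s) \ U) :=
    union_subset_union (Subset.refl _) (sdiff_subset_sdiff (Subset.refl _) (subset_insert _ _))
  have p1 := MN.NU_pos h hs ht (v := s ∪ ((t \ s) \ insert g U)) subset_union_left
  have p2 := MN.NU_pos h hs ht (v := s ∪ ((t \ s) \ U)) subset_union_left
  exact ⟨div_pos p1 p2, (div_le_one p2).2 (MN.NU_mono h ht h2)⟩

/-- The value of a good pair is nonnegative. -/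
theorem good {c : Finset α → Lab} {i j q : ℕ} {S T : Finset (Finset α)} {a b : Finset α → ℝ}
    (hTI : Stmt_TI α (j - i) q) (h : Net c i j S T a b) {s t : Finset α} (hs : s ∈ S)
    (ht : t ∈ T) (hst : s ⊆ t) (hn : nbS c s + nbT c t + 1 ≤ q) :
    0 ≤ VALc (ty c s) (t \ s)
        (fun X g => MU c T a b s (s ∪ insert g X) / MU c T a b s (s ∪ X))
        (fun U => mkS c s (s ∪ U))
        (fun U g => NU c S a b t (s ∪ ((t \ s) \ insert g U)) / NU c S a b t (s ∪ ((t \ s) \ U)))
        (fun U => mkT c t (s ∪ ((t \ s) \ U))) +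
      Real.log (((j : ℝ) - i) / (q : ℝ)) *
        (PEL (ty c s) (t \ s) + PEL (dual (ty c s) (t \ s)) (t \ s)) := by
  have hlR : ((j - i : ℕ) : ℝ) = (j : ℝ) - i := Nat.cast_sub h.hij.le
  have hcard : (t \ s).card = j - i := by
    rw [card_sdiff_of_subset hst, h.cT t ht, h.cS s hs]
  have h1 := hTI (ty c s) (t \ s) (LS c s) (LT c t)
    (fun X g => MU c T a b s (s ∪ insert g X) / MU c T a b s (s ∪ X))
    (fun U g => NU c S a b t (s ∪ ((t \ s) \ insert g U)) / NU c S a b t (s ∪ ((t \ s) \ U)))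
    hcard (by unfold ty; rw [union_empty]; exact h.lS s hs)
    (by unfold ty; rw [union_sdiff_of_subset hst]; exact h.lT t ht)
    (by
      intro x hx
      have e : s ∪ {x} = insert x s := by rw [union_comm]; rfl
      unfold ty LS
      rw [e, mem_filter]
      have := (mem_sdiff.1 hx).2
      simp [this])
    (by
      intro x hx
      have hx' := mem_sdiff.1 hx
      have e : s ∪ ((t \ s).erase x) = t.erase x := by
        ext y
        simp only [mem_union, mem_erase, mem_sdiff]
        constructor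
        · rintro (h | h)
          · exact ⟨fun hyx => hx'.2 (hyx ▸ h), hst h⟩
          · exact ⟨h.1, h.2.1⟩
        · rintro ⟨h1, h2⟩
          by_cases h3 : y ∈ s
          · exact Or.inl h3
          · exact Or.inr ⟨h1, h2, h3⟩
      unfold ty LT
      rw [e, mem_filter]
      simp [hx'.1])
    (by exact hn)
    (rhoS h hs ht hst) (rhoT h hs ht)
  rw [hlR] at h1
  rw [VALc_congr (mS' := lmk (LS c s)) (mT' := lmk (LT c t)) (fun U _ => mkS_eq c s U)
    (fun U hU => mkT_eq c hU)]
  exact h1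

end CQ

open CQ in
theorem stmt_CUTQ (α : Type) [Fintype α] [DecidableEq α] (hM : Stmt_MAINNETQ α)
    (hV : Stmt_VLB α) (hH : Stmt_HALLM) : Stmt_CUTQ α := by
  intro i j q S φ c hij hq1 hq hTI hmat hcS hcT hnb
  set T := S.image φ with hT
  set E := (netE c i j S T).card with hE
  set X := (netX c i j).card with hX
  by_cases hSe : S = ∅
  · rw [hSe]; simp
  have hSne : S.Nonempty := nonempty_iff_ne_empty.2 hSe
  have hij' : i < j := by omega
  have hlR : ((j - i : ℕ) : ℝ) = (j : ℝ) - i := Nat.cast_sub hij'.le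
  have hqpos : (0 : ℝ) < q := by exact_mod_cast hq1
  have hql : (q : ℝ) ≤ (j : ℝ) - i := by rw [← hlR]; exact_mod_cast hq
  have hcTj : ∀ t ∈ T, t.card = j := by
    intro t ht
    obtain ⟨s, hs, rfl⟩ := mem_image.1 ht
    exact hmat.cT s hs
  have hlog0 : 0 ≤ Real.log (((j : ℝ) - i) / (q : ℝ)) := by
    refine Real.log_nonneg ?_
    rw [le_div_iff₀ hqpos]; linarith
  -- the constants
  have hK : ∀ s t : Finset α, ∃ K : ℝ, 0 ≤ K ∧ (s ∈ S → t ∈ T → s ⊆ t →
      ∀ (ρS ρT : Finset α → α → ℝ) (mS mT : Finset α → Finset α),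
      (∀ X ⊆ t \ s, ∀ g ∈ (t \ s) \ X, 0 < ρS X g ∧ ρS X g ≤ 1) →
      (∀ X ⊆ t \ s, ∀ g ∈ (t \ s) \ X, 0 < ρT X g ∧ ρT X g ≤ 1) →
      -K ≤ VALc (ty c s) (t \ s) ρS mS ρT mT) := by
    intro s t
    by_cases hst : s ∈ S ∧ t ∈ T ∧ s ⊆ t
    · obtain ⟨hs, ht, hst⟩ := hst
      have hcard : (t \ s).card = j - i := by
        rw [card_sdiff_of_subset hst, hcTj t ht, hmat.cS s hs]
      obtain ⟨K, hK⟩ := hV (ty c s) (t \ s) (by unfold ty; rw [union_empty]; exact hcS s hs)
        (by unfold ty; rw [union_sdiff_of_subset hst]; exact hcT t ht)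
        (by rw [← card_pos, hcard]; omega)
      refine ⟨|K|, abs_nonneg K, fun _ _ _ ρS ρT mS mT h1 h2 => ?_⟩
      have h3 := hK ρS ρT mS mT h1 h2
      have h4 := le_abs_self K
      linarith
    · exact ⟨0, le_rfl, fun h1 h2 h3 => absurd ⟨h1, h2, h3⟩ hst⟩
  choose K hK0 hK using hK
  set K0 : ℝ := ∑ s ∈ S, ∑ t ∈ T.filter (fun t => s ⊆ t),
    2 * (S.card : ℝ) * K s t / Zt (ty c s) (t \ s) with hK0def
  have hZ : ∀ s ∈ S, ∀ D : Finset α, 0 < Zt (ty c s) D := fun s hs D =>
    C3.Zt_pos (by unfold ty; rw [union_empty]; exact hcS s hs)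
  have hK0nn : 0 ≤ K0 := by
    refine sum_nonneg fun s hs => sum_nonneg fun t _ => ?_
    exact div_nonneg (mul_nonneg (by positivity) (hK0 s t)) (hZ s hs _).le
  -- the approximate inequality
  have key : ∀ ε : ℝ, 0 < ε → ε < 1 →
      (S.card : ℝ) * (1 - ε) ≤ (1 + ε) * ((E : ℝ) + (q : ℝ) * X) / q + ε * K0 := by
    intro ε hε hε1
    obtain ⟨a, b, ha, hb, h1, h2⟩ := C3.sink_finset S φ hmat.inj
      (fun s t => if s ⊆ t then Zt (ty c s) (t \ s) else 0)
      (fun s hs t _ => by
        split_ifs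
        · exact (hZ s hs _).le
        · exact le_rfl)
      (fun s hs => by
        rw [if_pos (hmat.sub s hs)]
        exact hZ s hs _) hε
    rw [← hT] at h1 h2
    have hnet : Net c i j S T a b :=
      ⟨hij', hmat.cS, hcTj, hcS, hcT, fun s _ => ha s, fun t _ => hb t⟩
    have hMU : ∀ s, MU c T a b s s =
        ∑ t ∈ T, a s * b t * (if s ⊆ t then Zt (ty c s) (t \ s) else 0) := by
      intro s
      unfold MU
      rw [sum_filter]
      refine sum_congr rfl fun t _ => ?_
      split_ifs <;> simp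
    have hNU : ∀ t, NU c S a b t t =
        ∑ s ∈ S, a s * b t * (if s ⊆ t then Zt (ty c s) (t \ s) else 0) := by
      intro t
      unfold NU
      rw [sum_filter]
      refine sum_congr rfl fun s _ => ?_
      split_ifs <;> simp
    have hMU1 : ∀ s ∈ S, 1 - ε ≤ MU c T a b s s ∧ MU c T a b s s ≤ 1 + ε := by
      intro s hs
      have := abs_le.1 (h1 s hs)
      rw [hMU]
      constructor <;> linarith [this.1, this.2]
    have hNU1 : ∀ t ∈ T, NU c S a b t t ≤ 1 + ε := by
      intro t ht
      have := abs_le.1 (h2 t ht)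
      rw [hNU]
      linarith [this.2]
    set W := ∑ s ∈ S, ∑ t ∈ T.filter (fun t => s ⊆ t), a s * b t * Zt (ty c s) (t \ s) with hW
    have hWMU : W = ∑ s ∈ S, MU c T a b s s := rfl
    have hW1 : S.card * (1 - ε) ≤ W := by
      rw [hWMU]
      calc (S.card : ℝ) * (1 - ε) = ∑ _s ∈ S, (1 - ε) := by rw [sum_const, nsmul_eq_mul]
        _ ≤ _ := sum_le_sum fun s hs => (hMU1 s hs).1
    have hWpos : 0 < W := by
      have : (0 : ℝ) < S.card := by exact_mod_cast hSne.card_pos
      have h3 : 0 < 1 - ε := by linarith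
      have := mul_pos this h3
      linarith
    have hmain := hM c i j S T a b (1 + ε) q (mkS c) (mkT c) hnet (by linarith) hq1
      (fun s u => lmk_disjoint _ _) (fun t v => mkT_subset c t v)
      (fun s hs => (hMU1 s hs).2) hNU1 W rfl hWpos
    -- C > 0
    have hobj : 0 < E + X := by
      obtain ⟨s, hs⟩ := hSne
      exact C3.exists_object hs (mem_image_of_mem φ hs) (hmat.sub s hs) (hmat.cS s hs)
        (hmat.cT s hs) (hcS s hs) (hcT _ (mem_image_of_mem φ hs)) hij'
    set C : ℝ := (E : ℝ) + (q : ℝ) * X with hC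
    have hE0 : (0 : ℝ) ≤ E := Nat.cast_nonneg _
    have hX0 : (0 : ℝ) ≤ X := Nat.cast_nonneg _
    have hCpos : 0 < C := by
      rcases Nat.eq_zero_or_pos E with h | h
      · have hX1 : (0 : ℝ) < X := by exact_mod_cast (by omega : 0 < X)
        rw [hC]
        have := mul_pos hqpos hX1
        linarith
      · have : (0 : ℝ) < E := by exact_mod_cast h
        have h3 := mul_nonneg hqpos.le hX0
        rw [hC]; linarith
    have hlog : W * Real.log ((1 + ε) * C / ((q : ℝ) * W)) ≤ (1 + ε) * C / (q : ℝ) - W := by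
      have hpos : 0 < (1 + ε) * C / ((q : ℝ) * W) := by positivity
      have h3 := Real.log_le_sub_one_of_pos hpos
      have h4 := mul_le_mul_of_nonneg_left h3 hWpos.le
      refine h4.trans (le_of_eq ?_)
      field_simp
    -- lower bound for the left side
    have hlow : -(ε * K0) ≤ ∑ s ∈ S, ∑ t ∈ T.filter (fun t => s ⊆ t), a s * b t *
        (VALc (ty c s) (t \ s)
            (fun X g => MU c T a b s (s ∪ insert g X) / MU c T a b s (s ∪ X))
            (fun U => mkS c s (s ∪ U))
            (fun U g => NU c S a b t (s ∪ ((t \ s) \ insert g U)) /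
              NU c S a b t (s ∪ ((t \ s) \ U)))
            (fun U => mkT c t (s ∪ ((t \ s) \ U))) +
          Real.log (((j : ℝ) - i) / (q : ℝ)) *
            (PEL (ty c s) (t \ s) + PEL (dual (ty c s) (t \ s)) (t \ s))) := by
      rw [hK0def, mul_sum, ← sum_neg_distrib]
      refine sum_le_sum fun s hs => ?_
      rw [mul_sum, ← sum_neg_distrib]
      refine sum_le_sum fun t ht => ?_
      rw [mem_filter] at ht
      obtain ⟨ht, hst⟩ := ht
      have hnn : 0 ≤ ε * (2 * (S.card : ℝ) * K s t / Zt (ty c s) (t \ s)) :=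
        mul_nonneg hε.le (div_nonneg (mul_nonneg (by positivity) (hK0 s t)) (hZ s hs _).le)
      have hab : 0 < a s * b t := mul_pos (ha s) (hb t)
      rcases hH (Finset α) (Finset α) S T (fun s t => s ⊆ t)
        (fun s t => a s * b t * (if s ⊆ t then Zt (ty c s) (t \ s) else 0)) ε φ hε.le hmat.inj
        hT.symm hmat.sub (fun s hs t _ => by
          refine mul_nonneg (mul_pos (ha s) (hb t)).le ?_
          split_ifs
          · exact (hZ s hs _).le
          · exact le_rfl) (fun s _ t _ hn => by rw [if_neg hn, mul_zero]) h1 h2 s hs t ht with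
        ⟨φ', hinj, him, hsub, hφ⟩ | hsmall
      · have hmat' : Mat i j S φ' := by
          refine ⟨hmat.cS, fun s' hs' => hcTj _ ?_, hinj, hsub⟩
          rw [← him]
          exact mem_image_of_mem _ hs'
        have hn := hnb φ' hmat' him s hs
        rw [hφ] at hn
        have := mul_nonneg hab.le (good hTI hnet hs ht hst hn)
        linarith
      · simp only [if_pos hst] at hsmall
        have hZst := hZ s hs (t \ s)
        have hab2 : a s * b t ≤ 2 * ε * (S.card : ℝ) / Zt (ty c s) (t \ s) := by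
          rw [le_div_iff₀ hZst]; exact hsmall
        have hv := hK s t hs ht hst _ _ (fun U => mkS c s (s ∪ U))
          (fun U => mkT c t (s ∪ ((t \ s) \ U))) (rhoS hnet hs ht hst) (rhoT hnet hs ht)
        have hp : 0 ≤ Real.log (((j : ℝ) - i) / (q : ℝ)) *
            (PEL (ty c s) (t \ s) + PEL (dual (ty c s) (t \ s)) (t \ s)) :=
          mul_nonneg hlog0 (add_nonneg (PEL_nonneg _ _) (PEL_nonneg _ _))
        have h5 : -K s t ≤ VALc (ty c s) (t \ s)
            (fun X g => MU c T a b s (s ∪ insert g X) / MU c T a b s (s ∪ X))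
            (fun U => mkS c s (s ∪ U))
            (fun U g => NU c S a b t (s ∪ ((t \ s) \ insert g U)) /
              NU c S a b t (s ∪ ((t \ s) \ U)))
            (fun U => mkT c t (s ∪ ((t \ s) \ U))) +
          Real.log (((j : ℝ) - i) / (q : ℝ)) *
            (PEL (ty c s) (t \ s) + PEL (dual (ty c s) (t \ s)) (t \ s)) := by linarith
        have h6 := mul_le_mul_of_nonneg_left h5 hab.le
        have h7 := mul_le_mul_of_nonneg_right hab2 (hK0 s t)
        have h8 : ε * (2 * (S.card : ℝ) * K s t / Zt (ty c s) (t \ s)) =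
            2 * ε * (S.card : ℝ) / Zt (ty c s) (t \ s) * K s t := by ring
        rw [h8]
        have h9 : a s * b t * -K s t = -(a s * b t * K s t) := by ring
        rw [h9] at h6
        linarith
    have hfin := (hlow.trans hmain).trans hlog
    linarith
  -- let ε → 0
  by_contra hcon
  rw [not_le] at hcon
  have hint : (E : ℝ) + (q : ℝ) * X + 1 ≤ (q : ℝ) * S.card := by
    exact_mod_cast hcon
  set C : ℝ := (E : ℝ) + (q : ℝ) * X with hC
  have hC0 : 0 ≤ C := by positivity
  set N : ℝ := (q : ℝ) * S.card with hN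
  have hN0 : 0 < N := by linarith
  have h := key (1 / (2 * (N + C + q * K0 + 1))) (by positivity) (by
    rw [div_lt_one (by positivity)]
    have := mul_nonneg hqpos.le hK0nn
    linarith)
  set δ : ℝ := 1 / (2 * (N + C + q * K0 + 1)) with hδ
  have hδ0 : 0 < δ := by positivity
  have h2 := mul_le_mul_of_nonneg_left h hqpos.le
  have h3 : (q : ℝ) * ((S.card : ℝ) * (1 - δ)) = N - N * δ := by rw [hN]; ring
  have h4 : (q : ℝ) * ((1 + δ) * C / q + δ * K0) = C + δ * C + δ * (q * K0) := by
    field_simp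
  rw [h3, h4] at h2
  have h5 : δ * (N + C + q * K0) < 1 := by
    rw [hδ, one_div, inv_mul_lt_iff₀ (by positivity)]
    have := mul_nonneg hqpos.le hK0nn
    linarith
  nlinarith

end R5
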