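import Pool.Agent.Work.MP_8b6acb_fq.Basic
import Pool.Agent.Work.MP_8b6acb_co.Final

/-! Block ENGINE. -/

namespace R5

open Finset MP_8b6acb_co

theorem stmt_ENGINE (hP : ∀ d : ℕ, Stmt_PPQ (Fin d)) : Stmt_ENGINE := by
  intro d i j q hij h1 hq hTI S T hS hT hST
  exact hasEdgeDisjointLR (hP d i j q hij h1 hq hTI) (by omega) S T hS hT hST

end R5
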