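import Pool.Agent.Work.MP_8b6acb_fq.Basic
import Pool.Agent.Work.MP_8b6acb_cap.FPART

/-! Block FPARTQ: the colour F part, by complementation. -/

namespace R5

open Finset MP_8b6acb_co

namespace FPARTQAux

open FPARTAux

variable {α : Type} [DecidableEq α] {τ τ' : Finset α → Lab} {D : Finset α}

theorem ecn_congr (h : ∀ U ⊆ D, τ U = τ' U) {c c' : Finset α → ℝ} (hc : ∀ U ⊆ D, c U = c' U) :
    ∀ (n : ℕ) (U : Finset α), U ⊆ D → ecn τ D c n U = ecn τ' D c' n U := by
  intro n
  induction n with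
  | zero => intro U _; rfl
  | succ n ih =>
    intro U hU
    rw [ecn_succ, ecn_succ, h U hU, hc U hU, bw_congr h]
    have e : ∑ x ∈ D \ U, ecn τ D c n (insert x U) = ∑ x ∈ D \ U, ecn τ' D c' n (insert x U) :=
      sum_congr rfl fun x hx => ih _ (insert_subset (mem_sdiff.1 hx).1 hU)
    rw [e]

theorem ec_congr (h : ∀ U ⊆ D, τ U = τ' U) {c c' : Finset α → ℝ} (hc : ∀ U ⊆ D, c U = c' U)
    {U : Finset α} (hU : U ⊆ D) : ec τ D c U = ec τ' D c' U :=
  ecn_congr h hc _ U hU

theorem ev_congr (h : ∀ U ⊆ D, τ U = τ' U) {c c' : Finset α → ℝ} (hc : ∀ U ⊆ D, c U = c' U)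
    {U : Finset α} (hU : U ⊆ D) : ev τ D c U = ev τ' D c' U := by
  unfold ev
  have e : ∑ x ∈ D \ U, ec τ D c (insert x U) = ∑ x ∈ D \ U, ec τ' D c' (insert x U) :=
    sum_congr rfl fun x hx => ec_congr h hc (insert_subset (mem_sdiff.1 hx).1 hU)
  rw [hc U hU, bwb_congr h, e]

theorem pe1_congr (h : ∀ U ⊆ D, τ U = τ' U) {X V : Finset α} {x : α} (hX : X ⊆ D) (hV : V ⊆ D)
    (hx : x ∈ D) : pe1 τ D X V x = pe1 τ' D X V x := by
  unfold pe1
  simp only [isE_congr h hV hx]
  rw [fw_congr fun U hU => h U (hU.trans hX)]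

theorem pv1_congr (h : ∀ U ⊆ D, τ U = τ' U) {X V : Finset α} (hX : X ⊆ D) (hV : V ⊆ D) :
    pv1 τ D X V = pv1 τ' D X V := by
  unfold pv1
  rw [h V hV, fw_congr fun U hU => h U (hU.trans hX)]

theorem y1e_congr (h : ∀ U ⊆ D, τ U = τ' U) {V : Finset α} (hV : V ⊆ D) :
    y1e τ D V = y1e τ' D V := by
  unfold y1e
  rw [aw_congr fun U hU => h U (hU.trans hV)]

theorem y1v_congr (h : ∀ U ⊆ D, τ U = τ' U) {V : Finset α} (hV : V ⊆ D) :
    y1v τ D V = y1v τ' D V := by
  unfold y1v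
  rw [aw_congr fun U hU => h U (hU.trans hV)]

theorem KV_congr {ρ ρ' : Finset α → α → ℝ} {mk mk' : Finset α → Finset α} {X U : Finset α}
    (hρ : ∀ g ∈ D, ρ X g = ρ' X g) (hm : mk U = mk' U) :
    KV ρ mk D X U = KV ρ' mk' D X U := by
  unfold KV gm
  have h1 : ∑ g ∈ D \ U, Real.log (ρ X g) = ∑ g ∈ D \ U, Real.log (ρ' X g) :=
    sum_congr rfl fun g hg => by rw [hρ g (mem_sdiff.1 hg).1]
  rw [h1, hm]

theorem SS_congr {ρ ρ' : Finset α → α → ℝ} {mk mk' : Finset α → Finset α} {X U : Finset α}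
    (hρ : ∀ g ∈ D, ρ X g = ρ' X g) (hU : U ⊆ D) (hm : mk U = mk' U) :
    ∀ W ⊆ D, SS ρ mk D X U W = SS ρ' mk' D X U W := by
  intro W hW
  unfold SS sc
  have h1 : ∑ g ∈ U \ X, ρ X g = ∑ g ∈ U \ X, ρ' X g :=
    sum_congr rfl fun g hg => hρ g (hU (mem_sdiff.1 hg).1)
  have h2 : ∑ g ∈ (W \ U) \ mk' U, ρ X g = ∑ g ∈ (W \ U) \ mk' U, ρ' X g :=
    sum_congr rfl fun g hg => hρ g (hW (mem_sdiff.1 (mem_sdiff.1 hg).1).1)
  rw [hm, h1, h2]

theorem LVc_congr {ρ ρ' : Finset α → α → ℝ} {mk mk' : Finset α → Finset α}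
    {H H' : Finset α → ℝ} (h : ∀ U ⊆ D, τ U = τ' U)
    (hρ : ∀ X ⊆ D, ∀ g ∈ D, ρ X g = ρ' X g) (hm : ∀ U ⊆ D, mk U = mk' U)
    (hH : ∀ V ⊆ D, H V = H' V) :
    LVc τ D ρ mk H = LVc τ' D ρ' mk' H' := by
  unfold LVc
  congr 1
  · congr 1
    · refine sum_congr rfl fun X hX => ?_
      rw [mem_powerset] at hX
      congr 1
      · refine sum_congr rfl fun V hV => sum_congr rfl fun x hx => ?_
        rw [mem_powerset] at hV
        rw [mem_sdiff] at hx
        have hi : insert x V ⊆ D := insert_subset hx.1 hV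
        rw [pe_congr h hX hV hx.1, KV_congr (hρ X hX) (hm _ hi), pe1_congr h hX hV hx.1,
          ec_congr h (SS_congr (hρ X hX) hi (hm _ hi)) hi]
      · refine sum_congr rfl fun V hV => ?_
        rw [mem_powerset] at hV
        rw [pv_congr h hX hV, KV_congr (hρ X hX) (hm _ hV), pv1_congr h hX hV,
          ev_congr h (SS_congr (hρ X hX) hV (hm _ hV)) hV]
    · refine sum_congr rfl fun V hV => sum_congr rfl fun x hx => ?_
      rw [mem_powerset] at hV
      rw [mem_sdiff] at hx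
      rw [yLe_congr h hV hx.1, hH V hV, Zt_congr h, y1e_congr h hV]
  · refine sum_congr rfl fun V hV => ?_
    rw [mem_powerset] at hV
    rw [yLv_congr h hV, hH V hV, Zt_congr h, y1v_congr h hV]

end FPARTQAux

open FPARTAux FPARTQAux in
theorem stmt_FPARTQ (α : Type) [Fintype α] [DecidableEq α] (hLP : Stmt_LPARTQ α) :
    Stmt_FPARTQ α := by
  intro c i j S T a b mk hN hmk
  by_cases hT : T = ∅
  · subst hT
    have e1 : ∀ v x, WFE c S ∅ a b v x = 0 := by
      intro v x; unfold WFE; simp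
    have e2 : ∀ v, WFX c S ∅ a b v = 0 := by
      intro v; unfold WFX; simp
    simp [e1, e2]
  obtain ⟨t0, ht0⟩ := nonempty_iff_ne_empty.2 hT
  have hj : j ≤ Fintype.card α := by
    rw [← hN.cT t0 ht0]; exact card_le_univ t0
  have hij := hN.hij
  have hmk' : ∀ s u : Finset α, Disjoint (mk sᶜ uᶜ) u := by
    intro s u
    exact disjoint_compl_left.mono_left (hmk sᶜ uᶜ)
  have hmain := hLP (cc c) (Fintype.card α - j) (Fintype.card α - i) (T.image compl)
    (S.image compl) (fun u => b uᶜ) (fun u => a uᶜ) (fun s u => mk sᶜ uᶜ) (net_compl hN hj) hmk'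
  have hL : ∑ s ∈ T.image compl, ∑ t ∈ (S.image compl).filter (fun t => s ⊆ t),
      b sᶜ * a tᶜ * LVc (ty (cc c) s) (t \ s)
        (fun X g => MU (cc c) (S.image compl) (fun u => b uᶜ) (fun u => a uᶜ) s (s ∪ insert g X) /
          MU (cc c) (S.image compl) (fun u => b uᶜ) (fun u => a uᶜ) s (s ∪ X))
        (fun U => mk sᶜ (s ∪ U)ᶜ)
        (fun V => -Real.log (NU (cc c) (T.image compl) (fun u => b uᶜ) (fun u => a uᶜ) t
          (s ∪ V))) =
      ∑ s ∈ S, ∑ t ∈ T.filter (fun t => s ⊆ t), a s * b t *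
        LVc (dual (ty c s) (t \ s)) (t \ s)
          (fun U g => NU c S a b t (s ∪ ((t \ s) \ insert g U)) /
            NU c S a b t (s ∪ ((t \ s) \ U)))
          (fun U => mk t (s ∪ ((t \ s) \ U)))
          (fun U => -Real.log (MU c T a b s (s ∪ ((t \ s) \ U)))) := by
    rw [sum_pairs_compl S T]
    refine sum_congr rfl fun s _ => sum_congr rfl fun t ht => ?_
    rw [mem_filter] at ht
    have hst := ht.2
    rw [compl_compl, compl_compl, compl_sdiff_compl, mul_comm (b t) (a s)]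
    congr 1
    refine LVc_congr (ty_compl c hst) ?_ ?_ ?_
    · intro X hX g hg
      rw [MU_compl c S a b subset_union_left, MU_compl c S a b subset_union_left,
        compl_un hst (insert_subset hg hX), compl_un hst hX]
    · intro U hU
      rw [compl_un hst hU]
    · intro V hV
      have : tᶜ ∪ V ⊆ sᶜ := by
        refine union_subset (compl_le_compl_iff_le.2 hst) ?_
        intro y hy
        exact mem_compl.2 (mem_sdiff.1 (hV hy)).2
      rw [NU_compl c T a b this, compl_un hst hV]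
  rw [hL] at hmain
  refine hmain.trans (le_of_eq ?_)
  have hc1 : ((Fintype.card α - j : ℕ) : ℝ) = (Fintype.card α : ℝ) - j := Nat.cast_sub hj
  have hc2 : ((Fintype.card α - i : ℕ) : ℝ) = (Fintype.card α : ℝ) - i :=
    Nat.cast_sub (by omega)
  have hE := sum_netE_compl (c := c) (S := S) (T := T) hij hj (fun v x =>
    WE (cc c) (T.image compl) (S.image compl) (fun u => b uᶜ) (fun u => a uᶜ) v x *
      Real.log (((v.card : ℝ) - (Fintype.card α - j : ℕ) + 1) /
        (((Fintype.card α - i : ℕ) : ℝ) - (Fintype.card α - j : ℕ) + 1)) -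
    WE (cc c) (T.image compl) (S.image compl) (fun u => b uᶜ) (fun u => a uᶜ) v x *
      Real.log (WE (cc c) (T.image compl) (S.image compl) (fun u => b uᶜ) (fun u => a uᶜ) v x))
  have hX := sum_netX_compl (c := c) hij hj (fun v =>
    WX (cc c) (T.image compl) (S.image compl) (fun u => b uᶜ) (fun u => a uᶜ) v *
      (Real.log (((Fintype.card α - i : ℕ) : ℝ) - (Fintype.card α - j : ℕ)) +
        Real.log (((v.card : ℝ) - (Fintype.card α - j : ℕ)) /
        (((Fintype.card α - i : ℕ) : ℝ) - (Fintype.card α - j : ℕ)))) -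
    WX (cc c) (T.image compl) (S.image compl) (fun u => b uᶜ) (fun u => a uᶜ) v *
      Real.log (WX (cc c) (T.image compl) (S.image compl) (fun u => b uᶜ) (fun u => a uᶜ) v))
  rw [hE, hX]
  congr 1
  · refine sum_congr rfl fun e he => ?_
    have hx : e.2 ∉ e.1 := by
      simp only [netE, mem_filter] at he; exact he.2.1
    have hcard : (((insert e.2 e.1)ᶜ.card : ℕ) : ℝ) = (Fintype.card α : ℝ) - (e.1.card + 1) := by
      rw [card_compl, Nat.cast_sub (card_le_univ _), card_insert_of_notMem hx]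
      push_cast
      ring
    rw [WE_compl c S T a b hx, hcard, hc1, hc2]
    have r1 : (Fintype.card α : ℝ) - (e.1.card + 1) - (Fintype.card α - j) + 1 =
        (j : ℝ) - e.1.card := by ring
    have r2 : (Fintype.card α : ℝ) - i - (Fintype.card α - j) + 1 = (j : ℝ) - i + 1 := by ring
    rw [r1, r2]
  · refine sum_congr rfl fun v hv => ?_
    have hcard : ((vᶜ.card : ℕ) : ℝ) = (Fintype.card α : ℝ) - v.card := by
      rw [card_compl, Nat.cast_sub (card_le_univ _)]
    rw [WX_compl c S T a b, hcard, hc1, hc2]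
    have r1 : (Fintype.card α : ℝ) - v.card - (Fintype.card α - j) = (j : ℝ) - v.card := by ring
    have r2 : (Fintype.card α : ℝ) - i - (Fintype.card α - j) = (j : ℝ) - i := by ring
    rw [r1, r2]

end R5
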