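import Pool.Agent.Work.MP_8b6acb_fq.Basic

/-! # Block HALLM: entries outside the perfect matchings are small (helper61) -/

namespace R5

open Finset

/-- the numerical part -/
theorem hallm_num {σ θ : Type} [DecidableEq σ] [DecidableEq θ] (S : Finset σ) (T : Finset θ)
    (R : σ → θ → Prop) [∀ s t, Decidable (R s t)] (w : σ → θ → ℝ) (ε : ℝ)
    (hε : 0 ≤ ε) (hw : ∀ s ∈ S, ∀ t ∈ T, 0 ≤ w s t)
    (hR : ∀ s ∈ S, ∀ t ∈ T, ¬ R s t → w s t = 0)
    (hr : ∀ s ∈ S, |(∑ t ∈ T, w s t) - 1| ≤ ε) (hc : ∀ t ∈ T, |(∑ s ∈ S, w s t) - 1| ≤ ε)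
    (s0 : σ) (hs0 : s0 ∈ S) (t0 : θ) (S' : Finset σ) (N : Finset θ) (hS' : S' ⊆ S)
    (h0 : s0 ∉ S') (hN : N ⊆ T) (ht0 : t0 ∈ N) (hNc : N.card ≤ S'.card)
    (hcl : ∀ s ∈ S', ∀ t ∈ T, R s t → t ∈ N) : w s0 t0 ≤ 2 * ε * (S.card : ℝ) := by
  have h1 : (S'.card : ℝ) * (1 - ε) ≤ ∑ s ∈ S', ∑ t ∈ N, w s t := by
    rw [← nsmul_eq_mul, ← sum_const]
    refine sum_le_sum fun s hs => ?_
    have h2 : ∑ t ∈ N, w s t = ∑ t ∈ T, w s t := by
      refine sum_subset hN fun t ht htN => hR s (hS' hs) t ht fun h => htN (hcl s hs t ht h)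
    rw [h2]
    have := (abs_le.1 (hr s (hS' hs))).1
    linarith
  have h3 : ∑ t ∈ N, ∑ s ∈ S, w s t ≤ (N.card : ℝ) * (1 + ε) := by
    rw [← nsmul_eq_mul, ← sum_const]
    refine sum_le_sum fun t ht => ?_
    have := (abs_le.1 (hc t (hN ht))).2
    linarith
  have h4 : (∑ s ∈ S', ∑ t ∈ N, w s t) + w s0 t0 ≤ ∑ t ∈ N, ∑ s ∈ S, w s t := by
    rw [sum_comm (s := N) (t := S)]
    have h5 : insert s0 S' ⊆ S := insert_subset hs0 hS'
    have h6 : ∑ s ∈ insert s0 S', ∑ t ∈ N, w s t ≤ ∑ s ∈ S, ∑ t ∈ N, w s t :=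
      sum_le_sum_of_subset_of_nonneg h5 fun s hs _ => sum_nonneg fun t ht => hw s hs t (hN ht)
    rw [sum_insert h0] at h6
    have h7 : w s0 t0 ≤ ∑ t ∈ N, w s0 t :=
      single_le_sum (f := fun t => w s0 t) (fun t ht => hw s0 hs0 t (hN ht)) ht0
    linarith
  have h8 : (N.card : ℝ) ≤ (S'.card : ℝ) := by exact_mod_cast hNc
  have h9 : (S'.card : ℝ) ≤ (S.card : ℝ) := by exact_mod_cast card_le_card hS'
  have h10 : (N.card : ℝ) * (1 + ε) ≤ (S'.card : ℝ) * (1 + ε) :=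
    mul_le_mul_of_nonneg_right h8 (by linarith)
  have h11 : (S'.card : ℝ) * ε ≤ (S.card : ℝ) * ε := mul_le_mul_of_nonneg_right h9 hε
  nlinarith

theorem stmt_HALLM : Stmt_HALLM := by
  classical
  intro σ θ _ _ S T R w ε φ hε hφ hφT hφR hw hR hr hc s0 hs0 t0 ht0
  by_cases hRst : R s0 t0
  swap
  · right
    rw [hR s0 hs0 t0 ht0 hRst]
    positivity
  let ι := {s : σ // s ∈ S.erase s0}
  let nbh : ι → Finset θ := fun s => (T.erase t0).filter fun t => R s.1 t
  by_cases hall : ∀ A : Finset ι, A.card ≤ (A.biUnion nbh).card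
  · left
    obtain ⟨f, hf, hfm⟩ := (Finset.all_card_le_biUnion_card_iff_exists_injective nbh).1 hall
    have hfm' : ∀ s : ι, f s ∈ T ∧ f s ≠ t0 ∧ R s.1 (f s) := by
      intro s
      have := hfm s
      simp only [nbh, mem_filter, mem_erase] at this
      exact ⟨this.1.2, this.1.1, this.2⟩
    let φ' : σ → θ := fun s => if h : s ∈ S.erase s0 then f ⟨s, h⟩ else t0
    have e0 : φ' s0 = t0 := dif_neg (notMem_erase s0 S)
    have e1 : ∀ s (h : s ∈ S.erase s0), φ' s = f ⟨s, h⟩ := fun s h => dif_pos h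
    have hinj : Set.InjOn φ' S := by
      intro a ha b hb hab
      by_cases ha0 : a = s0
      · by_cases hb0 : b = s0
        · rw [ha0, hb0]
        · exfalso
          rw [ha0, e0, e1 b (mem_erase.2 ⟨hb0, hb⟩)] at hab
          exact (hfm' _).2.1 hab.symm
      · by_cases hb0 : b = s0
        · exfalso
          rw [hb0, e0, e1 a (mem_erase.2 ⟨ha0, ha⟩)] at hab
          exact (hfm' _).2.1 hab
        · rw [e1 a (mem_erase.2 ⟨ha0, ha⟩), e1 b (mem_erase.2 ⟨hb0, hb⟩)] at hab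
          exact congrArg Subtype.val (hf hab)
    have hsub : S.image φ' ⊆ T := by
      intro t ht
      obtain ⟨s, hs, rfl⟩ := mem_image.1 ht
      by_cases h0 : s = s0
      · rw [h0, e0]; exact ht0
      · rw [e1 s (mem_erase.2 ⟨h0, hs⟩)]
        exact (hfm' _).1
    refine ⟨φ', hinj, eq_of_subset_of_card_le hsub ?_, fun s hs => ?_, e0⟩
    · rw [card_image_of_injOn hinj, ← hφT, card_image_of_injOn hφ]
    · by_cases h0 : s = s0
      · rw [h0, e0]; exact hRst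
      · rw [e1 s (mem_erase.2 ⟨h0, hs⟩)]
        exact (hfm' ⟨s, mem_erase.2 ⟨h0, hs⟩⟩).2.2
  · right
    push Not at hall
    obtain ⟨A, hA⟩ := hall
    let S' : Finset σ := A.image Subtype.val
    have hS'c : S'.card = A.card := card_image_of_injective A Subtype.val_injective
    have hS' : S' ⊆ S := by
      intro s hs
      obtain ⟨a, -, rfl⟩ := mem_image.1 hs
      exact (mem_erase.1 a.2).2
    have h0 : s0 ∉ S' := by
      intro hs
      obtain ⟨a, -, h⟩ := mem_image.1 hs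
      exact (mem_erase.1 a.2).1 h
    let N : Finset θ := T.filter fun t => ∃ s ∈ S', R s t
    have hN : N ⊆ T := filter_subset _ _
    have hcl : ∀ s ∈ S', ∀ t ∈ T, R s t → t ∈ N := fun s hs t ht h =>
      mem_filter.2 ⟨ht, s, hs, h⟩
    have hφN : S'.image φ ⊆ N := by
      intro t ht
      obtain ⟨s, hs, rfl⟩ := mem_image.1 ht
      exact hcl s hs _ (hφT ▸ mem_image_of_mem φ (hS' hs)) (hφR s (hS' hs))
    have hc1 : S'.card ≤ N.card := by
      rw [← card_image_of_injOn (hφ.mono hS' : Set.InjOn φ S')]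
      exact card_le_card hφN
    have hN0 : N.erase t0 ⊆ A.biUnion nbh := by
      intro t ht
      obtain ⟨htt, htN⟩ := mem_erase.1 ht
      obtain ⟨htT, s, hs, hst⟩ := mem_filter.1 htN
      obtain ⟨a, ha, rfl⟩ := mem_image.1 hs
      exact mem_biUnion.2 ⟨a, ha, mem_filter.2 ⟨mem_erase.2 ⟨htt, htT⟩, hst⟩⟩
    have hc2 : (N.erase t0).card < S'.card := by
      rw [hS'c]
      exact (card_le_card hN0).trans_lt hA
    have ht0N : t0 ∈ N := by
      by_contra h
      rw [erase_eq_of_notMem h] at hc2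
      omega
    have hc3 : N.card ≤ S'.card := by
      rw [card_erase_of_mem ht0N] at hc2
      omega
    exact hallm_num S T R w ε hε hw hR hr hc s0 hs0 t0 S' N hS' h0 hN ht0N hc3 hcl

end R5
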