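import Pool.Agent.Work.MP_8b6acb_fq.Basic

/-! # Block KLOG: the logarithm of the kernel (helper48) -/

set_option autoImplicit false

namespace R5

open Finset

namespace KLOGAux

variable {α : Type} [DecidableEq α]

/-- number of marked elements -/
def cnt (M : Finset α) (π : List α) : ℕ := (π.filter (fun x => x ∈ M)).length

theorem main (ρ : α → ℝ) (n : ℝ) (X U0 M : Finset α) (hn : 0 < n) :
    ∀ (π : List α) (U : Finset α) (i : ℕ), U0 ⊆ U → π.Nodup → (∀ x ∈ π, x ∉ U ∧ 0 < ρ x) →
    i + cnt M π ≤ M.card →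
    (π.map ρ).sum + ∑ g ∈ (U \ U0) \ M, ρ g ≤ n - ∑ g ∈ U0 \ X, ρ g →
    0 < kc ρ M (n - ∑ g ∈ U0 \ X, ρ g) π ((U \ U0) \ M) i ∧
    Real.log (kc ρ M (n - ∑ g ∈ U0 \ X, ρ g) π ((U \ U0) \ M) i) =
      (π.map fun x => Real.log (ρ x)).sum - (π.length : ℝ) * Real.log n +
      csum (sc ρ n X U0 M) U π +
      ∑ j ∈ range (cnt M π), Real.log ((M.card : ℝ) / ((M.card : ℝ) - ((i : ℝ) + j))) := by
  intro π
  induction π with
  | nil =>
    intro U i _ _ _ _ _
    simp [kc, csum, cnt]
  | cons g π ih =>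
    intro U i hU hnd hx hc hm
    rw [List.nodup_cons] at hnd
    have hg := hx g List.mem_cons_self
    have hgU0 : g ∉ U0 := fun h => hg.1 (hU h)
    have hnn : 0 ≤ (π.map ρ).sum := by
      apply List.sum_nonneg
      intro y hy
      rw [List.mem_map] at hy
      obtain ⟨x, hxx, rfl⟩ := hy
      exact (hx x (List.mem_cons_of_mem _ hxx)).2.le
    rw [List.map_cons, List.sum_cons] at hm
    set N : ℝ := n - ∑ g ∈ U0 \ X, ρ g with hN
    set w : ℝ := ∑ g ∈ (U \ U0) \ M, ρ g with hw
    have hpos : 0 < N - w := by linarith [hg.2]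
    have hsc : sc ρ n X U0 M U = -Real.log (N - w) + Real.log n := by
      unfold sc
      have h1 : (1 : ℝ) - ((∑ g ∈ U0 \ X, ρ g) + ∑ g ∈ (U \ U0) \ M, ρ g) / n = (N - w) / n := by
        rw [hN, ← hw]
        field_simp
        ring
      rw [h1, Real.log_div hpos.ne' hn.ne']
      ring
    have hx' : ∀ x ∈ π, x ∉ insert g U ∧ 0 < ρ x := by
      intro x hxx
      refine ⟨?_, (hx x (List.mem_cons_of_mem _ hxx)).2⟩
      rw [mem_insert, not_or]
      exact ⟨fun h => hnd.1 (h ▸ hxx), (hx x (List.mem_cons_of_mem _ hxx)).1⟩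
    have hU' : U0 ⊆ insert g U := hU.trans (subset_insert _ _)
    by_cases hM : g ∈ M
    · have hcn : cnt M (g :: π) = cnt M π + 1 := by
        unfold cnt
        rw [List.filter_cons_of_pos (by simpa using hM)]
        rfl
      have hset : (insert g U \ U0) \ M = (U \ U0) \ M := by
        ext x
        simp only [mem_sdiff, mem_insert]
        constructor
        · rintro ⟨⟨rfl | h, h2⟩, h3⟩
          · exact absurd hM h3
          · exact ⟨⟨h, h2⟩, h3⟩
        · rintro ⟨⟨h, h2⟩, h3⟩
          exact ⟨⟨Or.inr h, h2⟩, h3⟩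
      have hih := ih (insert g U) (i + 1) hU' hnd.2 hx' (by omega)
        (by rw [hset]; rw [← hw]; linarith [hg.2])
      rw [hset] at hih
      obtain ⟨h1, h2⟩ := hih
      have hbi : (0 : ℝ) < (M.card : ℝ) - i := by
        have : i < M.card := by omega
        have : (i : ℝ) < M.card := by exact_mod_cast this
        linarith
      have hb : (0 : ℝ) < (M.card : ℝ) := by
        have : 0 < M.card := by omega
        exact_mod_cast this
      have hk : kc ρ M N (g :: π) ((U \ U0) \ M) i =
          ρ g / (N - w) * ((M.card : ℝ) / ((M.card : ℝ) - i)) * kc ρ M N π ((U \ U0) \ M) (i + 1) := by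
        show (if g ∈ M then _ else _) = _
        rw [if_pos hM]
      have hq : 0 < ρ g / (N - w) := div_pos hg.2 hpos
      have hq2 : 0 < (M.card : ℝ) / ((M.card : ℝ) - i) := div_pos hb hbi
      refine ⟨by rw [hk]; exact mul_pos (mul_pos hq hq2) h1, ?_⟩
      rw [hk, Real.log_mul (mul_pos hq hq2).ne' h1.ne', Real.log_mul hq.ne' hq2.ne',
        Real.log_div hg.2.ne' hpos.ne', h2, hcn, sum_range_succ']
      simp only [List.map_cons, List.sum_cons, List.length_cons, csum, hsc]
      push_cast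
      have hs : ∑ j ∈ range (cnt M π), Real.log ((M.card : ℝ) / ((M.card : ℝ) - ((i : ℝ) + 1 + j))) =
          ∑ j ∈ range (cnt M π), Real.log ((M.card : ℝ) / ((M.card : ℝ) - ((i : ℝ) + ((j : ℝ) + 1)))) := by
        refine sum_congr rfl fun j _ => ?_
        congr 3
        ring
      rw [hs, add_zero]
      ring
    · have hcn : cnt M (g :: π) = cnt M π := by
        unfold cnt
        rw [List.filter_cons_of_neg (by simpa using hM)]
      have hset : (insert g U \ U0) \ M = insert g ((U \ U0) \ M) := by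
        ext x
        simp only [mem_sdiff, mem_insert]
        constructor
        · rintro ⟨⟨rfl | h, h2⟩, h3⟩
          · exact Or.inl rfl
          · exact Or.inr ⟨⟨h, h2⟩, h3⟩
        · rintro (rfl | ⟨⟨h, h2⟩, h3⟩)
          · exact ⟨⟨Or.inl rfl, hgU0⟩, hM⟩
          · exact ⟨⟨Or.inr h, h2⟩, h3⟩
      have hgW : g ∉ (U \ U0) \ M := by
        simp only [mem_sdiff]
        rintro ⟨⟨h, -⟩, -⟩
        exact hg.1 h
      have hih := ih (insert g U) i hU' hnd.2 hx' (by omega)
        (by rw [hset, sum_insert hgW]; rw [← hw]; linarith [hg.2])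
      rw [hset] at hih
      obtain ⟨h1, h2⟩ := hih
      have hk : kc ρ M N (g :: π) ((U \ U0) \ M) i =
          ρ g / (N - w) * kc ρ M N π (insert g ((U \ U0) \ M)) i := by
        show (if g ∈ M then _ else _) = _
        rw [if_neg hM]
      have hq : 0 < ρ g / (N - w) := div_pos hg.2 hpos
      refine ⟨by rw [hk]; exact mul_pos hq h1, ?_⟩
      rw [hk, Real.log_mul hq.ne' h1.ne', Real.log_div hg.2.ne' hpos.ne', h2, hcn]
      simp only [List.map_cons, List.sum_cons, List.length_cons, csum, hsc]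
      push_cast
      ring

end KLOGAux

theorem stmt_KLOG (α : Type) [DecidableEq α] : Stmt_KLOG α := by
  intro ρ n X U0 M R hXU hdis h0 hR hn hm π hπ
  obtain ⟨h1, h2, h3⟩ := mem_seqs.1 hπ
  have hset : π.toFinset = R := toFinset_eq_of_mem_seqs hπ
  have hcnt : KLOGAux.cnt M π = (M ∩ R).card := by
    unfold KLOGAux.cnt
    rw [← List.toFinset_card_of_nodup (h1.filter _), List.toFinset_filter, hset]
    congr 1
    ext x
    simp only [mem_filter, mem_inter, decide_eq_true_eq]
    tauto
  have hW : (U0 \ U0) \ M = ∅ := by simp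
  have hsum : (π.map ρ).sum = ∑ g ∈ R, ρ g := by
    rw [← hset, List.sum_toFinset _ h1]
  have hlog : (π.map fun x => Real.log (ρ x)).sum = ∑ g ∈ R, Real.log (ρ g) := by
    rw [← hset, List.sum_toFinset _ h1]
  have hmain := KLOGAux.main ρ n X U0 M hn π U0 0 Subset.rfl h1
    (fun x hx => ⟨fun h => (Finset.disjoint_left.1 hdis) h (h3 x hx), hR x (h3 x hx)⟩)
    (by rw [hcnt, zero_add]; exact card_le_card inter_subset_left)
    (by rw [hW, sum_empty, hsum]; linarith)
  rw [hW] at hmain
  obtain ⟨e1, e2⟩ := hmain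
  refine ⟨e1, ?_⟩
  rw [e2, hlog, h2, hcnt]
  unfold gg
  simp

end R5
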