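import Pool.Agent.Work.MP_8b6acb_fq.Basic

/-! # Block KSUM: the kernel is a sub-probability (helper48) -/

set_option autoImplicit false

namespace R5

open Finset

namespace KSUMAux

variable {α : Type} [DecidableEq α]

/-- the linear functional of the unmarked part -/
noncomputable def L (ρ : α → ℝ) (H : Finset α) (N : ℝ) : ℕ → Finset α → (ℕ → ℝ) → ℝ
  | 0, _, β => β 0
  | r + 1, W, β => (∑ h ∈ H \ W, ρ h / (N - ∑ g ∈ W, ρ g) * L ρ H N r (insert h W) β) +
      1 / (N - ∑ g ∈ W, ρ g) * L ρ H N r W (fun k => β (k + 1))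

/-- the marked part -/
noncomputable def B (ρ : α → ℝ) (M : Finset α) (i k : ℕ) (Y : Finset α) : ℝ :=
  ∑ π ∈ seqs k (M \ Y), (π.map ρ).prod *
    ∏ j ∈ range k, ((M.card : ℝ) / ((M.card : ℝ) - ((i : ℝ) + j)))

theorem L_sum (ρ : α → ℝ) (H : Finset α) (N : ℝ) {σ : Type} (s : Finset σ) (c : σ → ℝ) :
    ∀ (r : ℕ) (W : Finset α) (β : σ → ℕ → ℝ),
    L ρ H N r W (fun k => ∑ g ∈ s, c g * β g k) = ∑ g ∈ s, c g * L ρ H N r W (β g) := by
  intro r
  induction r with
  | zero => intro W β; rfl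
  | succ r ih =>
    intro W β
    show (∑ h ∈ H \ W, ρ h / (N - ∑ g ∈ W, ρ g) *
        L ρ H N r (insert h W) (fun k => ∑ g ∈ s, c g * β g k)) +
      1 / (N - ∑ g ∈ W, ρ g) * L ρ H N r W (fun k => ∑ g ∈ s, c g * β g (k + 1)) =
      ∑ g ∈ s, c g * ((∑ h ∈ H \ W, ρ h / (N - ∑ g ∈ W, ρ g) * L ρ H N r (insert h W) (β g)) +
      1 / (N - ∑ g ∈ W, ρ g) * L ρ H N r W (fun k => β g (k + 1)))
    rw [ih W (fun g k => β g (k + 1))]
    simp only [ih, mul_add, sum_add_distrib, mul_sum]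
    rw [sum_comm]
    congr 1
    · refine sum_congr rfl fun g _ => sum_congr rfl fun h _ => by ring
    · refine sum_congr rfl fun g _ => by ring

theorem mass_nonneg {ρ : α → ℝ} {H W : Finset α} {N : ℝ} (h0 : ∀ g ∈ H, 0 ≤ ρ g)
    (hN : ∑ g ∈ H, ρ g ≤ N) (hW : W ⊆ H) : 0 ≤ N - ∑ g ∈ W, ρ g := by
  have : ∑ g ∈ W, ρ g ≤ ∑ g ∈ H, ρ g := sum_le_sum_of_subset_of_nonneg hW fun g hg _ => h0 g hg
  linarith

theorem L_mono {ρ : α → ℝ} {H : Finset α} {N : ℝ} (h0 : ∀ g ∈ H, 0 ≤ ρ g)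
    (hN : ∑ g ∈ H, ρ g ≤ N) : ∀ (r : ℕ) (W : Finset α) (β β' : ℕ → ℝ), W ⊆ H →
    (∀ k, β k ≤ β' k) → L ρ H N r W β ≤ L ρ H N r W β' := by
  intro r
  induction r with
  | zero => intro W β β' _ h; exact h 0
  | succ r ih =>
    intro W β β' hW h
    have hm := mass_nonneg h0 hN hW
    refine add_le_add (sum_le_sum fun g hg => ?_) ?_
    · rw [mem_sdiff] at hg
      exact mul_le_mul_of_nonneg_left (ih _ _ _ (insert_subset hg.1 hW) h)
        (div_nonneg (h0 g hg.1) hm)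
    · exact mul_le_mul_of_nonneg_left (ih _ _ _ hW fun k => h (k + 1))
        (div_nonneg zero_le_one hm)

theorem L_smul (ρ : α → ℝ) (H : Finset α) (N c : ℝ) (r : ℕ) (W : Finset α) (β : ℕ → ℝ) :
    L ρ H N r W (fun k => c * β k) = c * L ρ H N r W β := by
  have h := L_sum ρ H N ({()} : Finset Unit) (fun _ => c) r W (fun _ => β)
  simpa using h

theorem L_pow {ρ : α → ℝ} {H : Finset α} {N m : ℝ} (h0 : ∀ g ∈ H, 0 ≤ ρ g) (hm0 : 0 ≤ m)
    (hN : ∑ g ∈ H, ρ g + m ≤ N) : ∀ (r : ℕ) (W : Finset α), W ⊆ H →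
    L ρ H N r W (fun k => m ^ k) ≤ 1 := by
  intro r
  induction r with
  | zero => intro W _; show m ^ 0 ≤ 1; simp
  | succ r ih =>
    intro W hW
    have hm := mass_nonneg h0 (by linarith : ∑ g ∈ H, ρ g ≤ N) hW
    have h1 : L ρ H N r W (fun k => m ^ (k + 1)) = m * L ρ H N r W (fun k => m ^ k) := by
      rw [← L_smul]
      congr 1
      funext k
      rw [pow_succ]; ring
    show (∑ h ∈ H \ W, ρ h / (N - ∑ g ∈ W, ρ g) * L ρ H N r (insert h W) (fun k => m ^ k)) +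
      1 / (N - ∑ g ∈ W, ρ g) * L ρ H N r W (fun k => m ^ (k + 1)) ≤ 1
    rw [h1]
    have h2 : ∑ h ∈ H \ W, ρ h / (N - ∑ g ∈ W, ρ g) *
        L ρ H N r (insert h W) (fun k => m ^ k) ≤
        ∑ h ∈ H \ W, ρ h / (N - ∑ g ∈ W, ρ g) := by
      refine sum_le_sum fun g hg => ?_
      rw [mem_sdiff] at hg
      exact mul_le_of_le_one_right (div_nonneg (h0 g hg.1) hm) (ih _ (insert_subset hg.1 hW))
    have h3 : 1 / (N - ∑ g ∈ W, ρ g) * (m * L ρ H N r W (fun k => m ^ k)) ≤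
        m / (N - ∑ g ∈ W, ρ g) := by
      have : 1 / (N - ∑ g ∈ W, ρ g) * (m * L ρ H N r W (fun k => m ^ k)) =
          m / (N - ∑ g ∈ W, ρ g) * L ρ H N r W (fun k => m ^ k) := by ring
      rw [this]
      exact mul_le_of_le_one_right (div_nonneg hm0 hm) (ih _ hW)
    refine (add_le_add h2 h3).trans ?_
    rw [← sum_div, ← add_div]
    apply div_le_one_of_le₀ _ hm
    have h4 : ∑ h ∈ H \ W, ρ h + ∑ g ∈ W, ρ g = ∑ g ∈ H, ρ g := sum_sdiff hW
    linarith

theorem B_zero (ρ : α → ℝ) (M : Finset α) (i : ℕ) (Y : Finset α) : B ρ M i 0 Y = 1 := by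
  simp [B, seqs_zero]

theorem B_succ (ρ : α → ℝ) (M : Finset α) (i k : ℕ) (Y : Finset α) :
    B ρ M i (k + 1) Y = ∑ g ∈ M \ Y, (ρ g * ((M.card : ℝ) / ((M.card : ℝ) - i))) *
      B ρ M (i + 1) k (insert g Y) := by
  unfold B
  rw [sum_seqs_succ]
  refine sum_congr rfl fun g hg => ?_
  have he : (M \ Y).erase g = M \ insert g Y := by
    ext x; simp only [mem_erase, mem_sdiff, mem_insert]; tauto
  rw [he, mul_sum]
  refine sum_congr rfl fun π _ => ?_
  rw [prod_range_succ', List.map_cons, List.prod_cons]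
  have hp : ∏ j ∈ range k, ((M.card : ℝ) / ((M.card : ℝ) - ((i : ℝ) + ((j + 1 : ℕ) : ℝ)))) =
      ∏ j ∈ range k, ((M.card : ℝ) / ((M.card : ℝ) - (((i + 1 : ℕ) : ℝ) + j))) := by
    refine prod_congr rfl fun j _ => ?_
    congr 2
    push_cast
    ring
  rw [hp]
  push_cast
  rw [add_zero]
  ring

theorem main (ρ : α → ℝ) (M H : Finset α) (N : ℝ) (hd : Disjoint H M) :
    ∀ (r : ℕ) (W Y : Finset α) (i : ℕ), W ⊆ H → Y ⊆ M →
    ∑ π ∈ seqs r ((H \ W) ∪ (M \ Y)), kc ρ M N π W i = L ρ H N r W (fun k => B ρ M i k Y) := by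
  intro r
  induction r with
  | zero =>
    intro W Y i _ _
    rw [seqs_zero, sum_singleton]
    show 1 = B ρ M i 0 Y
    rw [B_zero]
  | succ r ih =>
    intro W Y i hW hY
    have hdis : Disjoint (H \ W) (M \ Y) := hd.mono sdiff_subset sdiff_subset
    rw [sum_seqs_succ, sum_union hdis]
    show _ = (∑ h ∈ H \ W, ρ h / (N - ∑ g ∈ W, ρ g) *
        L ρ H N r (insert h W) (fun k => B ρ M i k Y)) +
      1 / (N - ∑ g ∈ W, ρ g) * L ρ H N r W (fun k => B ρ M i (k + 1) Y)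
    congr 1
    · refine sum_congr rfl fun g hg => ?_
      rw [mem_sdiff] at hg
      have hgM : g ∉ M := fun h => Finset.disjoint_left.1 hd hg.1 h
      have he : ((H \ W) ∪ (M \ Y)).erase g = (H \ insert g W) ∪ (M \ Y) := by
        ext x
        simp only [mem_erase, mem_union, mem_sdiff, mem_insert]
        constructor
        · rintro ⟨h1, ⟨h2, h3⟩ | h2⟩
          · exact Or.inl ⟨h2, by tauto⟩
          · exact Or.inr h2
        · rintro (⟨h1, h2⟩ | h1)
          · exact ⟨by tauto, Or.inl ⟨h1, by tauto⟩⟩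
          · exact ⟨fun h => hgM (h ▸ h1.1), Or.inr h1⟩
      rw [he, ← ih (insert g W) Y i (insert_subset hg.1 hW) hY, mul_sum]
      refine sum_congr rfl fun π _ => ?_
      show (if g ∈ M then _ else _) = _
      rw [if_neg hgM]
    · have h1 : (fun k => B ρ M i (k + 1) Y) = fun k => ∑ g ∈ M \ Y,
          (ρ g * ((M.card : ℝ) / ((M.card : ℝ) - i))) * B ρ M (i + 1) k (insert g Y) := by
        funext k
        exact B_succ ρ M i k Y
      rw [h1, L_sum ρ H N (M \ Y) (fun g => ρ g * ((M.card : ℝ) / ((M.card : ℝ) - i))) r W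
        (fun g k => B ρ M (i + 1) k (insert g Y)), mul_sum]
      refine sum_congr rfl fun g hg => ?_
      rw [mem_sdiff] at hg
      have hgH : g ∉ H := fun h => Finset.disjoint_left.1 hd h hg.1
      have he : ((H \ W) ∪ (M \ Y)).erase g = (H \ W) ∪ (M \ insert g Y) := by
        ext x
        simp only [mem_erase, mem_union, mem_sdiff, mem_insert]
        constructor
        · rintro ⟨h1, h2 | ⟨h2, h3⟩⟩
          · exact Or.inl h2
          · exact Or.inr ⟨h2, by tauto⟩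
        · rintro (h1 | ⟨h1, h2⟩)
          · exact ⟨fun h => hgH (h ▸ h1.1), Or.inl h1⟩
          · exact ⟨by tauto, Or.inr ⟨h1, by tauto⟩⟩
      rw [he]
      have h2 := ih W (insert g Y) (i + 1) hW (insert_subset hg.1 hY)
      rw [← h2, mul_sum, mul_sum]
      refine sum_congr rfl fun π _ => ?_
      show (if g ∈ M then _ else _) = _
      rw [if_pos hg.1]
      ring

end KSUMAux

theorem stmt_KSUM (α : Type) [DecidableEq α] (hM : Stmt_MACL α) : Stmt_KSUM α := by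
  intro ρ M G N r hMG h0 hN
  set H : Finset α := G \ M with hH
  have hd : Disjoint H M := sdiff_disjoint
  have hG : (H \ ∅) ∪ (M \ ∅) = G := by
    rw [sdiff_empty, sdiff_empty, hH, sdiff_union_of_subset hMG]
  have h1 := KSUMAux.main ρ M H N hd r ∅ ∅ 0 (empty_subset _) (empty_subset _)
  rw [hG] at h1
  rw [h1]
  have hm0 : 0 ≤ ∑ g ∈ M, ρ g := sum_nonneg fun g hg => h0 g (hMG hg)
  have hH0 : ∀ g ∈ H, 0 ≤ ρ g := fun g hg => h0 g (sdiff_subset hg)
  have hsum : ∑ g ∈ H, ρ g + ∑ g ∈ M, ρ g = ∑ g ∈ G, ρ g := sum_sdiff hMG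
  refine le_trans (KSUMAux.L_mono hH0 (by linarith) r ∅ _ (fun k => (∑ g ∈ M, ρ g) ^ k)
    (empty_subset _) fun k => ?_) (KSUMAux.L_pow hH0 hm0 (by linarith) r ∅ (empty_subset _))
  unfold KSUMAux.B
  rw [sdiff_empty]
  by_cases hk : k ≤ M.card
  · rw [← sum_mul]
    have h2 := hM ρ M k (fun g hg => h0 g (hMG hg)) hk
    have hpos : ∀ j ∈ range k, (0 : ℝ) < (M.card : ℝ) - (((0 : ℕ) : ℝ) + j) := by
      intro j hj
      rw [mem_range] at hj
      have : (j : ℝ) < M.card := by exact_mod_cast lt_of_lt_of_le hj hk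
      simp only [Nat.cast_zero, zero_add]
      linarith
    have hprod : 0 ≤ ∏ j ∈ range k, ((M.card : ℝ) / ((M.card : ℝ) - (((0 : ℕ) : ℝ) + j))) :=
      prod_nonneg fun j hj => div_nonneg (Nat.cast_nonneg _) (hpos j hj).le
    refine (mul_le_mul_of_nonneg_right h2 hprod).trans (le_of_eq ?_)
    rw [mul_right_comm, ← prod_mul_distrib]
    have h3 : ∏ i ∈ range k, (((M.card : ℝ) - i) / (M.card : ℝ) *
        ((M.card : ℝ) / ((M.card : ℝ) - (((0 : ℕ) : ℝ) + i)))) = 1 := by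
      refine prod_eq_one fun j hj => ?_
      have hj1 := hpos j hj
      simp only [Nat.cast_zero, zero_add] at hj1 ⊢
      have hj2 : (M.card : ℝ) ≠ 0 := by
        rw [mem_range] at hj
        have : 0 < M.card := by omega
        exact_mod_cast this.ne'
      have hj3 := hj1.ne'
      field_simp
    rw [h3, one_mul]
  · have hempty : seqs k M = ∅ := by
      rw [Finset.eq_empty_iff_forall_notMem]
      intro l hl
      obtain ⟨e1, e2, e3⟩ := mem_seqs.1 hl
      apply hk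
      rw [← e2, ← List.toFinset_card_of_nodup e1]
      exact card_le_card fun x hx => e3 x (List.mem_toFinset.1 hx)
    rw [hempty, sum_empty]
    exact pow_nonneg hm0 k

end R5
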