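import Pool.Agent.Work.MP_8b6acb_fq.Basic

/-! Block LPARTQ: the colour L part of the network inequality. -/

namespace R5

open Finset MP_8b6acb_co

theorem LVc_split {α : Type} [DecidableEq α] (τ : Finset α → Lab) (D : Finset α)
    (ρ : Finset α → α → ℝ) (mk : Finset α → Finset α) (H : Finset α → ℝ) :
    LVc τ D ρ mk H =
    (∑ V ∈ D.powerset, ∑ x ∈ D \ V, if isE τ V x then
      ((∑ X ∈ D.powerset, (pe τ D X V x * KV ρ mk D X (insert x V) +
          pe1 τ D X V x * ec τ D (SS ρ mk D X (insert x V)) (insert x V))) +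
        yLe τ D V x * (Real.log (((V.card : ℝ) + 1) / ((D.card : ℝ) + 1)) + H V +
          Real.log (Zt τ D / y1e τ D V))) else 0) +
    ∑ V ∈ D.powerset, if τ V = Lab.X then
      ((∑ X ∈ D.powerset, (pv τ D X V * KV ρ mk D X V +
          pv1 τ D X V * ev τ D (SS ρ mk D X V) V)) +
        yLv τ D V * (Real.log (D.card : ℝ) + Real.log ((V.card : ℝ) / (D.card : ℝ)) + H V +
          Real.log (Zt τ D / y1v τ D V))) else 0 := by
  unfold LVc
  have h1 : (∑ X ∈ D.powerset, ((∑ V ∈ D.powerset, ∑ x ∈ D \ V,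
        (pe τ D X V x * KV ρ mk D X (insert x V) +
          pe1 τ D X V x * ec τ D (SS ρ mk D X (insert x V)) (insert x V))) +
      ∑ V ∈ D.powerset, (pv τ D X V * KV ρ mk D X V +
          pv1 τ D X V * ev τ D (SS ρ mk D X V) V))) =
      (∑ V ∈ D.powerset, ∑ x ∈ D \ V, ∑ X ∈ D.powerset,
        (pe τ D X V x * KV ρ mk D X (insert x V) +
          pe1 τ D X V x * ec τ D (SS ρ mk D X (insert x V)) (insert x V))) +
      ∑ V ∈ D.powerset, ∑ X ∈ D.powerset, (pv τ D X V * KV ρ mk D X V +
          pv1 τ D X V * ev τ D (SS ρ mk D X V) V) := by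
    rw [sum_add_distrib]
    congr 1
    · rw [sum_comm]
      refine sum_congr rfl fun V _ => ?_
      rw [sum_comm]
    · rw [sum_comm]
  have h2 : (∑ V ∈ D.powerset, ∑ x ∈ D \ V, if isE τ V x then
      ((∑ X ∈ D.powerset, (pe τ D X V x * KV ρ mk D X (insert x V) +
          pe1 τ D X V x * ec τ D (SS ρ mk D X (insert x V)) (insert x V))) +
        yLe τ D V x * (Real.log (((V.card : ℝ) + 1) / ((D.card : ℝ) + 1)) + H V +
          Real.log (Zt τ D / y1e τ D V))) else 0) =
      (∑ V ∈ D.powerset, ∑ x ∈ D \ V, ∑ X ∈ D.powerset,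
        (pe τ D X V x * KV ρ mk D X (insert x V) +
          pe1 τ D X V x * ec τ D (SS ρ mk D X (insert x V)) (insert x V))) +
      ∑ V ∈ D.powerset, ∑ x ∈ D \ V,
        yLe τ D V x * (Real.log (((V.card : ℝ) + 1) / ((D.card : ℝ) + 1)) + H V +
          Real.log (Zt τ D / y1e τ D V)) := by
    rw [← sum_add_distrib]
    refine sum_congr rfl fun V _ => ?_
    rw [← sum_add_distrib]
    refine sum_congr rfl fun x _ => ?_
    by_cases h : isE τ V x
    · rw [if_pos h]
    · rw [if_neg h]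
      have e1 : ∀ X, pe τ D X V x = 0 := by
        intro X; unfold pe; rw [if_neg]; exact fun hh => h hh.2
      have e1' : ∀ X, pe1 τ D X V x = 0 := by
        intro X; unfold pe1; rw [if_neg]; exact fun hh => h hh.2
      have e2 : yLe τ D V x = 0 := by unfold yLe; rw [if_neg h]
      rw [e2]
      simp only [e1, e1', zero_mul, sum_const_zero, add_zero]
  have h3 : (∑ V ∈ D.powerset, if τ V = Lab.X then
      ((∑ X ∈ D.powerset, (pv τ D X V * KV ρ mk D X V +
          pv1 τ D X V * ev τ D (SS ρ mk D X V) V)) +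
        yLv τ D V * (Real.log (D.card : ℝ) + Real.log ((V.card : ℝ) / (D.card : ℝ)) + H V +
          Real.log (Zt τ D / y1v τ D V))) else 0) =
      (∑ V ∈ D.powerset, ∑ X ∈ D.powerset, (pv τ D X V * KV ρ mk D X V +
          pv1 τ D X V * ev τ D (SS ρ mk D X V) V)) +
      ∑ V ∈ D.powerset,
        yLv τ D V * (Real.log (D.card : ℝ) + Real.log ((V.card : ℝ) / (D.card : ℝ)) + H V +
          Real.log (Zt τ D / y1v τ D V)) := by
    rw [← sum_add_distrib]
    refine sum_congr rfl fun V _ => ?_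
    by_cases h : τ V = Lab.X
    · rw [if_pos h]
    · rw [if_neg h]
      have e1 : ∀ X, pv τ D X V = 0 := by
        intro X; unfold pv; rw [if_neg]; exact fun hh => h hh.2
      have e1' : ∀ X, pv1 τ D X V = 0 := by
        intro X; unfold pv1; rw [if_neg]; exact fun hh => h hh.2
      have e2 : yLv τ D V = 0 := by unfold yLv; rw [if_neg h]
      rw [e2]
      simp only [e1, e1', zero_mul, sum_const_zero, add_zero]
  rw [h1, h2, h3]
  ring

theorem stmt_LPARTQ (α : Type) [Fintype α] [DecidableEq α] (hOE : Stmt_OBJEQ α)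
    (hOX : Stmt_OBJXQ α) (hNE : Stmt_NETE α) (hNX : Stmt_NETX α) : Stmt_LPARTQ α := by
  intro c i j S T a b mk hN hmk
  have hcard : ∀ s ∈ S, ∀ v : Finset α, s ⊆ v → ((v \ s).card : ℝ) = (v.card : ℝ) - i := by
    intro s hs v hsv
    rw [card_sdiff_cast hsv, hN.cS s hs]
  have hDcard : ∀ s ∈ S, ∀ t ∈ T, s ⊆ t → ((t \ s).card : ℝ) = (j : ℝ) - i := by
    intro s hs t ht hst
    rw [hcard s hs t hst, hN.cT t ht]
  -- the edge part
  have hE := hNE c i j S T a b hN (fun s t V x => a s * b t *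
    ((∑ X ∈ (t \ s).powerset, (pe (ty c s) (t \ s) X V x *
        KV (fun X g => MU c T a b s (s ∪ insert g X) / MU c T a b s (s ∪ X))
          (fun U => mk s (s ∪ U)) (t \ s) X (insert x V) +
        pe1 (ty c s) (t \ s) X V x * ec (ty c s) (t \ s)
          (SS (fun X g => MU c T a b s (s ∪ insert g X) / MU c T a b s (s ∪ X))
            (fun U => mk s (s ∪ U)) (t \ s) X (insert x V)) (insert x V))) +
      yLe (ty c s) (t \ s) V x * (Real.log (((V.card : ℝ) + 1) / (((t \ s).card : ℝ) + 1)) +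
        -Real.log (NU c S a b t (s ∪ V)) +
        Real.log (Zt (ty c s) (t \ s) / y1e (ty c s) (t \ s) V))))
  have hX := hNX c i j S T a b hN (fun s t V => a s * b t *
    ((∑ X ∈ (t \ s).powerset, (pv (ty c s) (t \ s) X V *
        KV (fun X g => MU c T a b s (s ∪ insert g X) / MU c T a b s (s ∪ X))
          (fun U => mk s (s ∪ U)) (t \ s) X V +
        pv1 (ty c s) (t \ s) X V * ev (ty c s) (t \ s)
          (SS (fun X g => MU c T a b s (s ∪ insert g X) / MU c T a b s (s ∪ X))
            (fun U => mk s (s ∪ U)) (t \ s) X V) V)) +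
      yLv (ty c s) (t \ s) V * (Real.log ((t \ s).card : ℝ) +
        Real.log ((V.card : ℝ) / ((t \ s).card : ℝ)) +
        -Real.log (NU c S a b t (s ∪ V)) +
        Real.log (Zt (ty c s) (t \ s) / y1v (ty c s) (t \ s) V))))
  have hL : ∑ s ∈ S, ∑ t ∈ T.filter (fun t => s ⊆ t), a s * b t *
      LVc (ty c s) (t \ s)
        (fun X g => MU c T a b s (s ∪ insert g X) / MU c T a b s (s ∪ X))
        (fun U => mk s (s ∪ U))
        (fun V => -Real.log (NU c S a b t (s ∪ V))) =
      (∑ e ∈ netE c i j S T, ∑ s ∈ S.filter (fun s => s ⊆ e.1),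
        ∑ t ∈ T.filter (fun t => insert e.2 e.1 ⊆ t), a s * b t *
        ((∑ X ∈ (t \ s).powerset, (pe (ty c s) (t \ s) X (e.1 \ s) e.2 *
          KV (fun X g => MU c T a b s (s ∪ insert g X) / MU c T a b s (s ∪ X))
            (fun U => mk s (s ∪ U)) (t \ s) X (insert e.2 (e.1 \ s)) +
          pe1 (ty c s) (t \ s) X (e.1 \ s) e.2 * ec (ty c s) (t \ s)
            (SS (fun X g => MU c T a b s (s ∪ insert g X) / MU c T a b s (s ∪ X))
              (fun U => mk s (s ∪ U)) (t \ s) X (insert e.2 (e.1 \ s)))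
            (insert e.2 (e.1 \ s)))) +
        yLe (ty c s) (t \ s) (e.1 \ s) e.2 *
          (Real.log ((((e.1 \ s).card : ℝ) + 1) / (((t \ s).card : ℝ) + 1)) +
          -Real.log (NU c S a b t (s ∪ (e.1 \ s))) +
          Real.log (Zt (ty c s) (t \ s) / y1e (ty c s) (t \ s) (e.1 \ s))))) +
      ∑ v ∈ netX c i j, ∑ s ∈ S.filter (fun s => s ⊆ v), ∑ t ∈ T.filter (fun t => v ⊆ t),
        a s * b t *
        ((∑ X ∈ (t \ s).powerset, (pv (ty c s) (t \ s) X (v \ s) *
          KV (fun X g => MU c T a b s (s ∪ insert g X) / MU c T a b s (s ∪ X))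
            (fun U => mk s (s ∪ U)) (t \ s) X (v \ s) +
          pv1 (ty c s) (t \ s) X (v \ s) * ev (ty c s) (t \ s)
            (SS (fun X g => MU c T a b s (s ∪ insert g X) / MU c T a b s (s ∪ X))
              (fun U => mk s (s ∪ U)) (t \ s) X (v \ s)) (v \ s))) +
        yLv (ty c s) (t \ s) (v \ s) * (Real.log ((t \ s).card : ℝ) +
          Real.log (((v \ s).card : ℝ) / ((t \ s).card : ℝ)) +
          -Real.log (NU c S a b t (s ∪ (v \ s))) +
          Real.log (Zt (ty c s) (t \ s) / y1v (ty c s) (t \ s) (v \ s)))) := by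
    rw [hE, hX, ← sum_add_distrib]
    refine sum_congr rfl fun s _ => ?_
    rw [← sum_add_distrib]
    refine sum_congr rfl fun t _ => ?_
    rw [LVc_split, mul_add, mul_sum, mul_sum]
    congr 1
    · refine sum_congr rfl fun V _ => ?_
      rw [mul_sum]
      refine sum_congr rfl fun x _ => ?_
      rw [mul_ite, mul_zero]
    · refine sum_congr rfl fun V _ => ?_
      rw [mul_ite, mul_zero]
  rw [hL]
  refine add_le_add (sum_le_sum fun e he => ?_) (sum_le_sum fun v hv => ?_)
  · have hobj := hOE c i j S T a b mk hN hmk e he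
    have hWE : WE c S T a b e.1 e.2 = ∑ s ∈ S.filter (fun s => s ⊆ e.1),
      ∑ t ∈ T.filter (fun t => insert e.2 e.1 ⊆ t),
      a s * b t * yLe (ty c s) (t \ s) (e.1 \ s) e.2 := rfl
    have hsplit : (∑ s ∈ S.filter (fun s => s ⊆ e.1),
        ∑ t ∈ T.filter (fun t => insert e.2 e.1 ⊆ t), a s * b t *
        ((∑ X ∈ (t \ s).powerset, (pe (ty c s) (t \ s) X (e.1 \ s) e.2 *
          KV (fun X g => MU c T a b s (s ∪ insert g X) / MU c T a b s (s ∪ X))
            (fun U => mk s (s ∪ U)) (t \ s) X (insert e.2 (e.1 \ s)) +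
          pe1 (ty c s) (t \ s) X (e.1 \ s) e.2 * ec (ty c s) (t \ s)
            (SS (fun X g => MU c T a b s (s ∪ insert g X) / MU c T a b s (s ∪ X))
              (fun U => mk s (s ∪ U)) (t \ s) X (insert e.2 (e.1 \ s)))
            (insert e.2 (e.1 \ s)))) +
        yLe (ty c s) (t \ s) (e.1 \ s) e.2 *
          (Real.log ((((e.1 \ s).card : ℝ) + 1) / (((t \ s).card : ℝ) + 1)) +
          -Real.log (NU c S a b t (s ∪ (e.1 \ s))) +
          Real.log (Zt (ty c s) (t \ s) / y1e (ty c s) (t \ s) (e.1 \ s))))) =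
      (∑ s ∈ S.filter (fun s => s ⊆ e.1), ∑ t ∈ T.filter (fun t => insert e.2 e.1 ⊆ t),
        a s * b t *
        ((∑ X ∈ (t \ s).powerset, (pe (ty c s) (t \ s) X (e.1 \ s) e.2 *
            KV (fun X g => MU c T a b s (s ∪ insert g X) / MU c T a b s (s ∪ X))
              (fun U => mk s (s ∪ U)) (t \ s) X (insert e.2 (e.1 \ s)) +
            pe1 (ty c s) (t \ s) X (e.1 \ s) e.2 * ec (ty c s) (t \ s)
              (SS (fun X g => MU c T a b s (s ∪ insert g X) / MU c T a b s (s ∪ X))
                (fun U => mk s (s ∪ U)) (t \ s) X (insert e.2 (e.1 \ s)))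
              (insert e.2 (e.1 \ s)))) +
          yLe (ty c s) (t \ s) (e.1 \ s) e.2 * (-Real.log (NU c S a b t (s ∪ (e.1 \ s))) +
            Real.log (Zt (ty c s) (t \ s) / y1e (ty c s) (t \ s) (e.1 \ s))))) +
      WE c S T a b e.1 e.2 *
        Real.log (((e.1.card : ℝ) - i + 1) / ((j : ℝ) - i + 1)) := by
      rw [hWE, sum_mul, ← sum_add_distrib]
      refine sum_congr rfl fun s hs => ?_
      rw [sum_mul, ← sum_add_distrib]
      refine sum_congr rfl fun t ht => ?_
      rw [mem_filter] at hs ht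
      rw [hcard s hs.1 e.1 hs.2, hDcard s hs.1 t ht.1
        (hs.2.trans ((subset_insert _ _).trans ht.2))]
      ring
    rw [hsplit]
    linarith
  · have hobj := hOX c i j S T a b mk hN hmk v hv
    have hWX : WX c S T a b v = ∑ s ∈ S.filter (fun s => s ⊆ v),
      ∑ t ∈ T.filter (fun t => v ⊆ t),
      a s * b t * yLv (ty c s) (t \ s) (v \ s) := rfl
    have hsplit : (∑ s ∈ S.filter (fun s => s ⊆ v), ∑ t ∈ T.filter (fun t => v ⊆ t),
        a s * b t *
        ((∑ X ∈ (t \ s).powerset, (pv (ty c s) (t \ s) X (v \ s) *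
          KV (fun X g => MU c T a b s (s ∪ insert g X) / MU c T a b s (s ∪ X))
            (fun U => mk s (s ∪ U)) (t \ s) X (v \ s) +
          pv1 (ty c s) (t \ s) X (v \ s) * ev (ty c s) (t \ s)
            (SS (fun X g => MU c T a b s (s ∪ insert g X) / MU c T a b s (s ∪ X))
              (fun U => mk s (s ∪ U)) (t \ s) X (v \ s)) (v \ s))) +
        yLv (ty c s) (t \ s) (v \ s) * (Real.log ((t \ s).card : ℝ) +
          Real.log (((v \ s).card : ℝ) / ((t \ s).card : ℝ)) +
          -Real.log (NU c S a b t (s ∪ (v \ s))) +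
          Real.log (Zt (ty c s) (t \ s) / y1v (ty c s) (t \ s) (v \ s))))) =
      (∑ s ∈ S.filter (fun s => s ⊆ v), ∑ t ∈ T.filter (fun t => v ⊆ t), a s * b t *
        ((∑ X ∈ (t \ s).powerset, (pv (ty c s) (t \ s) X (v \ s) *
            KV (fun X g => MU c T a b s (s ∪ insert g X) / MU c T a b s (s ∪ X))
              (fun U => mk s (s ∪ U)) (t \ s) X (v \ s) +
            pv1 (ty c s) (t \ s) X (v \ s) * ev (ty c s) (t \ s)
              (SS (fun X g => MU c T a b s (s ∪ insert g X) / MU c T a b s (s ∪ X))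
                (fun U => mk s (s ∪ U)) (t \ s) X (v \ s)) (v \ s))) +
          yLv (ty c s) (t \ s) (v \ s) * (-Real.log (NU c S a b t (s ∪ (v \ s))) +
            Real.log (Zt (ty c s) (t \ s) / y1v (ty c s) (t \ s) (v \ s))))) +
      WX c S T a b v *
        (Real.log ((j : ℝ) - i) + Real.log (((v.card : ℝ) - i) / ((j : ℝ) - i))) := by
      rw [hWX, sum_mul, ← sum_add_distrib]
      refine sum_congr rfl fun s hs => ?_
      rw [sum_mul, ← sum_add_distrib]
      refine sum_congr rfl fun t ht => ?_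
      rw [mem_filter] at hs ht
      rw [hcard s hs.1 v hs.2, hDcard s hs.1 t ht.1 (hs.2.trans ht.2)]
      ring
    rw [hsplit]
    linarith

end R5
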