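import Pool.Agent.Work.MP_8b6acb_fq.Basic

/-! # Block MACL: Maclaurin's inequality in ordered form (helper61) -/

namespace R5

open Finset

theorem macl_g (k : ℕ) {u : ℝ} (hu : 0 ≤ u) : 0 ≤ 1 - ((k : ℝ) + 1) * u ^ k + k * u ^ (k + 1) := by
  induction k with
  | zero => simp
  | succ k ih =>
    have h : 1 - (((k + 1 : ℕ) : ℝ) + 1) * u ^ (k + 1) + ((k + 1 : ℕ) : ℝ) * u ^ (k + 1 + 1) =
      (1 - ((k : ℝ) + 1) * u ^ k + k * u ^ (k + 1)) + ((k : ℝ) + 1) * u ^ k * (1 - u) ^ 2 := by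
      push_cast
      ring
    rw [h]
    positivity

theorem macl_b (k : ℕ) {u : ℝ} (hu : 0 ≤ u) : 0 ≤ u ^ (k + 1) - 1 - ((k : ℝ) + 1) * (u - 1) := by
  have h := one_add_mul_le_pow (show (-2 : ℝ) ≤ u - 1 by linarith) (k + 1)
  push_cast at h
  have e : 1 + (u - 1) = u := by ring
  rw [e] at h
  linarith

/-- tangent line -/
theorem macl_t (k : ℕ) {u x0 : ℝ} (hu : 0 ≤ u) (h1 : ((k : ℝ) + 1) * x0 ≤ 1) :
    u ^ k * (1 - u * (1 - x0)) ≤ x0 + (1 - u) * (1 - ((k : ℝ) + 1) * x0) := by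
  have h2 := macl_g k hu
  have h3 := macl_b k hu
  have h4 : ((k : ℝ) + 1) * x0 * (u ^ (k + 1) - 1 - ((k : ℝ) + 1) * (u - 1)) ≤
    1 * (u ^ (k + 1) - 1 - ((k : ℝ) + 1) * (u - 1)) := mul_le_mul_of_nonneg_right h1 h3
  have h5 : (0 : ℝ) < (k : ℝ) + 1 := by positivity
  have h6 : ((k : ℝ) + 1) * (u ^ k * (1 - u * (1 - x0))) ≤
      ((k : ℝ) + 1) * (x0 + (1 - u) * (1 - ((k : ℝ) + 1) * x0)) := by
    have e : ((k : ℝ) + 1) * (x0 + (1 - u) * (1 - ((k : ℝ) + 1) * x0)) -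
      ((k : ℝ) + 1) * (u ^ k * (1 - u * (1 - x0))) =
      (1 * (u ^ (k + 1) - 1 - ((k : ℝ) + 1) * (u - 1)) -
        ((k : ℝ) + 1) * x0 * (u ^ (k + 1) - 1 - ((k : ℝ) + 1) * (u - 1))) +
      (1 - ((k : ℝ) + 1) * u ^ k + k * u ^ (k + 1)) := by
      ring
    linarith
  exact le_of_mul_le_mul_left h6 h5

/-- the sum over `m ≥ k + 1` numbers -/
theorem macl_s {α : Type} (M : Finset α) (ρ : α → ℝ) (k : ℕ) (hρ : ∀ g ∈ M, 0 ≤ ρ g)
    (hk : k + 1 ≤ M.card) (S : ℝ) (hS : S = ∑ g ∈ M, ρ g) :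
    ∑ g ∈ M, ρ g * (S - ρ g) ^ k ≤ (((M.card : ℝ) - 1) / (M.card : ℝ)) ^ k * S ^ (k + 1) := by
  rcases Nat.eq_zero_or_pos k with rfl | hk0
  · simp [hS]
  have hm : (2 : ℝ) ≤ (M.card : ℝ) := by
    have : 2 ≤ M.card := by omega
    exact_mod_cast this
  have hS0 : 0 ≤ S := hS ▸ sum_nonneg hρ
  rcases hS0.eq_or_lt with h0 | hpos
  · have hz : ∀ g ∈ M, ρ g = 0 := by
      have := (sum_eq_zero_iff_of_nonneg hρ).1 (hS ▸ h0.symm)
      exact this
    rw [sum_eq_zero (fun g hg => by rw [hz g hg, zero_mul]), ← h0, zero_pow (Nat.succ_ne_zero k),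
      mul_zero]
  set m : ℝ := (M.card : ℝ) with hmdef
  have hm0 : 0 < m := by linarith
  have hm1 : 0 < m - 1 := by linarith
  have hle : ∀ g ∈ M, ρ g ≤ S := fun g hg => hS ▸ single_le_sum hρ hg
  have hx0 : ((k : ℝ) + 1) * (1 / m) ≤ 1 := by
    rw [mul_one_div, div_le_one hm0, hmdef]
    exact_mod_cast hk
  have key : ∀ g ∈ M, ρ g * (S - ρ g) ^ k ≤ (((m - 1) / m) ^ k * S ^ (k + 1)) *
      (1 / m + (1 - (S - ρ g) * m / (S * (m - 1))) * (1 - ((k : ℝ) + 1) * (1 / m))) := by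
    intro g hg
    have hu : 0 ≤ (S - ρ g) * m / (S * (m - 1)) :=
      div_nonneg (mul_nonneg (by linarith [hle g hg]) hm0.le) (mul_pos hpos hm1).le
    have h := macl_t k hu hx0
    have h2 := mul_le_mul_of_nonneg_left h
      (show 0 ≤ ((m - 1) / m) ^ k * S ^ (k + 1) by positivity)
    refine le_trans (le_of_eq ?_) h2
    have e1 : (m - 1) / m * S * ((S - ρ g) * m / (S * (m - 1))) = S - ρ g := by
      field_simp
    have e2 : S * (1 - (S - ρ g) * m / (S * (m - 1)) * (1 - 1 / m)) = ρ g := by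
      have : (1 - 1 / m) = (m - 1) / m := by field_simp
      rw [this]
      field_simp
      ring
    calc ρ g * (S - ρ g) ^ k
        = (S * (1 - (S - ρ g) * m / (S * (m - 1)) * (1 - 1 / m))) *
          ((m - 1) / m * S * ((S - ρ g) * m / (S * (m - 1)))) ^ k := by rw [e1, e2]
      _ = _ := by
        rw [mul_pow, mul_pow]
        ring
  refine (sum_le_sum key).trans ?_
  rw [← mul_sum, sum_add_distrib, ← sum_mul, sum_sub_distrib]
  have e3 : ∑ g ∈ M, (S - ρ g) * m / (S * (m - 1)) = m := by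
    rw [← sum_div, ← sum_mul, sum_sub_distrib, ← hS, sum_const, nsmul_eq_mul, ← hmdef]
    field_simp
  rw [e3, sum_const, sum_const, nsmul_eq_mul, nsmul_eq_mul, ← hmdef, mul_one, sub_self, zero_mul,
    add_zero, mul_one_div_cancel hm0.ne', mul_one]

theorem macl_p (m : ℝ) (k : ℕ) (hm : 0 < m) (h : k = 0 ∨ m - 1 ≠ 0) :
    (∏ i ∈ range k, ((m - 1 - i) / (m - 1))) * ((m - 1) / m) ^ k =
      ∏ i ∈ range (k + 1), ((m - i) / m) := by
  rw [prod_range_succ', Nat.cast_zero, sub_zero, div_self hm.ne', mul_one]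
  have e : ((m - 1) / m) ^ k = ∏ _i ∈ range k, ((m - 1) / m) := by
    rw [prod_const, card_range]
  rw [e, ← prod_mul_distrib]
  refine prod_congr rfl fun i hi => ?_
  have h1 : m - 1 ≠ 0 := by
    rcases h with rfl | h
    · simp at hi
    · exact h
  push_cast
  field_simp
  ring

variable {α : Type} [DecidableEq α]

theorem stmt_MACL : Stmt_MACL α := by
  intro ρ M k
  induction k generalizing M with
  | zero => intro _ _; simp [seqs_zero]
  | succ k ih =>
    intro hρ hk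
    have hm : (1 : ℝ) ≤ (M.card : ℝ) := by
      have : 1 ≤ M.card := by omega
      exact_mod_cast this
    rw [sum_seqs_succ]
    have h1 : ∀ g ∈ M, ∑ π ∈ seqs k (M.erase g), ((g :: π).map ρ).prod ≤
        (∏ i ∈ range k, (((M.card : ℝ) - 1 - i) / ((M.card : ℝ) - 1))) *
          (ρ g * ((∑ g ∈ M, ρ g) - ρ g) ^ k) := by
      intro g hg
      have h2 := ih (M.erase g) (fun x hx => hρ x (mem_of_mem_erase hx))
        (by rw [card_erase_of_mem hg]; omega)
      have hc : (((M.erase g).card : ℕ) : ℝ) = (M.card : ℝ) - 1 := by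
        rw [card_erase_of_mem hg, Nat.cast_sub (by omega), Nat.cast_one]
      have hs : ∑ x ∈ M.erase g, ρ x = (∑ x ∈ M, ρ x) - ρ g := by
        rw [← add_sum_erase M ρ hg]
        ring
      rw [hc, hs] at h2
      have h3 : ∑ π ∈ seqs k (M.erase g), ((g :: π).map ρ).prod =
          ρ g * ∑ π ∈ seqs k (M.erase g), (π.map ρ).prod := by
        rw [mul_sum]
        refine sum_congr rfl fun π _ => ?_
        rw [List.map_cons, List.prod_cons]
      rw [h3]
      refine (mul_le_mul_of_nonneg_left h2 (hρ g hg)).trans (le_of_eq ?_)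
      ring
    refine (sum_le_sum h1).trans ?_
    rw [← mul_sum]
    have h4 := macl_s M ρ k hρ hk _ rfl
    have h5 : 0 ≤ ∏ i ∈ range k, (((M.card : ℝ) - 1 - i) / ((M.card : ℝ) - 1)) := by
      refine prod_nonneg fun i hi => div_nonneg ?_ (by linarith)
      have : i + 1 ≤ M.card := by
        have := mem_range.1 hi
        omega
      have h6 : ((i : ℝ) + 1) ≤ (M.card : ℝ) := by exact_mod_cast this
      linarith
    refine (mul_le_mul_of_nonneg_left h4 h5).trans (le_of_eq ?_)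
    rw [← mul_assoc, macl_p _ k (by linarith) ?_]
    rcases Nat.eq_zero_or_pos k with h0 | h0
    · exact Or.inl h0
    · right
      have : 2 ≤ M.card := by omega
      have h6 : (2 : ℝ) ≤ (M.card : ℝ) := by exact_mod_cast this
      linarith

end R5
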