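import Pool.Agent.Work.MP_8b6acb_fq.OBJQ
import Pool.Agent.Work.MP_8b6acb_cap.OBJE

/-! Block OBJEQ: the entropy inequality of one cut edge (helper76). -/

namespace R5

open Finset MP_8b6acb_co

/-- `pe` is `pe1` times the suffix factor. -/
theorem pe_eq_pe1 {α : Type} [DecidableEq α] (τ : Finset α → Lab) (D X V : Finset α) (x : α) :
    pe τ D X V x = pe1 τ D X V x * bw τ D (insert x V) := by
  unfold pe pe1
  split_ifs
  · ring
  · rw [zero_mul]

theorem yLe_eq_y1e {α : Type} [DecidableEq α] {τ : Finset α → Lab} (D : Finset α) {V : Finset α}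
    {x : α} (hE : isE τ V x) : yLe τ D V x = y1e τ D V * bw τ D (insert x V) := by
  unfold yLe y1e
  rw [if_pos hE]
  ring

/-- Summing `pe1` over the star. -/
theorem y1e_sum {α : Type} [DecidableEq α] (τ : Finset α → Lab) (D V : Finset α) (_hV : V ⊆ D) :
    ∑ X ∈ V.powerset, fw τ X / (((D.card : ℝ) + 1) * (D.card.choose X.card : ℝ) *
      ((D.card - X.card).choose (V.card - X.card) : ℝ) * ((D.card : ℝ) - (V.card : ℝ))) =
    y1e τ D V := by
  unfold y1e aw
  rw [sum_div]
  refine sum_congr rfl fun X hX => ?_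
  rw [mem_powerset] at hX
  have h1 := choose_mul_real (l := D.card) (k := V.card) (i := X.card) (card_le_card hX)
  have h2 : ((D.card : ℝ) + 1) * (D.card.choose X.card : ℝ) *
      ((D.card - X.card).choose (V.card - X.card) : ℝ) * ((D.card : ℝ) - (V.card : ℝ)) =
      (V.card.choose X.card : ℝ) * (((D.card : ℝ) + 1) * (D.card.choose V.card : ℝ) *
        ((D.card : ℝ) - (V.card : ℝ))) := by
    calc _ = ((D.card : ℝ) + 1) * ((D.card.choose X.card : ℝ) *
      ((D.card - X.card).choose (V.card - X.card) : ℝ)) * ((D.card : ℝ) - (V.card : ℝ)) := by ring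
      _ = _ := by rw [h1]; ring
  rw [h2, div_div]

theorem stmt_OBJEQ {α : Type} [Fintype α] [DecidableEq α] (hO : Stmt_ONE) (hR : Stmt_ORD α)
    (hKS : Stmt_KSUM α) (hKL : Stmt_KLOG α) : Stmt_OBJEQ α := by
  intro c i j S T a b mk h hmk e he
  obtain ⟨-, hxs, eI, eU⟩ := pe_split h e he
  obtain ⟨v, x⟩ := e
  unfold netE at he
  rw [mem_filter] at he
  obtain ⟨-, hxv, hv, hcv, hvx, hcx⟩ := he
  simp only at hxv hv hcv hvx hcx hxs eI eU ⊢
  have hvj : v.card < j := by
    have h1 : v.card + 1 ≤ j := by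
      rw [← card_insert_of_notMem hxv]
      rcases hvx with h1 | h1
      · unfold Mid at h1
        rw [mem_filter] at h1
        omega
      · exact (h.cT _ h1).le
    omega
  have hisE : ∀ s : Finset α, s ⊆ v → isE (ty c s) (v \ s) x := by
    intro s hs
    unfold isE ty
    rw [eU s hs, union_insert, eU s hs]
    exact ⟨hcv, hcx⟩
  have hden : (0 : ℝ) < (j : ℝ) - i - ((v.card : ℝ) - i) := by
    have : (v.card : ℝ) < j := by exact_mod_cast hvj
    linarith
  have hl : (0 : ℝ) < (j : ℝ) - i + 1 := by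
    have : (i : ℝ) < j := by exact_mod_cast h.hij
    linarith
  obtain ⟨F0, hF0⟩ : ∃ F0 : Finset α → Finset α → ℝ, F0 = fun s X =>
      fw (ty c s) X / (((j : ℝ) - i + 1) * ((j - i).choose X.card : ℝ) *
      ((j - i - X.card).choose (v.card - i - X.card) : ℝ) *
        ((j : ℝ) - i - ((v.card : ℝ) - i))) := ⟨_, rfl⟩
  -- the cards
  have hc1 : ∀ s ∈ S, s ⊆ v → ∀ t ∈ T, insert x v ⊆ t → (t \ s).card = j - i := by
    intro s hs hsv t ht htv
    rw [card_sdiff_of_subset ((hsv.trans (subset_insert _ _)).trans htv), h.cS s hs, h.cT t ht]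
  have hc2 : ∀ s ∈ S, s ⊆ v → ∀ t ∈ T, insert x v ⊆ t → ((t \ s).card : ℝ) = (j : ℝ) - i := by
    intro s hs hsv t ht htv
    rw [card_sdiff_cast ((hsv.trans (subset_insert _ _)).trans htv), h.cS s hs, h.cT t ht]
  have hc3 : ∀ s ∈ S, s ⊆ v → (v \ s).card = v.card - i := by
    intro s hs hsv
    rw [card_sdiff_of_subset hsv, h.cS s hs]
  have hc4 : ∀ s ∈ S, s ⊆ v → ((v \ s).card : ℝ) = (v.card : ℝ) - i := by
    intro s hs hsv
    rw [card_sdiff_cast hsv, h.cS s hs]
  have hpe1 : ∀ s ∈ S, s ⊆ v → ∀ t ∈ T, insert x v ⊆ t → ∀ X,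
      pe1 (ty c s) (t \ s) X (v \ s) x = if X ⊆ v \ s then F0 s X else 0 := by
    intro s hs hsv t ht htv X
    unfold pe1
    rw [hc2 s hs hsv t ht htv, hc4 s hs hsv, hc1 s hs hsv t ht htv, hc3 s hs hsv, hF0]
    by_cases hX : X ⊆ v \ s
    · rw [if_pos ⟨hX, hisE s hsv⟩, if_pos hX]
    · rw [if_neg (fun g => hX g.1), if_neg hX]
  have hy1e : ∀ s ∈ S, s ⊆ v → ∀ t ∈ T, insert x v ⊆ t →
      y1e (ty c s) (t \ s) (v \ s) = ∑ X ∈ (v \ s).powerset, F0 s X := by
    intro s hs hsv t ht htv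
    rw [← y1e_sum (ty c s) (t \ s) (v \ s)
      (sdiff_subset_sdiff ((subset_insert _ _).trans htv) (Subset.refl _)),
      hc2 s hs hsv t ht htv, hc4 s hs hsv, hc1 s hs hsv t ht htv, hc3 s hs hsv, hF0]
  -- degenerate case
  by_cases hne : (T.filter (fun t => insert x v ⊆ t)).Nonempty
  swap
  · rw [not_nonempty_iff_eq_empty] at hne
    unfold WE
    rw [hne]
    simp
  obtain ⟨t0, ht0⟩ := hne
  rw [mem_filter] at ht0
  have hfpos : ∀ s ∈ S, s ⊆ v → 0 < ∑ X ∈ (v \ s).powerset, F0 s X := by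
    intro s hs hsv
    rw [← hy1e s hs hsv t0 ht0.1 ht0.2]
    unfold y1e
    rw [hc2 s hs hsv t0 ht0.1 ht0.2, hc4 s hs hsv]
    have h0 : ty c s ∅ = Lab.A := by rw [ty_empty]; exact h.lS s hs
    have h1 := one_le_aw h0 (v \ s)
    have h2 : v \ s ⊆ t0 \ s :=
      sdiff_subset_sdiff ((subset_insert _ _).trans ht0.2) (Subset.refl _)
    have h3 := choose_pos_real (card_le_card h2)
    exact div_pos (by linarith) (mul_pos (mul_pos hl h3) hden)
  have eS : ∀ s ∈ S, s ⊆ v → ∀ t ∈ T, insert x v ⊆ t →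
      (t \ s) \ (insert x v \ s) = t \ insert x v := by
    intro s _ hsv t _ _
    ext z
    simp only [mem_sdiff, not_and, not_not]
    constructor
    · rintro ⟨⟨h1, h2⟩, h3⟩
      exact ⟨h1, fun h4 => h2 (h3 h4)⟩
    · rintro ⟨h1, h2⟩
      exact ⟨⟨h1, fun h3 => h2 (mem_insert_of_mem (hsv h3))⟩, fun h3 => absurd h3 h2⟩
  have hord : ∀ s ∈ S, s ⊆ v → ∀ t ∈ T, insert x v ⊆ t →
      (∑ π ∈ seqs (t \ insert x v).card (t \ insert x v), gd c (insert x v) π =
        ((t \ insert x v).card.factorial : ℝ) * bw (ty c s) (t \ s) (insert x v \ s)) ∧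
      ∀ cc : Finset α → ℝ, ∑ π ∈ seqs (t \ insert x v).card (t \ insert x v),
        gd c (insert x v) π * csum cc (insert x v \ s) π =
        ((t \ insert x v).card.factorial : ℝ) * ec (ty c s) (t \ s) cc (insert x v \ s) := by
    intro s hs hsv t ht htv
    have hst : s ⊆ t := (hsv.trans (subset_insert _ _)).trans htv
    have h1 := hR (ty c s) (t \ s) (insert x v \ s) (sdiff_subset_sdiff htv (Subset.refl _)) (by
      unfold ty
      rw [union_sdiff_of_subset hst]
      exact h.lT t ht)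
    rw [eS s hs hsv t ht htv] at h1
    have h2 : s ∪ (insert x v \ s) = insert x v :=
      union_sdiff_of_subset (hsv.trans (subset_insert _ _))
    simp only [gd_ty, h2] at h1
    exact h1
  have hgen := objq_gen hO hKS hKL h mk hmk v (insert x v) (subset_insert _ _) hvj F0
    (fun s _ _ X => by
      rw [hF0]
      exact div_nonneg (fw_nonneg _ _) (by positivity)) hfpos (gd c (insert x v))
    (fun π => gd_01 c π _) (fun s t => bw (ty c s) (t \ s) (insert x v \ s))
    (fun s t cc => ec (ty c s) (t \ s) cc (insert x v \ s))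
    (fun s hs hsv t ht htv => (hord s hs hsv t ht htv).1)
    (fun s hs hsv t ht htv => (hord s hs hsv t ht htv).2)
  have hWE : WE c S T a b v x = ∑ s ∈ S.filter (fun s => s ⊆ v),
      ∑ t ∈ T.filter (fun t => insert x v ⊆ t), a s * b t *
        ((∑ X ∈ (v \ s).powerset, F0 s X) * bw (ty c s) (t \ s) (insert x v \ s)) := by
    unfold WE
    refine sum_congr rfl fun s hs => sum_congr rfl fun t ht => ?_
    rw [mem_filter] at hs ht
    rw [yLe_eq_y1e _ (hisE s hs.2), hy1e s hs.1 hs.2 t ht.1 ht.2, eI s hs.2]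
  rw [hWE]
  refine le_trans (le_of_eq ?_) hgen
  refine sum_congr rfl fun s hs => sum_congr rfl fun t ht => ?_
  rw [mem_filter] at hs ht
  congr 1
  congr 1
  · have hsub : (v \ s).powerset ⊆ (t \ s).powerset :=
      powerset_mono.2 (sdiff_subset_sdiff ((subset_insert _ _).trans ht.2) (Subset.refl _))
    rw [← sum_subset hsub]
    · refine sum_congr rfl fun X hX => ?_
      rw [pe_eq_pe1, hpe1 s hs.1 hs.2 t ht.1 ht.2 X, if_pos (mem_powerset.1 hX), eI s hs.2]
      rfl
    · intro X _ hX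
      rw [pe_eq_pe1, hpe1 s hs.1 hs.2 t ht.1 ht.2 X, if_neg (fun h1 => hX (mem_powerset.2 h1)),
        zero_mul, zero_mul, zero_mul, add_zero]
  · rw [yLe_eq_y1e _ (hisE s hs.2), hy1e s hs.1 hs.2 t ht.1 ht.2, eI s hs.2, eU s hs.2]

end R5
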