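import Pool.Agent.Work.MP_8b6acb_fq.OBJQ

/-! Block OBJXQ: the entropy inequality of one cut vertex (helper76). -/

namespace R5

open Finset MP_8b6acb_co

/-- `pv` is `pv1` times the suffix factor. -/
theorem pv_eq_pv1 {α : Type} [DecidableEq α] (τ : Finset α → Lab) (D X V : Finset α) :
    pv τ D X V = pv1 τ D X V * bwb τ D V := by
  unfold pv pv1
  split_ifs
  · ring
  · rw [zero_mul]

theorem yLv_eq_y1v {α : Type} [DecidableEq α] {τ : Finset α → Lab} (D : Finset α) {V : Finset α}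
    (hX : τ V = Lab.X) : yLv τ D V = y1v τ D V * bwb τ D V := by
  unfold yLv y1v
  rw [if_pos hX]
  ring

/-- Summing `pv1` over the star. -/
theorem y1v_sum {α : Type} [DecidableEq α] (τ : Finset α → Lab) (D V : Finset α) :
    ∑ X ∈ V.powerset, fw τ X / (((D.card : ℝ) + 1) * (D.card.choose X.card : ℝ) *
      ((D.card - X.card).choose (V.card - X.card) : ℝ)) = y1v τ D V := by
  unfold y1v aw
  rw [sum_div]
  refine sum_congr rfl fun X hX => ?_
  rw [mem_powerset] at hX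
  have h1 := choose_mul_real (l := D.card) (k := V.card) (i := X.card) (card_le_card hX)
  have h2 : ((D.card : ℝ) + 1) * (D.card.choose X.card : ℝ) *
      ((D.card - X.card).choose (V.card - X.card) : ℝ) =
      (V.card.choose X.card : ℝ) * (((D.card : ℝ) + 1) * (D.card.choose V.card : ℝ)) := by
    calc _ = ((D.card : ℝ) + 1) * ((D.card.choose X.card : ℝ) *
      ((D.card - X.card).choose (V.card - X.card) : ℝ)) := by ring
      _ = _ := by rw [h1]; ring
  rw [h2, div_div]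

theorem stmt_OBJXQ {α : Type} [Fintype α] [DecidableEq α] (hO : Stmt_ONE) (hR : Stmt_ORDV α)
    (hKS : Stmt_KSUM α) (hKL : Stmt_KLOG α) : Stmt_OBJXQ α := by
  intro c i j S T a b mk h hmk v hv
  unfold netX at hv
  rw [mem_filter] at hv
  obtain ⟨hv, hcv⟩ := hv
  unfold Mid at hv
  rw [mem_filter] at hv
  have hvj : v.card < j := by omega
  have eU : ∀ s : Finset α, s ⊆ v → s ∪ (v \ s) = v := fun s hs => union_sdiff_of_subset hs
  have htX : ∀ s : Finset α, s ⊆ v → ty c s (v \ s) = Lab.X := by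
    intro s hs
    unfold ty
    rw [eU s hs]
    exact hcv
  have hl : (0 : ℝ) < (j : ℝ) - i + 1 := by
    have : (i : ℝ) < j := by exact_mod_cast h.hij
    linarith
  obtain ⟨F0, hF0⟩ : ∃ F0 : Finset α → Finset α → ℝ, F0 = fun s X =>
      fw (ty c s) X / (((j : ℝ) - i + 1) * ((j - i).choose X.card : ℝ) *
      ((j - i - X.card).choose (v.card - i - X.card) : ℝ)) := ⟨_, rfl⟩
  -- the cards
  have hc1 : ∀ s ∈ S, s ⊆ v → ∀ t ∈ T, v ⊆ t → (t \ s).card = j - i := by
    intro s hs hsv t ht htv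
    rw [card_sdiff_of_subset (hsv.trans htv), h.cS s hs, h.cT t ht]
  have hc2 : ∀ s ∈ S, s ⊆ v → ∀ t ∈ T, v ⊆ t → ((t \ s).card : ℝ) = (j : ℝ) - i := by
    intro s hs hsv t ht htv
    rw [card_sdiff_cast (hsv.trans htv), h.cS s hs, h.cT t ht]
  have hc3 : ∀ s ∈ S, s ⊆ v → (v \ s).card = v.card - i := by
    intro s hs hsv
    rw [card_sdiff_of_subset hsv, h.cS s hs]
  have hpv1 : ∀ s ∈ S, s ⊆ v → ∀ t ∈ T, v ⊆ t → ∀ X,
      pv1 (ty c s) (t \ s) X (v \ s) = if X ⊆ v \ s then F0 s X else 0 := by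
    intro s hs hsv t ht htv X
    unfold pv1
    rw [hc2 s hs hsv t ht htv, hc1 s hs hsv t ht htv, hc3 s hs hsv, hF0]
    by_cases hX : X ⊆ v \ s
    · rw [if_pos ⟨hX, htX s hsv⟩, if_pos hX]
    · rw [if_neg (fun g => hX g.1), if_neg hX]
  have hy1v : ∀ s ∈ S, s ⊆ v → ∀ t ∈ T, v ⊆ t →
      y1v (ty c s) (t \ s) (v \ s) = ∑ X ∈ (v \ s).powerset, F0 s X := by
    intro s hs hsv t ht htv
    rw [← y1v_sum (ty c s) (t \ s) (v \ s),
      hc2 s hs hsv t ht htv, hc1 s hs hsv t ht htv, hc3 s hs hsv, hF0]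
  -- degenerate case
  by_cases hne : (T.filter (fun t => v ⊆ t)).Nonempty
  swap
  · rw [not_nonempty_iff_eq_empty] at hne
    unfold WX
    rw [hne]
    simp
  obtain ⟨t0, ht0⟩ := hne
  rw [mem_filter] at ht0
  have hfpos : ∀ s ∈ S, s ⊆ v → 0 < ∑ X ∈ (v \ s).powerset, F0 s X := by
    intro s hs hsv
    rw [← hy1v s hs hsv t0 ht0.1 ht0.2]
    unfold y1v
    rw [hc2 s hs hsv t0 ht0.1 ht0.2]
    have h0 : ty c s ∅ = Lab.A := by rw [ty_empty]; exact h.lS s hs
    have h1 := one_le_aw h0 (v \ s)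
    have h2 : v \ s ⊆ t0 \ s := sdiff_subset_sdiff ht0.2 (Subset.refl _)
    have h3 := choose_pos_real (card_le_card h2)
    exact div_pos (by linarith) (mul_pos hl h3)
  have eS : ∀ s ∈ S, s ⊆ v → ∀ t ∈ T, v ⊆ t → (t \ s) \ (v \ s) = t \ v := by
    intro s _ hsv t _ _
    ext z
    simp only [mem_sdiff, not_and, not_not]
    constructor
    · rintro ⟨⟨h1, h2⟩, h3⟩
      exact ⟨h1, fun h4 => h2 (h3 h4)⟩
    · rintro ⟨h1, h2⟩
      exact ⟨⟨h1, fun h3 => h2 (hsv h3)⟩, fun h3 => absurd h3 h2⟩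
  have hord : ∀ s ∈ S, s ⊆ v → ∀ t ∈ T, v ⊆ t →
      (∑ π ∈ seqs (t \ v).card (t \ v), gdv c v π =
        ((t \ v).card.factorial : ℝ) * bwb (ty c s) (t \ s) (v \ s)) ∧
      ∀ cc : Finset α → ℝ, ∑ π ∈ seqs (t \ v).card (t \ v), gdv c v π * csum cc (v \ s) π =
        ((t \ v).card.factorial : ℝ) * ev (ty c s) (t \ s) cc (v \ s) := by
    intro s hs hsv t ht htv
    have hst : s ⊆ t := hsv.trans htv
    have h1 := hR (ty c s) (t \ s) (v \ s) (sdiff_subset_sdiff htv (Subset.refl _)) (by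
      intro h3
      have h4 := hc1 s hs hsv t ht htv
      rw [← h3, hc3 s hs hsv] at h4
      omega) (by
      unfold ty
      rw [union_sdiff_of_subset hst]
      exact h.lT t ht)
    rw [eS s hs hsv t ht htv] at h1
    simp only [gdv_ty, eU s hsv] at h1
    exact h1
  have hgen := objq_gen hO hKS hKL h mk hmk v v (Subset.refl _) hvj F0
    (fun s _ _ X => by
      rw [hF0]
      exact div_nonneg (fw_nonneg _ _) (by positivity)) hfpos (gdv c v)
    (fun π => gdv_01 c π _) (fun s t => bwb (ty c s) (t \ s) (v \ s))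
    (fun s t cc => ev (ty c s) (t \ s) cc (v \ s))
    (fun s hs hsv t ht htv => (hord s hs hsv t ht htv).1)
    (fun s hs hsv t ht htv => (hord s hs hsv t ht htv).2)
  have hWX : WX c S T a b v = ∑ s ∈ S.filter (fun s => s ⊆ v),
      ∑ t ∈ T.filter (fun t => v ⊆ t), a s * b t *
        ((∑ X ∈ (v \ s).powerset, F0 s X) * bwb (ty c s) (t \ s) (v \ s)) := by
    unfold WX
    refine sum_congr rfl fun s hs => sum_congr rfl fun t ht => ?_
    rw [mem_filter] at hs ht
    rw [yLv_eq_y1v _ (htX s hs.2), hy1v s hs.1 hs.2 t ht.1 ht.2]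
  rw [hWX]
  refine le_trans (le_of_eq ?_) hgen
  refine sum_congr rfl fun s hs => sum_congr rfl fun t ht => ?_
  rw [mem_filter] at hs ht
  congr 1
  congr 1
  · have hsub : (v \ s).powerset ⊆ (t \ s).powerset :=
      powerset_mono.2 (sdiff_subset_sdiff ht.2 (Subset.refl _))
    rw [← sum_subset hsub]
    · refine sum_congr rfl fun X hX => ?_
      rw [pv_eq_pv1, hpv1 s hs.1 hs.2 t ht.1 ht.2 X, if_pos (mem_powerset.1 hX)]
      rfl
    · intro X _ hX
      rw [pv_eq_pv1, hpv1 s hs.1 hs.2 t ht.1 ht.2 X, if_neg (fun h1 => hX (mem_powerset.2 h1)),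
        zero_mul, zero_mul, zero_mul, add_zero]
  · rw [yLv_eq_y1v _ (htX s hs.2), hy1v s hs.1 hs.2 t ht.1 ht.2, eU s hs.2]

end R5
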