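import Pool.Agent.Work.MP_8b6acb_fq.Basic

/-! # Block ORD: good orders -/

namespace R5

open Finset

variable {α : Type} [DecidableEq α]

theorem gd_cons (τ : Finset α → Lab) (U : Finset α) (x : α) (π : List α) :
    gd τ U (x :: π) = if τ U = Lab.B then gd τ (insert x U) π else 0 := rfl

theorem sdiff_insert_erase (D U : Finset α) (x : α) : (D \ U).erase x = D \ insert x U := by
  ext y; simp only [mem_sdiff, mem_insert, mem_erase]; tauto

theorem ord_aux (τ : Finset α → Lab) (D : Finset α) (hB : τ D = Lab.B) : ∀ (n : ℕ) (U : Finset α),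
    U ⊆ D → (D \ U).card = n →
    (∑ π ∈ seqs n (D \ U), gd τ U π = (n.factorial : ℝ) * bw τ D U) ∧
    ∀ c : Finset α → ℝ, ∑ π ∈ seqs n (D \ U), gd τ U π * csum c U π =
      (n.factorial : ℝ) * ec τ D c U := by
  intro n
  induction n with
  | zero =>
    intro U hU hn
    have hUD : U = D := Subset.antisymm hU (sdiff_eq_empty_iff_subset.1 (card_eq_zero.1 hn))
    subst hUD
    refine ⟨?_, fun c => ?_⟩
    · rw [seqs_zero, sum_singleton, bw_top]
      simp [gd, hB]
    · rw [seqs_zero, sum_singleton, ec_top c (Subset.refl _)]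
      simp [csum]
  | succ n ih =>
    intro U hU hn
    have hne : (D \ U).Nonempty := card_pos.1 (by omega)
    have hUD : U ≠ D := by
      rintro rfl
      simp at hne
    have hstep : ∀ x ∈ D \ U, insert x U ⊆ D ∧ (D \ insert x U).card = n := by
      intro x hx
      refine ⟨insert_subset (mem_sdiff.1 hx).1 hU, ?_⟩
      rw [← sdiff_insert_erase, card_erase_of_mem hx, hn]; rfl
    have hn0 : ((n : ℝ) + 1) ≠ 0 := by positivity
    have hcard : ((D \ U).card : ℝ) = (n : ℝ) + 1 := by rw [hn]; push_cast; ring
    have hfac : (((n + 1).factorial : ℕ) : ℝ) = ((n : ℝ) + 1) * (n.factorial : ℝ) := by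
      rw [Nat.factorial_succ]; push_cast; ring
    by_cases h : τ U = Lab.B
    · refine ⟨?_, fun c => ?_⟩
      · rw [sum_seqs_succ, bw_rec hU hUD, if_pos h, hfac]
        have h1 : ∀ g ∈ D \ U, ∑ π ∈ seqs n ((D \ U).erase g), gd τ U (g :: π) =
            (n.factorial : ℝ) * bw τ D (insert g U) := by
          intro g hg
          rw [sdiff_insert_erase]
          rw [← (ih (insert g U) (hstep g hg).1 (hstep g hg).2).1]
          exact sum_congr rfl fun π _ => by rw [gd_cons, if_pos h]
        rw [sum_congr rfl h1, ← mul_sum]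
        unfold bwb
        rw [hcard]
        field_simp
      · rw [sum_seqs_succ, ec_rec c hne, if_pos h, hfac, hcard]
        have h1 : ∀ g ∈ D \ U, ∑ π ∈ seqs n ((D \ U).erase g),
            gd τ U (g :: π) * csum c U (g :: π) =
            (n.factorial : ℝ) * (c U * bw τ D (insert g U) + ec τ D c (insert g U)) := by
          intro g hg
          rw [sdiff_insert_erase]
          have e := ih (insert g U) (hstep g hg).1 (hstep g hg).2
          have e2 : ∀ π ∈ seqs n (D \ insert g U), gd τ U (g :: π) * csum c U (g :: π) =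
              c U * gd τ (insert g U) π + gd τ (insert g U) π * csum c (insert g U) π := by
            intro π _
            rw [gd_cons, if_pos h]
            show gd τ (insert g U) π * (c U + csum c (insert g U) π) = _
            ring
          rw [sum_congr rfl e2, sum_add_distrib, ← mul_sum, e.1, e.2 c]
          ring
        rw [sum_congr rfl h1, ← mul_sum, sum_add_distrib, ← mul_sum, bw_rec hU hUD, if_pos h]
        unfold bwb
        rw [hcard]
        field_simp
    · refine ⟨?_, fun c => ?_⟩
      · rw [sum_seqs_succ, bw_rec hU hUD, if_neg h, mul_zero]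
        exact sum_eq_zero fun g _ => sum_eq_zero fun π _ => by rw [gd_cons, if_neg h]
      · rw [sum_seqs_succ, ec_rec c hne, if_neg h, mul_zero]
        exact sum_eq_zero fun g _ => sum_eq_zero fun π _ => by rw [gd_cons, if_neg h, zero_mul]

/-- Good orders. -/
theorem stmt_ORD : Stmt_ORD α := fun τ D U hU hB => ord_aux τ D hB _ U hU rfl

end R5
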