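import Pool.Agent.Work.MP_8b6acb_fq.Basic

/-! # Block ORDV: good orders above a cut vertex -/

namespace R5

open Finset

variable {α : Type} [DecidableEq α]

/-- Good orders above a cut vertex. -/
theorem stmt_ORDV (hO : Stmt_ORD α) : Stmt_ORDV α := by
  intro τ D V hV hVD hB
  have hne : (D \ V).Nonempty := by
    rw [nonempty_iff_ne_empty, Ne, sdiff_eq_empty_iff_subset]
    exact fun h => hVD (Subset.antisymm hV h)
  obtain ⟨n, hn⟩ : ∃ n, (D \ V).card = n + 1 := Nat.exists_eq_succ_of_ne_zero (card_pos.2 hne).ne'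
  have he : ∀ x, (D \ V).erase x = D \ insert x V := by
    intro x
    ext y; simp only [mem_sdiff, mem_insert, mem_erase]; tauto
  have hstep : ∀ x ∈ D \ V, insert x V ⊆ D ∧ (D \ insert x V).card = n := by
    intro x hx
    refine ⟨insert_subset (mem_sdiff.1 hx).1 hV, ?_⟩
    rw [← he, card_erase_of_mem hx, hn]; rfl
  have hn0 : ((n : ℝ) + 1) ≠ 0 := by positivity
  have hfac : (((n + 1).factorial : ℕ) : ℝ) = ((n : ℝ) + 1) * (n.factorial : ℝ) := by
    rw [Nat.factorial_succ]; push_cast; ring
  have hO2 : ∀ g ∈ D \ V,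
      (∑ π ∈ seqs n (D \ insert g V), gd τ (insert g V) π =
        (n.factorial : ℝ) * bw τ D (insert g V)) ∧
      ∀ c : Finset α → ℝ, ∑ π ∈ seqs n (D \ insert g V), gd τ (insert g V) π *
        csum c (insert g V) π = (n.factorial : ℝ) * ec τ D c (insert g V) := by
    intro g hg
    have h := hO τ D (insert g V) (hstep g hg).1 hB
    rw [(hstep g hg).2] at h
    exact h
  rw [hn]
  refine ⟨?_, fun c => ?_⟩
  · rw [sum_seqs_succ, hfac]
    have h1 : ∀ g ∈ D \ V, ∑ π ∈ seqs n ((D \ V).erase g), gdv τ V (g :: π) =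
        (n.factorial : ℝ) * bw τ D (insert g V) := by
      intro g hg
      rw [he, ← (hO2 g hg).1]
      rfl
    rw [sum_congr rfl h1, ← mul_sum]
    unfold bwb
    rw [hn]
    push_cast
    field_simp
  · rw [sum_seqs_succ, hfac]
    have h1 : ∀ g ∈ D \ V, ∑ π ∈ seqs n ((D \ V).erase g), gdv τ V (g :: π) * csum c V (g :: π) =
        (n.factorial : ℝ) * (c V * bw τ D (insert g V) + ec τ D c (insert g V)) := by
      intro g hg
      rw [he]
      have e := hO2 g hg
      have e2 : ∀ π ∈ seqs n (D \ insert g V), gdv τ V (g :: π) * csum c V (g :: π) =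
          c V * gd τ (insert g V) π + gd τ (insert g V) π * csum c (insert g V) π := by
        intro π _
        show gd τ (insert g V) π * (c V + csum c (insert g V) π) = _
        ring
      rw [sum_congr rfl e2, sum_add_distrib, ← mul_sum, e.1, e.2 c]
      ring
    rw [sum_congr rfl h1, ← mul_sum, sum_add_distrib, ← mul_sum]
    unfold ev bwb
    rw [hn]
    push_cast
    field_simp

end R5
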