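import Pool.Agent.Work.MP_8b6acb_fq.Basic

/-! # Block PPQ: from the typewise inequality to the cut condition -/

namespace R5

open Finset MP_8b6acb_co

theorem stmt_PPQ (α : Type) [Fintype α] [DecidableEq α] (hC : Stmt_CUTQ α) (hM : Stmt_MINC α) :
    Stmt_PPQ α := by
  intro i j q hij hq1 hqj hTI
  by_contra hPP
  obtain ⟨S, φ, A, hmin, hall⟩ := hM q i j hPP
  set T := S.image φ with hT
  have hTcard : ∀ t ∈ T, t.card = j := hmin.cardT
  have hAcard : ∀ u ∈ A, u.card < j := hmin.cardA (by omega)
  have hAT : ∀ t ∈ T, t ∉ A := by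
    intro t ht h
    have h1 := hTcard t ht
    have h2 := hAcard t h
    omega
  set c : Finset α → Lab := fun v => if v ∈ A then Lab.A else if v ∈ T then Lab.B else
    if dg A v < q then Lab.B else Lab.X with hc
  have hcA : ∀ v, c v = Lab.A ↔ v ∈ A := by
    intro v
    simp only [hc]
    split_ifs <;> simp_all
  have hcT : ∀ t ∈ T, c t = Lab.B := by
    intro t ht
    simp only [hc]
    rw [if_neg (hAT t ht), if_pos ht]
  have hcB : ∀ v ∈ Mid i j, c v = Lab.B → v ∉ A ∧ dg A v < q := by
    intro v hv h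
    rw [mem_Mid] at hv
    have hvT : v ∉ T := fun h => by have := hTcard v h; omega
    simp only [hc] at h
    split_ifs at h with h1 h2
    exact ⟨h1, h2⟩
  have hcX : ∀ v, c v = Lab.X → v ∉ A ∧ q ≤ dg A v := by
    intro v h
    simp only [hc] at h
    split_ifs at h with h1 h2 h3
    exact ⟨h1, by omega⟩
  have h1 := hC i j q S φ c hij hq1 hqj hTI hmin.mat (fun s hs => (hcA s).2 (hmin.SA hs)) hcT (by
    intro φ' hm' hT' s hs
    have hmin' := hall φ' hm' hT'
    have h2 := hmin'.own hij hs
    have h3 := hmin'.viol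
    rw [hT'] at h2 h3
    have hle : dg A (φ' s) < q := by
      have h4 := hmin'.own hij hs
      have h5 := hmin'.viol
      omega
    rw [min_eq_right hle.le] at h2
    have e1 : nbT c (φ' s) = dg A (φ' s) := by
      unfold nbT dg
      congr 1
      refine filter_congr fun x _ => ?_
      exact hcA _
    have e2 : nbS c s ≤ ub (Bset q i j (S.image φ) A) s := by
      unfold nbS ub
      refine card_le_card fun x hx => ?_
      rw [mem_filter] at hx ⊢
      refine ⟨mem_univ _, hx.2.1, ?_⟩
      have hcard : (insert x s).card = i + 1 := by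
        rw [card_insert_of_notMem hx.2.1, hmin.mat.cS s hs]
      have hMid : insert x s ∈ Mid i j := by
        rw [mem_Mid]
        omega
      have h6 := hcB _ hMid hx.2.2
      rw [mem_B]
      exact ⟨Or.inl hMid, h6.1, h6.2.le⟩
    rw [e1]
    omega)
  rw [← hT] at h1
  set E := netE c i j S T with hE
  have hEmem : ∀ e ∈ E, e.2 ∉ e.1 ∧ e.1 ∈ A ∧
      ((insert e.2 e.1 ∈ Mid i j ∧ insert e.2 e.1 ∉ A ∧ dg A (insert e.2 e.1) < q) ∨
        insert e.2 e.1 ∈ T) := by
    intro e he
    rw [hE] at he
    unfold netE at he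
    rw [mem_filter] at he
    obtain ⟨-, h2, h3, h4, h5, h6⟩ := he
    refine ⟨h2, (hcA _).1 h4, ?_⟩
    rcases h5 with h5 | h5
    · exact Or.inl ⟨h5, hcB _ h5 h6⟩
    · exact Or.inr h5
  set M' := (Mid i j).filter (fun v => v ∉ A ∧ dg A v < q) with hM'
  have h3 : E.card ≤ ∑ v ∈ M' ∪ T, dg A v := by
    have hmaps : ∀ e ∈ E, insert e.2 e.1 ∈ M' ∪ T := by
      intro e he
      obtain ⟨-, -, h6⟩ := hEmem e he
      rw [mem_union]
      rcases h6 with h6 | h6
      · left; rw [hM', mem_filter]; exact h6
      · exact Or.inr h6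
    rw [card_eq_sum_card_fiberwise hmaps]
    refine sum_le_sum fun v _ => ?_
    have hfib : ∀ e ∈ E.filter (fun e => insert e.2 e.1 = v), e.1 = v.erase e.2 ∧ e.2 ∈ v ∧
        v.erase e.2 ∈ A := by
      intro e he
      rw [mem_filter] at he
      obtain ⟨h4, h5, -⟩ := hEmem e he.1
      have h6 : v.erase e.2 = e.1 := by rw [← he.2, erase_insert h4]
      exact ⟨h6.symm, by rw [← he.2]; exact mem_insert_self _ _, by rw [h6]; exact h5⟩
    unfold dg
    refine card_le_card_of_injOn (fun e => e.2) ?_ ?_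
    · intro e he
      have he' := hfib e (mem_coe.1 he)
      exact mem_coe.2 (mem_filter.2 he'.2)
    · intro e he e' he' h
      have h4 := (hfib e (mem_coe.1 he)).1
      have h5 := (hfib e' (mem_coe.1 he')).1
      simp only at h
      rw [← h] at h5
      exact Prod.ext (h4.trans h5.symm) h
  have hdisj : Disjoint M' T := by
    rw [Finset.disjoint_left]
    intro v h4 h5
    rw [hM', mem_filter, mem_Mid] at h4
    have := hTcard v h5
    omega
  rw [sum_union hdisj] at h3
  have h4 : ∑ v ∈ M', dg A v + q * (netX c i j).card ≤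
      ∑ v ∈ Mid i j, if v ∈ A then 0 else min q (dg A v) := by
    have e1 : q * (netX c i j).card = ∑ v ∈ Mid i j, if c v = Lab.X then q else 0 := by
      unfold netX
      rw [← sum_filter, sum_const, smul_eq_mul, mul_comm]
    rw [hM', sum_filter, e1, ← sum_add_distrib]
    refine sum_le_sum fun v _ => ?_
    by_cases h5 : v ∈ A
    · have h6 : c v ≠ Lab.X := fun h => (hcX v h).1 h5
      simp [h5, h6]
    · by_cases h6 : dg A v < q
      · have h7 : c v ≠ Lab.X := fun h => by have := (hcX v h).2; omega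
        rw [if_pos ⟨h5, h6⟩, if_neg h7, if_neg h5, min_eq_right h6.le, add_zero]
      · rw [if_neg (fun h => h6 h.2), if_neg h5, min_eq_left (by omega), zero_add]
        split_ifs <;> omega
  have h5 : ∑ t ∈ T, min q (dg A t) = ∑ t ∈ T, dg A t := by
    refine sum_congr rfl fun t ht => ?_
    obtain ⟨s, hs, rfl⟩ := mem_image.1 ht
    exact min_eq_right (hmin.dgT hij hs).le
  have h6 := hmin.viol
  rw [← hT, cost_eq hTcard hAcard, h5] at h6
  omega

end R5
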