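import Pool.Agent.Work.MP_8b6acb_fq.Basic
import Pool.Agent.Work.MP_8b6acb_cap.TYPE

/-! Block TYPEQ. -/

namespace R5

open Finset

variable {α : Type} [DecidableEq α]

namespace TypeQ

open TypeAux

theorem edge_constQ {τ : Finset α → Lab} {D V : Finset α} {x : α} (h0 : τ ∅ = Lab.A) (hV : V ⊆ D)
    (hx : x ∈ D \ V) : yLe τ D V x * (Real.log (((V.card : ℝ) + 1) / ((D.card : ℝ) + 1)) +
      Real.log (Zt τ D / y1e τ D V)) = yLe τ D V x *
      (-Real.log (aw τ V / (((V.card : ℝ) + 1) * Zt τ D)) +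
        (Real.log (D.card.factorial : ℝ) - Real.log (V.card.factorial : ℝ) -
          Real.log ((D.card - (V.card + 1)).factorial : ℝ))) := by
  have hZ := TypeAux.Zt_pos (D := D) h0
  have hlt : V.card < D.card := by
    have hx' := mem_sdiff.1 hx
    have := card_le_card (insert_subset hx'.1 hV)
    rw [card_insert_of_notMem hx'.2] at this
    omega
  have hC : (0 : ℝ) < (D.card.choose V.card : ℝ) := choose_pos_real hlt.le
  have hk : (0 : ℝ) < (D.card : ℝ) - V.card := by
    have : (V.card : ℝ) < D.card := by exact_mod_cast hlt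
    linarith
  have ha : 0 < aw τ V := lt_of_lt_of_le one_pos (one_le_aw h0 V)
  rw [← log_choose' hlt]
  congr 1
  unfold y1e
  rw [← Real.log_inv, ← Real.log_mul (by positivity) (by positivity),
    ← Real.log_mul (by positivity) (by positivity)]
  congr 1
  field_simp

theorem vert_constQ {τ : Finset α → Lab} {D V : Finset α} (h0 : τ ∅ = Lab.A) (hD : D.Nonempty)
    (hV : V ⊆ D) : yLv τ D V * (Real.log ((V.card : ℝ) / (D.card : ℝ)) +
      Real.log (Zt τ D / y1v τ D V)) = yLv τ D V *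
      (-Real.log (aw τ V * (D.card : ℝ) / (((D.card : ℝ) + 1) * (V.card : ℝ) * Zt τ D)) +
        (Real.log (D.card.factorial : ℝ) - Real.log (V.card.factorial : ℝ) -
          Real.log ((D.card - V.card).factorial : ℝ))) := by
  have hZ := TypeAux.Zt_pos (D := D) h0
  by_cases hy : yLv τ D V = 0
  · rw [hy]; ring
  have hX : τ V = Lab.X := by
    by_contra he
    apply hy
    unfold yLv
    rw [if_neg he]
  have hV0 : V.Nonempty := by
    rw [nonempty_iff_ne_empty]
    rintro rfl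
    rw [h0] at hX
    exact absurd hX (by decide)
  have hk : (0 : ℝ) < (V.card : ℝ) := by exact_mod_cast card_pos.2 hV0
  have hl : (0 : ℝ) < (D.card : ℝ) := by exact_mod_cast card_pos.2 hD
  have hC : (0 : ℝ) < (D.card.choose V.card : ℝ) := choose_pos_real (card_le_card hV)
  have ha : 0 < aw τ V := lt_of_lt_of_le one_pos (one_le_aw h0 V)
  rw [← log_choose (card_le_card hV)]
  congr 1
  unfold y1v
  rw [← Real.log_inv, ← Real.log_mul (by positivity) (by positivity),
    ← Real.log_mul (by positivity) (by positivity)]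
  congr 1
  field_simp

/-- `KV` without the gain of the marks. -/
noncomputable def KW (ρ : Finset α → α → ℝ) (D X U : Finset α) : ℝ :=
  Real.log ((D.card - U.card).factorial : ℝ) -
    ((D.card : ℝ) - U.card) * Real.log ((D.card : ℝ) - X.card) +
    ∑ g ∈ D \ U, Real.log (ρ X g)

theorem sdiff_sum {D X V : Finset α} (hXV : X ⊆ V) (f : α → ℝ) :
    ∑ g ∈ D \ V, f g = ∑ g ∈ D \ X, if g ∈ V then 0 else f g := by
  have e : D \ V = (D \ X).filter (fun g => g ∉ V) := by
    ext g
    simp only [mem_sdiff, mem_filter]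
    constructor
    · rintro ⟨h1, h2⟩; exact ⟨⟨h1, fun h => h2 (hXV h)⟩, h2⟩
    · rintro ⟨⟨h1, _⟩, h2⟩; exact ⟨h1, h2⟩
  rw [e, sum_filter]
  refine sum_congr rfl fun g _ => ?_
  rw [ite_not]

theorem KW_eq (ρ : Finset α → α → ℝ) {D X V : Finset α} {x : α} (hx : x ∈ D \ V)
    (hXV : X ⊆ V) :
    KW ρ D X (insert x V) + (Real.log (D.card.factorial : ℝ) - Real.log (V.card.factorial : ℝ) -
          Real.log ((D.card - (V.card + 1)).factorial : ℝ)) =
      (Real.log (D.card.factorial : ℝ) - Real.log (V.card.factorial : ℝ) -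
        ((D.card : ℝ) - V.card) * Real.log ((D.card : ℝ) - X.card)) +
      Real.log ((D.card : ℝ) - X.card) +
      (∑ g ∈ D \ X, if g ∈ insert x V then 0 else Real.log (ρ X g)) := by
  have hx' := mem_sdiff.1 hx
  have hc : (insert x V).card = V.card + 1 := card_insert_of_notMem hx'.2
  have hXU : X ⊆ insert x V := hXV.trans (subset_insert _ _)
  unfold KW
  rw [← sdiff_sum hXU, hc]
  push_cast
  ring

theorem KW_eq' (ρ : Finset α → α → ℝ) {D X V : Finset α} (hXV : X ⊆ V) :
    KW ρ D X V + (Real.log (D.card.factorial : ℝ) - Real.log (V.card.factorial : ℝ) -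
          Real.log ((D.card - V.card).factorial : ℝ)) =
      (Real.log (D.card.factorial : ℝ) - Real.log (V.card.factorial : ℝ) -
        ((D.card : ℝ) - V.card) * Real.log ((D.card : ℝ) - X.card)) +
      (∑ g ∈ D \ X, if g ∈ V then 0 else Real.log (ρ X g)) := by
  unfold KW
  rw [← sdiff_sum hXV]
  ring

theorem XLQ (hSWL : Stmt_SWL α) (τ : Finset α → Lab) {D X : Finset α} (hX : X ⊆ D)
    (ρ : Finset α → α → ℝ) :
    (∑ V ∈ D.powerset, ∑ x ∈ D \ V, pe τ D X V x * (KW ρ D X (insert x V) +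
      (Real.log (D.card.factorial : ℝ) - Real.log (V.card.factorial : ℝ) -
          Real.log ((D.card - (V.card + 1)).factorial : ℝ)))) +
    (∑ V ∈ D.powerset, pv τ D X V * (KW ρ D X V +
      (Real.log (D.card.factorial : ℝ) - Real.log (V.card.factorial : ℝ) -
          Real.log ((D.card - V.card).factorial : ℝ)))) =
    (∑ V ∈ D.powerset, ((∑ x ∈ D \ V, pe τ D X V x) + pv τ D X V) *
      (Real.log (D.card.factorial : ℝ) - Real.log (V.card.factorial : ℝ) -
        ((D.card : ℝ) - V.card) * Real.log ((D.card : ℝ) - X.card))) +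
    Real.log ((D.card : ℝ) - X.card) * (∑ g ∈ D \ X, PP1 τ D X g) +
    (∑ g ∈ D \ X, (sw τ D X g - PP1 τ D X g) * Real.log (ρ X g)) := by
  have e1 : ∀ V ∈ D.powerset, ∀ x ∈ D \ V, pe τ D X V x * (KW ρ D X (insert x V) +
      (Real.log (D.card.factorial : ℝ) - Real.log (V.card.factorial : ℝ) -
          Real.log ((D.card - (V.card + 1)).factorial : ℝ))) =
      pe τ D X V x * (Real.log (D.card.factorial : ℝ) - Real.log (V.card.factorial : ℝ) -
        ((D.card : ℝ) - V.card) * Real.log ((D.card : ℝ) - X.card)) +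
      pe τ D X V x * Real.log ((D.card : ℝ) - X.card) +
      (∑ g ∈ D \ X, (if g ∈ insert x V then 0 else pe τ D X V x) * Real.log (ρ X g)) := by
    intro V hV x hx
    by_cases hXV : X ⊆ V
    · rw [KW_eq ρ hx hXV, mul_add, mul_add]
      congr 1
      rw [mul_sum]
      refine sum_congr rfl fun g _ => ?_
      split_ifs <;> ring
    · rw [pe_eq_zero hXV]; simp
  have e2 : ∀ V ∈ D.powerset, pv τ D X V * (KW ρ D X V +
      (Real.log (D.card.factorial : ℝ) - Real.log (V.card.factorial : ℝ) -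
          Real.log ((D.card - V.card).factorial : ℝ))) =
      pv τ D X V * (Real.log (D.card.factorial : ℝ) - Real.log (V.card.factorial : ℝ) -
        ((D.card : ℝ) - V.card) * Real.log ((D.card : ℝ) - X.card)) +
      (∑ g ∈ D \ X, (if g ∈ V then 0 else pv τ D X V) * Real.log (ρ X g)) := by
    intro V hV
    by_cases hXV : X ⊆ V
    · rw [KW_eq' ρ hXV, mul_add]
      congr 1
      rw [mul_sum]
      refine sum_congr rfl fun g _ => ?_
      split_ifs <;> ring
    · rw [pv_eq_zero hXV]; simp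
  rw [sum_congr rfl (fun V hV => sum_congr rfl (e1 V hV)), sum_congr rfl e2]
  simp only [sum_add_distrib]
  -- the coefficient of `log ρ`
  have c1 : (∑ V ∈ D.powerset, ∑ x ∈ D \ V, ∑ g ∈ D \ X,
        (if g ∈ insert x V then 0 else pe τ D X V x) * Real.log (ρ X g)) +
      (∑ V ∈ D.powerset, ∑ g ∈ D \ X, (if g ∈ V then 0 else pv τ D X V) * Real.log (ρ X g)) =
      ∑ g ∈ D \ X, (sw τ D X g - PP1 τ D X g) * Real.log (ρ X g) := by
    have s1 : (∑ V ∈ D.powerset, ∑ x ∈ D \ V, ∑ g ∈ D \ X,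
        (if g ∈ insert x V then 0 else pe τ D X V x) * Real.log (ρ X g)) =
        ∑ g ∈ D \ X, (∑ V ∈ D.powerset, ∑ x ∈ D \ V,
          (if g ∈ insert x V then 0 else pe τ D X V x)) * Real.log (ρ X g) := by
      rw [sum_congr rfl (fun V _ => sum_comm), sum_comm]
      refine sum_congr rfl fun g _ => ?_
      rw [sum_mul]
      refine sum_congr rfl fun V _ => ?_
      rw [sum_mul]
    have s2 : (∑ V ∈ D.powerset, ∑ g ∈ D \ X, (if g ∈ V then 0 else pv τ D X V) *
        Real.log (ρ X g)) = ∑ g ∈ D \ X, (∑ V ∈ D.powerset,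
          (if g ∈ V then 0 else pv τ D X V)) * Real.log (ρ X g) := by
      rw [sum_comm]
      refine sum_congr rfl fun g _ => ?_
      rw [sum_mul]
    rw [s1, s2, ← sum_add_distrib]
    refine sum_congr rfl fun g hg => ?_
    rw [← add_mul]
    congr 1
    have s3 := hSWL τ D X g hX hg
    rw [sum_add_distrib] at s3
    have s4 : ∀ V ∈ D.powerset, ∑ x ∈ D \ V, (if g ∈ insert x V then 0 else pe τ D X V x) =
        if g ∈ V then 0 else ((∑ x ∈ D \ V, pe τ D X V x) - pe τ D X V g) := by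
      intro V hV
      split_ifs with hgV
      · apply sum_eq_zero
        intro x _
        rw [if_pos (mem_insert_of_mem hgV)]
      · have hgD : g ∈ D \ V := mem_sdiff.2 ⟨(mem_sdiff.1 hg).1, hgV⟩
        rw [← add_sum_erase _ (fun x => pe τ D X V x) hgD, ← add_sum_erase _ _ hgD,
          if_pos (mem_insert_self _ _), zero_add, add_sub_cancel_left]
        refine sum_congr rfl fun x hx => ?_
        rw [if_neg]
        rw [mem_insert, not_or]
        exact ⟨fun h => (mem_erase.1 hx).1 h.symm, hgV⟩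
    rw [sum_congr rfl s4, sum_notMem, sum_notMem, sum_sub_distrib]
    unfold sw PP1
    rw [← s3]
    ring
  have c3 : ∑ V ∈ D.powerset, ∑ x ∈ D \ V, pe τ D X V x * Real.log ((D.card : ℝ) - X.card) =
      Real.log ((D.card : ℝ) - X.card) * (∑ g ∈ D \ X, PP1 τ D X g) := by
    rw [← sum_pe, mul_comm, sum_mul]
    refine sum_congr rfl fun V _ => ?_
    rw [sum_mul]
  have c4 : (∑ V ∈ D.powerset, ((∑ x ∈ D \ V, pe τ D X V x) + pv τ D X V) *
      (Real.log (D.card.factorial : ℝ) - Real.log (V.card.factorial : ℝ) -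
        ((D.card : ℝ) - V.card) * Real.log ((D.card : ℝ) - X.card))) =
      (∑ V ∈ D.powerset, ∑ x ∈ D \ V, pe τ D X V x *
        (Real.log (D.card.factorial : ℝ) - Real.log (V.card.factorial : ℝ) -
        ((D.card : ℝ) - V.card) * Real.log ((D.card : ℝ) - X.card))) +
      ∑ V ∈ D.powerset, pv τ D X V * (Real.log (D.card.factorial : ℝ) -
        Real.log (V.card.factorial : ℝ) -
        ((D.card : ℝ) - V.card) * Real.log ((D.card : ℝ) - X.card)) := by
    rw [← sum_add_distrib]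
    refine sum_congr rfl fun V _ => ?_
    rw [add_mul, sum_mul]
  rw [← c1, c3, c4]
  ring

/-- The terms of the slot costs and of the marks. -/
noncomputable def CS (τ : Finset α → Lab) (D : Finset α) (ρ : Finset α → α → ℝ)
    (mk : Finset α → Finset α) : ℝ :=
  ∑ X ∈ D.powerset,
    ((∑ V ∈ D.powerset, ∑ x ∈ D \ V,
      (pe1 τ D X V x * ec τ D (SS ρ mk D X (insert x V)) (insert x V) +
        pe τ D X V x * gm mk D (insert x V))) +
    ∑ V ∈ D.powerset, (pv1 τ D X V * ev τ D (SS ρ mk D X V) V + pv τ D X V * gm mk D V))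

theorem SGc_eq (τ : Finset α → Lab) (D : Finset α) (ρ : Finset α → α → ℝ)
    (mk : Finset α → Finset α) :
    SGc τ D ρ mk = (∑ X ∈ D.powerset, ∑ g ∈ D \ X,
      PP1 τ D X g * (Real.log ((D \ X).card : ℝ) - Real.log (ρ X g))) + CS τ D ρ mk := by
  unfold SGc CS
  rw [← sum_add_distrib]
  refine sum_congr rfl fun X _ => ?_
  ring

theorem LVc_split (τ : Finset α → Lab) (D : Finset α) (ρ : Finset α → α → ℝ)
    (mk : Finset α → Finset α) :
    (∑ X ∈ D.powerset,
    ((∑ V ∈ D.powerset, ∑ x ∈ D \ V, (pe τ D X V x * KV ρ mk D X (insert x V) +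
        pe1 τ D X V x * ec τ D (SS ρ mk D X (insert x V)) (insert x V))) +
    ∑ V ∈ D.powerset, (pv τ D X V * KV ρ mk D X V +
        pv1 τ D X V * ev τ D (SS ρ mk D X V) V))) =
    (∑ X ∈ D.powerset, ((∑ V ∈ D.powerset, ∑ x ∈ D \ V,
      pe τ D X V x * KW ρ D X (insert x V)) + ∑ V ∈ D.powerset, pv τ D X V * KW ρ D X V)) +
      CS τ D ρ mk := by
  unfold CS
  rw [← sum_add_distrib]
  refine sum_congr rfl fun X _ => ?_
  have h1 : ∀ U, KV ρ mk D X U = KW ρ D X U + gm mk D U := fun U => rfl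
  simp only [h1, mul_add, sum_add_distrib]
  ring

theorem LSIDEQ (hY : Stmt_YSUM α) (hSWL : Stmt_SWL α) (τ : Finset α → Lab)
    (D : Finset α) (μ H : Finset α → ℝ) (mk : Finset α → Finset α) (h0 : τ ∅ = Lab.A)
    (hD : D.Nonempty) (hμ : ∀ V ⊆ D, 0 < μ V) :
    SGc τ D (fun X g => μ (insert g X) / μ X) mk - (∑ X ∈ D.powerset, ∑ g ∈ D \ X,
        sw τ D X g * (-Real.log (μ (insert g X)) - -Real.log (μ X))) + KL τ D +
      ((∑ V ∈ D.powerset, ∑ x ∈ D \ V, yLe τ D V x * H V) +
        ∑ V ∈ D.powerset, yLv τ D V * H V) - CL1 τ D (Zt τ D) +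
      Real.log (D.card : ℝ) * (∑ V ∈ D.powerset, yLv τ D V) =
    LVc τ D (fun X g => μ (insert g X) / μ X) mk H := by
  set ρ : Finset α → α → ℝ := fun X g => μ (insert g X) / μ X with hρ
  -- constants
  have b1 : (∑ V ∈ D.powerset, ∑ x ∈ D \ V, yLe τ D V x *
      (Real.log (((V.card : ℝ) + 1) / ((D.card : ℝ) + 1)) + H V +
      Real.log (Zt τ D / y1e τ D V))) =
      (∑ V ∈ D.powerset, ∑ x ∈ D \ V, yLe τ D V x * H V) -
      (∑ V ∈ D.powerset, ∑ x ∈ D \ V, yLe τ D V x *
        Real.log (aw τ V / (((V.card : ℝ) + 1) * Zt τ D))) +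
      ∑ X ∈ D.powerset, ∑ V ∈ D.powerset, ∑ x ∈ D \ V, pe τ D X V x *
        (Real.log (D.card.factorial : ℝ) - Real.log (V.card.factorial : ℝ) -
          Real.log ((D.card - (V.card + 1)).factorial : ℝ)) := by
    rw [sum_comm (s := D.powerset) (t := D.powerset), ← sum_sub_distrib, ← sum_add_distrib]
    refine sum_congr rfl fun V hV => ?_
    rw [sum_comm (s := D.powerset), ← sum_sub_distrib, ← sum_add_distrib]
    refine sum_congr rfl fun x hx => ?_
    rw [← sum_mul, (hY τ D V (mem_powerset.1 hV)).1 x hx]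
    have h1 := edge_constQ (x := x) h0 (mem_powerset.1 hV) hx
    have h2 : yLe τ D V x * (Real.log (((V.card : ℝ) + 1) / ((D.card : ℝ) + 1)) + H V +
      Real.log (Zt τ D / y1e τ D V)) = yLe τ D V x *
      (Real.log (((V.card : ℝ) + 1) / ((D.card : ℝ) + 1)) +
      Real.log (Zt τ D / y1e τ D V)) + yLe τ D V x * H V := by ring
    rw [h2, h1]
    ring
  have b2 : (∑ V ∈ D.powerset, yLv τ D V *
      (Real.log (D.card : ℝ) + Real.log ((V.card : ℝ) / (D.card : ℝ)) + H V +
      Real.log (Zt τ D / y1v τ D V))) =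
      Real.log (D.card : ℝ) * (∑ V ∈ D.powerset, yLv τ D V) +
      (∑ V ∈ D.powerset, yLv τ D V * H V) -
      (∑ V ∈ D.powerset, yLv τ D V *
        Real.log (aw τ V * (D.card : ℝ) /
          (((D.card : ℝ) + 1) * (V.card : ℝ) * Zt τ D))) +
      ∑ X ∈ D.powerset, ∑ V ∈ D.powerset, pv τ D X V *
        (Real.log (D.card.factorial : ℝ) - Real.log (V.card.factorial : ℝ) -
          Real.log ((D.card - V.card).factorial : ℝ)) := by
    rw [sum_comm (s := D.powerset) (t := D.powerset), mul_sum, ← sum_add_distrib,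
      ← sum_sub_distrib, ← sum_add_distrib]
    refine sum_congr rfl fun V hV => ?_
    rw [← sum_mul, (hY τ D V (mem_powerset.1 hV)).2]
    have h1 := vert_constQ (τ := τ) h0 hD (mem_powerset.1 hV)
    have h2 : yLv τ D V * (Real.log (D.card : ℝ) + Real.log ((V.card : ℝ) / (D.card : ℝ)) + H V +
      Real.log (Zt τ D / y1v τ D V)) = yLv τ D V *
      (Real.log ((V.card : ℝ) / (D.card : ℝ)) +
      Real.log (Zt τ D / y1v τ D V)) + yLv τ D V * H V + yLv τ D V * Real.log (D.card : ℝ) := by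
      ring
    rw [h2, h1]
    ring
  have b3 : (∑ X ∈ D.powerset, ((∑ V ∈ D.powerset, ∑ x ∈ D \ V,
      pe τ D X V x * KW ρ D X (insert x V)) + ∑ V ∈ D.powerset, pv τ D X V * KW ρ D X V)) +
      (∑ X ∈ D.powerset, ∑ V ∈ D.powerset, ∑ x ∈ D \ V, pe τ D X V x *
        (Real.log (D.card.factorial : ℝ) - Real.log (V.card.factorial : ℝ) -
          Real.log ((D.card - (V.card + 1)).factorial : ℝ))) +
      (∑ X ∈ D.powerset, ∑ V ∈ D.powerset, pv τ D X V *
        (Real.log (D.card.factorial : ℝ) - Real.log (V.card.factorial : ℝ) -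
          Real.log ((D.card - V.card).factorial : ℝ))) =
      KL τ D + ∑ X ∈ D.powerset,
        (Real.log ((D.card : ℝ) - X.card) * (∑ g ∈ D \ X, PP1 τ D X g) +
        (∑ g ∈ D \ X, (sw τ D X g - PP1 τ D X g) * Real.log (ρ X g))) := by
    unfold KL
    rw [← sum_add_distrib, ← sum_add_distrib, ← sum_add_distrib]
    refine sum_congr rfl fun X hX => ?_
    have h1 := XLQ hSWL τ (mem_powerset.1 hX) ρ
    simp only [mul_add, sum_add_distrib] at h1
    linarith
  have b4 : ∀ X ∈ D.powerset, ∀ g ∈ D \ X,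
      PP1 τ D X g * (Real.log ((D \ X).card : ℝ) - Real.log (ρ X g)) -
        sw τ D X g * (-Real.log (μ (insert g X)) - -Real.log (μ X)) =
      Real.log ((D.card : ℝ) - X.card) * PP1 τ D X g +
        (sw τ D X g - PP1 τ D X g) * Real.log (ρ X g) := by
    intro X hX g hg
    have hX' := mem_powerset.1 hX
    have hg' := mem_sdiff.1 hg
    have hm1 : 0 < μ X := hμ X hX'
    have hm2 : 0 < μ (insert g X) := hμ _ (insert_subset hg'.1 hX')
    have hlog : Real.log (ρ X g) = Real.log (μ (insert g X)) - Real.log (μ X) := by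
      rw [hρ]
      exact Real.log_div hm2.ne' hm1.ne'
    have hc : ((D \ X).card : ℝ) = (D.card : ℝ) - X.card := card_sdiff_cast hX'
    rw [← hc, hlog]
    ring
  have b5 := sum_congr rfl (fun X hX => sum_congr rfl (b4 X hX))
  unfold LVc
  rw [b1, b2, LVc_split, SGc_eq]
  unfold CL1
  have b6 : ∑ X ∈ D.powerset, ∑ g ∈ D \ X,
      (PP1 τ D X g * (Real.log ((D \ X).card : ℝ) - Real.log (ρ X g)) -
        sw τ D X g * (-Real.log (μ (insert g X)) - -Real.log (μ X))) =
      (∑ X ∈ D.powerset, ∑ g ∈ D \ X, PP1 τ D X g * (Real.log ((D \ X).card : ℝ) -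
        Real.log (ρ X g))) -
      ∑ X ∈ D.powerset, ∑ g ∈ D \ X,
        sw τ D X g * (-Real.log (μ (insert g X)) - -Real.log (μ X)) := by
    rw [← sum_sub_distrib]
    refine sum_congr rfl fun X _ => ?_
    rw [← sum_sub_distrib]
  have b7 : ∑ X ∈ D.powerset, ∑ g ∈ D \ X, (Real.log ((D.card : ℝ) - X.card) * PP1 τ D X g +
        (sw τ D X g - PP1 τ D X g) * Real.log (ρ X g)) =
      ∑ X ∈ D.powerset,
        (Real.log ((D.card : ℝ) - X.card) * (∑ g ∈ D \ X, PP1 τ D X g) +
        (∑ g ∈ D \ X, (sw τ D X g - PP1 τ D X g) * Real.log (ρ X g))) := by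
    refine sum_congr rfl fun X _ => ?_
    rw [sum_add_distrib, mul_sum]
  rw [b6, b7] at b5
  linarith [b3, b5]

end TypeQ

open TypeAux TypeQ in
theorem stmt_TYPEQ (hY : Stmt_YSUM α) (hM : Stmt_MASS α) (hSWL : Stmt_SWL α) (hSWF : Stmt_SWF α)
    (hC : Stmt_CONST α) : Stmt_TYPEQ α := by
  intro τ D μ ν mS mT h0 hDB hD hμ hν
  have d0 : dual τ D ∅ = Lab.A := by
    unfold dual
    rw [sdiff_empty, hDB]; rfl
  have dD : dual τ D D = Lab.B := by
    unfold dual
    rw [sdiff_self, bot_eq_empty, h0]; rfl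
  have L1 := LSIDEQ hY hSWL τ D μ (fun V => -Real.log (ν V)) mS h0 hD hμ
  have L2 := LSIDEQ hY hSWL (dual τ D) D (fun U => ν (D \ U)) (fun U => -Real.log (μ (D \ U))) mT
    d0 hD (fun V _ => hν _ sdiff_subset)
  have W1 := hSWF τ D (fun V => -Real.log (μ V)) h0 hDB
  have W2 := hSWF (dual τ D) D (fun U => -Real.log (ν (D \ U))) d0 dD
  have M1 := hM τ D h0 hDB
  have M2 := hM (dual τ D) D d0 dD
  have K := hC τ D h0 hDB
  rw [Zt_dual] at L2
  -- identify the H-terms
  have t1 : (∑ V ∈ D.powerset, ∑ x ∈ D \ V, yLe (dual τ D) D V x * -Real.log (μ (D \ V))) =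
      ∑ V ∈ D.powerset, ∑ x ∈ D \ V, yFe τ D V x * -Real.log (μ (insert x V)) := by
    rw [← sum_edge_compl]
    refine sum_congr rfl fun V hV => sum_congr rfl fun x hx => ?_
    rw [yLe_dual (mem_powerset.1 hV) hx, Finset.sdiff_sdiff_eq_self
      (insert_subset (mem_sdiff.1 hx).1 (mem_powerset.1 hV))]
  have t2 : (∑ V ∈ D.powerset, yLv (dual τ D) D V * -Real.log (μ (D \ V))) =
      ∑ V ∈ D.powerset, yFv τ D V * -Real.log (μ V) := by
    rw [← sum_powerset_compl]
    refine sum_congr rfl fun V hV => ?_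
    rw [yLv_dual (mem_powerset.1 hV), Finset.sdiff_sdiff_eq_self (mem_powerset.1 hV)]
  have t3 : (∑ V ∈ D.powerset, ∑ x ∈ D \ V, yFe (dual τ D) D V x *
        -Real.log (ν (D \ insert x V))) =
      ∑ V ∈ D.powerset, ∑ x ∈ D \ V, yLe τ D V x * -Real.log (ν V) := by
    rw [← sum_edge_compl D (fun V x => yLe τ D V x * -Real.log (ν V))]
    refine sum_congr rfl fun V hV => sum_congr rfl fun x hx => ?_
    have hx' := mem_sdiff.1 hx
    rw [← yLe_dual (mem_powerset.1 hV) hx, yLe_dd sdiff_subset]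
    rw [mem_sdiff, mem_sdiff]
    exact ⟨hx'.1, fun h => h.2 (mem_insert_self _ _)⟩
  have t4 : (∑ V ∈ D.powerset, yFv (dual τ D) D V * -Real.log (ν (D \ V))) =
      ∑ V ∈ D.powerset, yLv τ D V * -Real.log (ν V) := by
    rw [← sum_powerset_compl D (fun V => yLv τ D V * -Real.log (ν V))]
    refine sum_congr rfl fun V hV => ?_
    rw [← yLv_dual (mem_powerset.1 hV), yLv_dd sdiff_subset]
  simp only [t1, t2] at L2
  rw [t3, t4] at W2
  have e1 : ab (dual τ D) D ∅ = aw τ D := by rw [ab_dual, sdiff_empty]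
  have e2 : aw (dual τ D) D = ab τ D ∅ := by
    rw [aw_dual (Subset.refl _), sdiff_self, bot_eq_empty]
  rw [e1] at W2
  rw [e2] at M2
  simp only [sdiff_empty] at W2
  have hZ : Zt τ D = aw τ D / ((D.card : ℝ) + 1) + ab τ D ∅ / ((D.card : ℝ) + 1) := by
    unfold Zt; rw [add_div]
  unfold VALc COST1
  have hZl : Zt τ D * Real.log (D.card : ℝ) = Real.log (D.card : ℝ) * (PEL τ D +
      ∑ V ∈ D.powerset, yLv τ D V) + Real.log (D.card : ℝ) * (PEL (dual τ D) D +
      ∑ V ∈ D.powerset, yLv (dual τ D) D V) := by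
    rw [M1, M2, hZ]; ring
  rw [hZl]
  unfold sw at L1 L2
  linarith [L1, L2, W1, W2, K]

end R5
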