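import Pool.Agent.Work.MP_8b6acb_fq.Basic

/-! # Block VLB: a lower bound for the value, independent of the densities -/

namespace R5

open Finset

namespace VLBQ

variable {α : Type} [DecidableEq α]

theorem gg_nonneg {b j : ℕ} (h : j ≤ b) : 0 ≤ gg b j := by
  unfold gg
  refine sum_nonneg fun i hi => ?_
  rw [mem_range] at hi
  have h1 : (i : ℝ) < (b : ℝ) := by exact_mod_cast lt_of_lt_of_le hi h
  have h2 : (0 : ℝ) ≤ (i : ℝ) := Nat.cast_nonneg _
  apply Real.log_nonneg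
  rw [le_div_iff₀ (by linarith)]
  linarith

theorem gm_nonneg (mk : Finset α → Finset α) (D U : Finset α) : 0 ≤ gm mk D U :=
  gg_nonneg (card_le_card inter_subset_left)

theorem pe_nn (τ : Finset α → Lab) {D X V : Finset α} {x : α} (hV : V ⊆ D) :
    0 ≤ pe τ D X V x := by
  unfold pe
  split_ifs
  · have h1 : (V.card : ℝ) ≤ D.card := by exact_mod_cast card_le_card hV
    have h2 := fw_nonneg τ X
    have h3 := bw_nonneg τ D (insert x V)
    have h4 : (0 : ℝ) ≤ (D.card : ℝ) - (V.card : ℝ) := by linarith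
    positivity
  · exact le_refl _

theorem pv_nn (τ : Finset α → Lab) {D X V : Finset α} :
    0 ≤ pv τ D X V := by
  unfold pv
  split_ifs
  · have h2 := fw_nonneg τ X
    have h3 := bwb_nonneg τ D V
    positivity
  · exact le_refl _

theorem pe1_nn (τ : Finset α → Lab) {D X V : Finset α} {x : α} (hV : V ⊆ D) :
    0 ≤ pe1 τ D X V x := by
  unfold pe1
  split_ifs
  · have h1 : (V.card : ℝ) ≤ D.card := by exact_mod_cast card_le_card hV
    have h2 := fw_nonneg τ X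
    have h4 : (0 : ℝ) ≤ (D.card : ℝ) - (V.card : ℝ) := by linarith
    positivity
  · exact le_refl _

theorem pv1_nn (τ : Finset α → Lab) {D X V : Finset α} :
    0 ≤ pv1 τ D X V := by
  unfold pv1
  split_ifs
  · have h2 := fw_nonneg τ X
    positivity
  · exact le_refl _

theorem pe1_zero (τ : Finset α → Lab) {D X V : Finset α} {x : α} (h : ¬ X ⊆ V) :
    pe1 τ D X V x = 0 := by
  unfold pe1
  rw [if_neg (fun hh => h hh.1)]

theorem pv1_zero (τ : Finset α → Lab) {D X V : Finset α} (h : ¬ X ⊆ V) :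
    pv1 τ D X V = 0 := by
  unfold pv1
  rw [if_neg (fun hh => h hh.1)]

theorem ecn_nonneg (τ : Finset α → Lab) (D U0 : Finset α) (c : Finset α → ℝ)
    (hc : ∀ U, U0 ⊆ U → U ⊆ D → U ≠ D → 0 ≤ c U) :
    ∀ (n : ℕ) (U : Finset α), U0 ⊆ U → U ⊆ D → (D \ U).card = n → 0 ≤ ecn τ D c n U := by
  intro n
  induction n with
  | zero => intro U _ _ _; exact le_refl _
  | succ n ih =>
    intro U h0 hU hn
    rw [ecn_succ]
    split_ifs
    · have hne : U ≠ D := by
        rintro rfl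
        simp at hn
      have h1 := hc U h0 hU hne
      have h2 := bw_nonneg τ D U
      have h3 : 0 ≤ ∑ x ∈ D \ U, ecn τ D c n (insert x U) := by
        refine sum_nonneg fun x hx => ?_
        have hx' := mem_sdiff.1 hx
        refine ih (insert x U) (h0.trans (subset_insert _ _)) (insert_subset hx'.1 hU) ?_
        rw [← sdiff_erase_eq, card_erase_of_mem hx, hn]
        rfl
      positivity
    · exact le_refl _

theorem ec_nonneg (τ : Finset α → Lab) (D U0 : Finset α) (c : Finset α → ℝ)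
    (hc : ∀ U, U0 ⊆ U → U ⊆ D → U ≠ D → 0 ≤ c U) {U : Finset α} (h0 : U0 ⊆ U) (hU : U ⊆ D) :
    0 ≤ ec τ D c U :=
  ecn_nonneg τ D U0 c hc _ U h0 hU rfl

theorem ev_nonneg (τ : Finset α → Lab) (D : Finset α) (c : Finset α → ℝ) {V : Finset α}
    (hc : ∀ U, V ⊆ U → U ⊆ D → U ≠ D → 0 ≤ c U) (hV : V ⊆ D) :
    0 ≤ ev τ D c V := by
  unfold ev
  have h1 : 0 ≤ c V * bwb τ D V := by
    by_cases h : V = D
    · have : bwb τ D V = 0 := by
        unfold bwb
        rw [h]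
        simp
      rw [this, mul_zero]
    · exact mul_nonneg (hc V (Subset.refl _) hV h) (bwb_nonneg _ _ _)
  have h2 : 0 ≤ ∑ x ∈ D \ V, ec τ D c (insert x V) := by
    refine sum_nonneg fun x hx => ?_
    have hx' := mem_sdiff.1 hx
    exact ec_nonneg τ D V c hc (subset_insert _ _) (insert_subset hx'.1 hV)
  have h3 : 0 ≤ (∑ x ∈ D \ V, ec τ D c (insert x V)) / ((D \ V).card : ℝ) :=
    div_nonneg h2 (Nat.cast_nonneg _)
  linarith

theorem sc_nonneg {ρ : α → ℝ} {D X U0 M U : Finset α} (hXU : X ⊆ U0) (hU : U0 ⊆ U)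
    (hUD : U ⊆ D) (hne : U ≠ D) (hρ : ∀ g ∈ D \ X, 0 < ρ g ∧ ρ g ≤ 1) :
    0 ≤ sc ρ ((D.card : ℝ) - X.card) X U0 M U := by
  unfold sc
  have hlt : U.card < D.card := card_lt_card (ssubset_of_subset_of_ne hUD hne)
  have hXU' : X ⊆ U := hXU.trans hU
  have hsub1 : U0 \ X ⊆ D \ X := sdiff_subset_sdiff (hU.trans hUD) (Subset.refl _)
  have hsub2 : (U \ U0) \ M ⊆ D \ X := by
    intro y hy
    have h1 := mem_sdiff.1 (mem_sdiff.1 hy).1
    exact mem_sdiff.2 ⟨hUD h1.1, fun h => h1.2 (hXU h)⟩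
  have a1 : 0 ≤ ∑ g ∈ U0 \ X, ρ g := sum_nonneg fun g hg => (hρ g (hsub1 hg)).1.le
  have a2 : 0 ≤ ∑ g ∈ (U \ U0) \ M, ρ g := sum_nonneg fun g hg => (hρ g (hsub2 hg)).1.le
  have b1 : ∑ g ∈ U0 \ X, ρ g ≤ ((U0 \ X).card : ℝ) := by
    calc ∑ g ∈ U0 \ X, ρ g ≤ ∑ g ∈ U0 \ X, (1 : ℝ) :=
          sum_le_sum fun g hg => (hρ g (hsub1 hg)).2
      _ = ((U0 \ X).card : ℝ) := by simp
  have b2 : ∑ g ∈ (U \ U0) \ M, ρ g ≤ (((U \ U0)).card : ℝ) := by
    calc ∑ g ∈ (U \ U0) \ M, ρ g ≤ ∑ g ∈ (U \ U0) \ M, (1 : ℝ) :=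
          sum_le_sum fun g hg => (hρ g (hsub2 hg)).2
      _ = (((U \ U0) \ M).card : ℝ) := by simp
      _ ≤ ((U \ U0).card : ℝ) := by exact_mod_cast card_le_card sdiff_subset
  have c1 : ((U0 \ X).card : ℝ) = (U0.card : ℝ) - X.card := card_sdiff_cast hXU
  have c2 : ((U \ U0).card : ℝ) = (U.card : ℝ) - U0.card := card_sdiff_cast hU
  have c3 : (U.card : ℝ) + 1 ≤ D.card := by exact_mod_cast hlt
  have c4 : (X.card : ℝ) ≤ U.card := by exact_mod_cast card_le_card hXU'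
  have hn : (0 : ℝ) < (D.card : ℝ) - X.card := by linarith
  have hm : (∑ g ∈ U0 \ X, ρ g) + ∑ g ∈ (U \ U0) \ M, ρ g ≤ (D.card : ℝ) - X.card := by
    linarith
  have hq : ((∑ g ∈ U0 \ X, ρ g) + ∑ g ∈ (U \ U0) \ M, ρ g) / ((D.card : ℝ) - X.card) ≤ 1 := by
    rw [div_le_one hn]
    exact hm
  have hq0 : 0 ≤ ((∑ g ∈ U0 \ X, ρ g) + ∑ g ∈ (U \ U0) \ M, ρ g) / ((D.card : ℝ) - X.card) :=
    div_nonneg (by linarith) hn.le
  have := Real.log_nonpos
    (x := 1 - ((∑ g ∈ U0 \ X, ρ g) + ∑ g ∈ (U \ U0) \ M, ρ g) / ((D.card : ℝ) - X.card))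
    (by linarith) (by linarith)
  linarith

theorem SGc_nonneg (τ : Finset α → Lab) (D : Finset α) (ρ : Finset α → α → ℝ)
    (mk : Finset α → Finset α)
    (hρ : ∀ X ⊆ D, ∀ g ∈ D \ X, 0 < ρ X g ∧ ρ X g ≤ 1) : 0 ≤ SGc τ D ρ mk := by
  unfold SGc
  refine sum_nonneg fun X hX => ?_
  rw [mem_powerset] at hX
  have h1 : 0 ≤ ∑ g ∈ D \ X, PP1 τ D X g * (Real.log ((D \ X).card : ℝ) - Real.log (ρ X g)) := by
    refine sum_nonneg fun g hg => ?_
    have hp : 0 ≤ PP1 τ D X g := by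
      unfold PP1
      refine sum_nonneg fun V hV => ?_
      rw [mem_powerset] at hV
      exact pe_nn τ (hV.trans (erase_subset _ _))
    have hr := hρ X hX g hg
    have hl : Real.log (ρ X g) ≤ 0 := Real.log_nonpos hr.1.le hr.2
    have hn : 0 ≤ Real.log ((D \ X).card : ℝ) := Real.log_natCast_nonneg _
    exact mul_nonneg hp (by linarith)
  have h2 : 0 ≤ ∑ V ∈ D.powerset, ∑ x ∈ D \ V,
      (pe1 τ D X V x * ec τ D (SS ρ mk D X (insert x V)) (insert x V) +
        pe τ D X V x * gm mk D (insert x V)) := by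
    refine sum_nonneg fun V hV => sum_nonneg fun x hx => ?_
    rw [mem_powerset] at hV
    have hx' := mem_sdiff.1 hx
    have e1 : 0 ≤ pe1 τ D X V x * ec τ D (SS ρ mk D X (insert x V)) (insert x V) := by
      by_cases hXV : X ⊆ V
      · refine mul_nonneg (pe1_nn τ hV) ?_
        refine ec_nonneg τ D (insert x V) _ ?_ (Subset.refl _) (insert_subset hx'.1 hV)
        intro U hU hUD hne
        unfold SS
        exact sc_nonneg (hXV.trans (subset_insert _ _)) hU hUD hne (hρ X hX)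
      · rw [pe1_zero τ hXV, zero_mul]
    have e2 : 0 ≤ pe τ D X V x * gm mk D (insert x V) :=
      mul_nonneg (pe_nn τ hV) (gm_nonneg _ _ _)
    linarith
  have h3 : 0 ≤ ∑ V ∈ D.powerset, (pv1 τ D X V * ev τ D (SS ρ mk D X V) V +
      pv τ D X V * gm mk D V) := by
    refine sum_nonneg fun V hV => ?_
    rw [mem_powerset] at hV
    have e1 : 0 ≤ pv1 τ D X V * ev τ D (SS ρ mk D X V) V := by
      by_cases hXV : X ⊆ V
      · refine mul_nonneg (pv1_nn τ) ?_
        refine ev_nonneg τ D _ ?_ hV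
        intro U hU hUD hne
        unfold SS
        exact sc_nonneg hXV hU hUD hne (hρ X hX)
      · rw [pv1_zero τ hXV, zero_mul]
    have e2 : 0 ≤ pv τ D X V * gm mk D V :=
      mul_nonneg (pv_nn τ) (gm_nonneg _ _ _)
    linarith
  linarith

end VLBQ

theorem stmt_VLB (α : Type) [DecidableEq α] : Stmt_VLB α := by
  intro τ D _ _ _
  refine ⟨Real.log (D.card : ℝ) * (PEL τ D + PEL (dual τ D) D) + COST1 τ D, ?_⟩
  intro ρS ρT mS mT hS hT
  have h1 := VLBQ.SGc_nonneg τ D ρS mS hS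
  have h2 := VLBQ.SGc_nonneg (dual τ D) D ρT mT hT
  unfold VALc
  linarith

end R5
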