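import Pool.Agent.Work.MP_8b6acb_cap.Asm
import Pool.Agent.Work.MP_8b6acb_fq.CUTQ
import Pool.Agent.Work.MP_8b6acb_fq.ENGINE
import Pool.Agent.Work.MP_8b6acb_fq.FPARTQ
import Pool.Agent.Work.MP_8b6acb_fq.HALLM
import Pool.Agent.Work.MP_8b6acb_fq.KLOG
import Pool.Agent.Work.MP_8b6acb_fq.KSUM
import Pool.Agent.Work.MP_8b6acb_fq.LPARTQ
import Pool.Agent.Work.MP_8b6acb_fq.MACL
import Pool.Agent.Work.MP_8b6acb_fq.MAINNETQ
import Pool.Agent.Work.MP_8b6acb_fq.MINC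
import Pool.Agent.Work.MP_8b6acb_fq.OBJEQ
import Pool.Agent.Work.MP_8b6acb_fq.OBJXQ
import Pool.Agent.Work.MP_8b6acb_fq.ORD
import Pool.Agent.Work.MP_8b6acb_fq.ORDV
import Pool.Agent.Work.MP_8b6acb_fq.PPQ
import Pool.Agent.Work.MP_8b6acb_fq.TYPEQ
import Pool.Agent.Work.MP_8b6acb_fq.VLB

/-! # The engine: assembly of the blocks -/

namespace R5

theorem fq_ksum (α : Type) [DecidableEq α] : Stmt_KSUM α := stmt_KSUM α stmt_MACL

theorem fq_obje (α : Type) [Fintype α] [DecidableEq α] : Stmt_OBJEQ α :=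
  stmt_OBJEQ (stmt_ONE stmt_GIBBS) stmt_ORD (fq_ksum α) (stmt_KLOG α)

theorem fq_objx (α : Type) [Fintype α] [DecidableEq α] : Stmt_OBJXQ α :=
  stmt_OBJXQ (stmt_ONE stmt_GIBBS) (stmt_ORDV stmt_ORD) (fq_ksum α) (stmt_KLOG α)

theorem fq_lpart (α : Type) [Fintype α] [DecidableEq α] : Stmt_LPARTQ α :=
  stmt_LPARTQ α (fq_obje α) (fq_objx α) (stmt_NETE α) (stmt_NETX α)

theorem fq_type (α : Type) [DecidableEq α] : Stmt_TYPEQ α :=
  stmt_TYPEQ stmt_YSUM (stmt_MASS stmt_GMASS) stmt_SWL stmt_SWF stmt_CONST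

theorem fq_mainnet (α : Type) [Fintype α] [DecidableEq α] : Stmt_MAINNETQ α :=
  stmt_MAINNETQ α (fq_lpart α) (stmt_FPARTQ α (fq_lpart α)) (fq_type α)
    (stmt_MASS stmt_GMASS) stmt_GIBBS

theorem fq_cut (α : Type) [Fintype α] [DecidableEq α] : Stmt_CUTQ α :=
  stmt_CUTQ α (fq_mainnet α) (stmt_VLB α) stmt_HALLM

theorem fq_pp (α : Type) [Fintype α] [DecidableEq α] : Stmt_PPQ α :=
  stmt_PPQ α (fq_cut α) (stmt_MINC α)

/-- **The engine.** The typewise inequality implies the linking property. -/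
theorem engine : Stmt_ENGINE := stmt_ENGINE (fun d => fq_pp (Fin d))

end R5

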