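import Pool.Agent.Work.MP_8b6acb_fq.Interface

/-! # Basic facts on sequences -/

namespace R5

open Finset

variable {α : Type} [DecidableEq α]

theorem seqs_zero (G : Finset α) : seqs 0 G = {[]} := rfl

theorem seqs_succ (r : ℕ) (G : Finset α) :
    seqs (r + 1) G = G.biUnion fun g => (seqs r (G.erase g)).image (List.cons g) := rfl

theorem mem_seqs_succ {r : ℕ} {G : Finset α} {l : List α} :
    l ∈ seqs (r + 1) G ↔ ∃ g ∈ G, ∃ π ∈ seqs r (G.erase g), l = g :: π := by
  rw [seqs_succ]
  simp only [mem_biUnion, mem_image]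
  constructor
  · rintro ⟨g, hg, π, hπ, rfl⟩
    exact ⟨g, hg, π, hπ, rfl⟩
  · rintro ⟨g, hg, π, hπ, rfl⟩
    exact ⟨g, hg, π, hπ, rfl⟩

theorem sum_seqs_succ (r : ℕ) (G : Finset α) (f : List α → ℝ) :
    ∑ π ∈ seqs (r + 1) G, f π = ∑ g ∈ G, ∑ π ∈ seqs r (G.erase g), f (g :: π) := by
  rw [seqs_succ, sum_biUnion]
  · refine sum_congr rfl fun g _ => ?_
    rw [sum_image]
    intro a _ b _ h
    exact (List.cons.inj h).2
  · intro g _ g' _ hne
    rw [Function.onFun, Finset.disjoint_left]
    rintro l h1 h2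
    rw [mem_image] at h1 h2
    obtain ⟨π, -, rfl⟩ := h1
    obtain ⟨π', -, h⟩ := h2
    exact hne (List.cons.inj h).1.symm

/-- Sequences of `r` distinct elements of `G`. -/
theorem mem_seqs {r : ℕ} {G : Finset α} {l : List α} :
    l ∈ seqs r G ↔ l.Nodup ∧ l.length = r ∧ ∀ x ∈ l, x ∈ G := by
  induction r generalizing G l with
  | zero =>
    rw [seqs_zero, mem_singleton]
    constructor
    · rintro rfl; simp
    · rintro ⟨-, h, -⟩; exact List.length_eq_zero_iff.1 h
  | succ r ih =>
    rw [mem_seqs_succ]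
    constructor
    · rintro ⟨g, hg, π, hπ, rfl⟩
      obtain ⟨h1, h2, h3⟩ := ih.1 hπ
      refine ⟨List.nodup_cons.2 ⟨fun h => (mem_erase.1 (h3 g h)).1 rfl, h1⟩, by simp [h2], ?_⟩
      intro x hx
      rcases List.mem_cons.1 hx with rfl | h
      · exact hg
      · exact (mem_erase.1 (h3 x h)).2
    · rintro ⟨h1, h2, h3⟩
      cases l with
      | nil => simp at h2
      | cons g π =>
        rw [List.nodup_cons] at h1
        refine ⟨g, h3 g (List.mem_cons_self), π, ih.2 ⟨h1.2, by simpa using h2, ?_⟩, rfl⟩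
        intro x hx
        exact mem_erase.2 ⟨fun h => h1.1 (h ▸ hx), h3 x (List.mem_cons_of_mem _ hx)⟩

theorem toFinset_eq_of_mem_seqs {G : Finset α} {l : List α} (h : l ∈ seqs G.card G) :
    l.toFinset = G := by
  obtain ⟨h1, h2, h3⟩ := mem_seqs.1 h
  refine eq_of_subset_of_card_le (fun x hx => h3 x (List.mem_toFinset.1 hx)) ?_
  rw [List.toFinset_card_of_nodup h1, h2]

theorem card_seqs_card (G : Finset α) : (seqs G.card G).card = G.card.factorial := by
  have h : ∀ (r : ℕ) (G : Finset α), G.card = r → ((seqs r G).card : ℝ) = (r.factorial : ℝ) := by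
    intro r
    induction r with
    | zero => intro G _; simp [seqs_zero]
    | succ r ih =>
      intro G hG
      have h1 := sum_seqs_succ r G (fun _ => (1 : ℝ))
      simp only [sum_const, nsmul_eq_mul, mul_one] at h1
      rw [h1]
      have h2 : ∀ g ∈ G, ((seqs r (G.erase g)).card : ℝ) = (r.factorial : ℝ) := fun g hg =>
        ih (G.erase g) (by rw [card_erase_of_mem hg, hG]; rfl)
      rw [sum_congr rfl h2, sum_const, hG, nsmul_eq_mul, Nat.factorial_succ]
      push_cast
      ring
  exact_mod_cast h _ G rfl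

/-- The sequences of the remaining elements of the sinks are sequences of elements outside. -/
theorem seqs_mono {r : ℕ} {G G' : Finset α} (h : G ⊆ G') : seqs r G ⊆ seqs r G' := by
  intro l hl
  obtain ⟨h1, h2, h3⟩ := mem_seqs.1 hl
  exact mem_seqs.2 ⟨h1, h2, fun x hx => h (h3 x hx)⟩

theorem ecn_succ (τ : Finset α → Lab) (D : Finset α) (c : Finset α → ℝ) (n : ℕ) (U : Finset α) :
    ecn τ D c (n + 1) U = if τ U = Lab.B then
      c U * bw τ D U + (∑ x ∈ D \ U, ecn τ D c n (insert x U)) / ((n : ℝ) + 1) else 0 := rfl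

/-- The recursion for `ec`. -/
theorem ec_rec {τ : Finset α → Lab} {D : Finset α} (c : Finset α → ℝ) {U : Finset α}
    (h : (D \ U).Nonempty) :
    ec τ D c U = if τ U = Lab.B then
      c U * bw τ D U + (∑ x ∈ D \ U, ec τ D c (insert x U)) / ((D \ U).card : ℝ) else 0 := by
  obtain ⟨n, hn⟩ : ∃ n, (D \ U).card = n + 1 := Nat.exists_eq_succ_of_ne_zero (card_pos.2 h).ne'
  have h1 : ∀ x ∈ D \ U, (D \ insert x U).card = n := by
    intro x hx
    have e : D \ insert x U = (D \ U).erase x := by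
      ext y; simp only [mem_sdiff, mem_insert, mem_erase]; tauto
    rw [e, card_erase_of_mem hx, hn]; rfl
  unfold ec
  rw [hn, ecn_succ]
  by_cases hB : τ U = Lab.B
  · rw [if_pos hB, if_pos hB]
    congr 1
    push_cast
    congr 1
    refine sum_congr rfl fun x hx => ?_
    rw [h1 x hx]
  · rw [if_neg hB, if_neg hB]

theorem ec_top {τ : Finset α → Lab} {D : Finset α} (c : Finset α → ℝ) {U : Finset α}
    (h : D ⊆ U) : ec τ D c U = 0 := by
  unfold ec
  rw [sdiff_eq_empty_iff_subset.2 h]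
  rfl

end R5
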