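import Pool.Agent.Work.MP_8b6acb_fq.Defs

/-!
# Interface: the statements of the blocks of the engine
-/

namespace R5

open Finset MP_8b6acb_co

/-! ## Part I: types -/

section Types

variable (α : Type) [DecidableEq α]

/-- Good orders. -/
def Stmt_ORD : Prop := ∀ (τ : Finset α → Lab) (D U : Finset α), U ⊆ D → τ D = Lab.B →
  (∑ π ∈ seqs (D \ U).card (D \ U), gd τ U π = ((D \ U).card.factorial : ℝ) * bw τ D U) ∧
  ∀ c : Finset α → ℝ, ∑ π ∈ seqs (D \ U).card (D \ U), gd τ U π * csum c U π =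
    ((D \ U).card.factorial : ℝ) * ec τ D c U

/-- Good orders above a cut vertex. -/
def Stmt_ORDV : Prop := ∀ (τ : Finset α → Lab) (D V : Finset α), V ⊆ D → V ≠ D → τ D = Lab.B →
  (∑ π ∈ seqs (D \ V).card (D \ V), gdv τ V π = ((D \ V).card.factorial : ℝ) * bwb τ D V) ∧
  ∀ c : Finset α → ℝ, ∑ π ∈ seqs (D \ V).card (D \ V), gdv τ V π * csum c V π =
    ((D \ V).card.factorial : ℝ) * ev τ D c V

/-- The typewise identity: everything except `VALc` cancels. -/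
def Stmt_TYPEQ : Prop := ∀ (τ : Finset α → Lab) (D : Finset α) (μ ν : Finset α → ℝ)
  (mS mT : Finset α → Finset α),
  τ ∅ = Lab.A → τ D = Lab.B → D.Nonempty →
  (∀ V ⊆ D, 0 < μ V) → (∀ V ⊆ D, 0 < ν V) →
  VALc τ D (fun X g => μ (insert g X) / μ X) mS (fun U g => ν (D \ insert g U) / ν (D \ U)) mT +
      Zt τ D * Real.log (D.card : ℝ) - ab τ D ∅ / ((D.card : ℝ) + 1) * Real.log (μ ∅) -
      aw τ D / ((D.card : ℝ) + 1) * Real.log (ν D) =
    LVc τ D (fun X g => μ (insert g X) / μ X) mS (fun V => -Real.log (ν V)) +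
    LVc (dual τ D) D (fun U g => ν (D \ insert g U) / ν (D \ U)) mT
      (fun U => -Real.log (μ (D \ U)))

/-- A lower bound for the value that does not depend on the densities. -/
def Stmt_VLB : Prop := ∀ (τ : Finset α → Lab) (D : Finset α), τ ∅ = Lab.A → τ D = Lab.B →
  D.Nonempty → ∃ K : ℝ, ∀ (ρS ρT : Finset α → α → ℝ) (mS mT : Finset α → Finset α),
  (∀ X ⊆ D, ∀ g ∈ D \ X, 0 < ρS X g ∧ ρS X g ≤ 1) →
  (∀ X ⊆ D, ∀ g ∈ D \ X, 0 < ρT X g ∧ ρT X g ≤ 1) →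
  -K ≤ VALc τ D ρS mS ρT mT

/-! ## Part II: the kernel -/

/-- Maclaurin's inequality in ordered form. -/
def Stmt_MACL : Prop := ∀ (ρ : α → ℝ) (M : Finset α) (k : ℕ), (∀ g ∈ M, 0 ≤ ρ g) → k ≤ M.card →
  ∑ π ∈ seqs k M, (π.map ρ).prod ≤
    (∏ i ∈ range k, (((M.card : ℝ) - i) / (M.card : ℝ))) * (∑ g ∈ M, ρ g) ^ k

/-- The kernel is a sub-probability. -/
def Stmt_KSUM : Prop := ∀ (ρ : α → ℝ) (M G : Finset α) (N : ℝ) (r : ℕ), M ⊆ G →
  (∀ g ∈ G, 0 ≤ ρ g) → ∑ g ∈ G, ρ g ≤ N →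
  ∑ π ∈ seqs r G, kc ρ M N π ∅ 0 ≤ 1

/-- The logarithm of the kernel. -/
def Stmt_KLOG : Prop := ∀ (ρ : α → ℝ) (n : ℝ) (X U0 M R : Finset α), X ⊆ U0 → Disjoint U0 R →
  (∀ g ∈ U0 \ X, 0 ≤ ρ g) → (∀ g ∈ R, 0 < ρ g) → 0 < n →
  ∑ g ∈ U0 \ X, ρ g + ∑ g ∈ R, ρ g ≤ n →
  ∀ π ∈ seqs R.card R, 0 < kc ρ M (n - ∑ g ∈ U0 \ X, ρ g) π ∅ 0 ∧
    Real.log (kc ρ M (n - ∑ g ∈ U0 \ X, ρ g) π ∅ 0) =
      (∑ g ∈ R, Real.log (ρ g)) - (R.card : ℝ) * Real.log n + csum (sc ρ n X U0 M) U0 π +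
      gg M.card (M ∩ R).card

end Types

/-! ## Part III: the network -/

section Network

variable (α : Type) [Fintype α] [DecidableEq α]

/-- The entropy inequality of one cut edge, colour L. -/
def Stmt_OBJEQ : Prop := ∀ (c : Finset α → Lab) (i j : ℕ) (S T : Finset (Finset α))
  (a b : Finset α → ℝ) (mk : Finset α → Finset α → Finset α), Net c i j S T a b →
  (∀ s u, Disjoint (mk s u) u) → ∀ e ∈ netE c i j S T,
  ∑ s ∈ S.filter (fun s => s ⊆ e.1), ∑ t ∈ T.filter (fun t => insert e.2 e.1 ⊆ t), a s * b t *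
    ((∑ X ∈ (t \ s).powerset, (pe (ty c s) (t \ s) X (e.1 \ s) e.2 *
        KV (fun X g => MU c T a b s (s ∪ insert g X) / MU c T a b s (s ∪ X))
          (fun U => mk s (s ∪ U)) (t \ s) X (insert e.2 (e.1 \ s)) +
        pe1 (ty c s) (t \ s) X (e.1 \ s) e.2 * ec (ty c s) (t \ s)
          (SS (fun X g => MU c T a b s (s ∪ insert g X) / MU c T a b s (s ∪ X))
            (fun U => mk s (s ∪ U)) (t \ s) X (insert e.2 (e.1 \ s))) (insert e.2 (e.1 \ s)))) +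
      yLe (ty c s) (t \ s) (e.1 \ s) e.2 * (-Real.log (NU c S a b t (s ∪ (e.1 \ s))) +
        Real.log (Zt (ty c s) (t \ s) / y1e (ty c s) (t \ s) (e.1 \ s)))) ≤
    -(WE c S T a b e.1 e.2 * Real.log (WE c S T a b e.1 e.2))

/-- The entropy inequality of one cut vertex, colour L. -/
def Stmt_OBJXQ : Prop := ∀ (c : Finset α → Lab) (i j : ℕ) (S T : Finset (Finset α))
  (a b : Finset α → ℝ) (mk : Finset α → Finset α → Finset α), Net c i j S T a b →
  (∀ s u, Disjoint (mk s u) u) → ∀ v ∈ netX c i j,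
  ∑ s ∈ S.filter (fun s => s ⊆ v), ∑ t ∈ T.filter (fun t => v ⊆ t), a s * b t *
    ((∑ X ∈ (t \ s).powerset, (pv (ty c s) (t \ s) X (v \ s) *
        KV (fun X g => MU c T a b s (s ∪ insert g X) / MU c T a b s (s ∪ X))
          (fun U => mk s (s ∪ U)) (t \ s) X (v \ s) +
        pv1 (ty c s) (t \ s) X (v \ s) * ev (ty c s) (t \ s)
          (SS (fun X g => MU c T a b s (s ∪ insert g X) / MU c T a b s (s ∪ X))
            (fun U => mk s (s ∪ U)) (t \ s) X (v \ s)) (v \ s))) +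
      yLv (ty c s) (t \ s) (v \ s) * (-Real.log (NU c S a b t (s ∪ (v \ s))) +
        Real.log (Zt (ty c s) (t \ s) / y1v (ty c s) (t \ s) (v \ s)))) ≤
    -(WX c S T a b v * Real.log (WX c S T a b v))

/-- The colour L part. -/
def Stmt_LPARTQ : Prop := ∀ (c : Finset α → Lab) (i j : ℕ) (S T : Finset (Finset α))
  (a b : Finset α → ℝ) (mk : Finset α → Finset α → Finset α), Net c i j S T a b →
  (∀ s u, Disjoint (mk s u) u) →
  ∑ s ∈ S, ∑ t ∈ T.filter (fun t => s ⊆ t), a s * b t *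
    LVc (ty c s) (t \ s)
      (fun X g => MU c T a b s (s ∪ insert g X) / MU c T a b s (s ∪ X))
      (fun U => mk s (s ∪ U))
      (fun V => -Real.log (NU c S a b t (s ∪ V))) ≤
  (∑ e ∈ netE c i j S T, (WE c S T a b e.1 e.2 *
      Real.log (((e.1.card : ℝ) - i + 1) / ((j : ℝ) - i + 1)) -
      WE c S T a b e.1 e.2 * Real.log (WE c S T a b e.1 e.2))) +
  ∑ v ∈ netX c i j, (WX c S T a b v *
      (Real.log ((j : ℝ) - i) + Real.log (((v.card : ℝ) - i) / ((j : ℝ) - i))) -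
      WX c S T a b v * Real.log (WX c S T a b v))

/-- The colour F part (the mirror image of `LPARTQ`). -/
def Stmt_FPARTQ : Prop := ∀ (c : Finset α → Lab) (i j : ℕ) (S T : Finset (Finset α))
  (a b : Finset α → ℝ) (mk : Finset α → Finset α → Finset α), Net c i j S T a b →
  (∀ t v, mk t v ⊆ v) →
  ∑ s ∈ S, ∑ t ∈ T.filter (fun t => s ⊆ t), a s * b t *
    LVc (dual (ty c s) (t \ s)) (t \ s)
      (fun U g => NU c S a b t (s ∪ ((t \ s) \ insert g U)) / NU c S a b t (s ∪ ((t \ s) \ U)))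
      (fun U => mk t (s ∪ ((t \ s) \ U)))
      (fun U => -Real.log (MU c T a b s (s ∪ ((t \ s) \ U)))) ≤
  (∑ e ∈ netE c i j S T, (WFE c S T a b e.1 e.2 *
      Real.log (((j : ℝ) - e.1.card) / ((j : ℝ) - i + 1)) -
      WFE c S T a b e.1 e.2 * Real.log (WFE c S T a b e.1 e.2))) +
  ∑ v ∈ netX c i j, (WFX c S T a b v *
      (Real.log ((j : ℝ) - i) + Real.log (((j : ℝ) - v.card) / ((j : ℝ) - i))) -
      WFX c S T a b v * Real.log (WFX c S T a b v))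

/-- The main network inequality for the capacity `q`. -/
def Stmt_MAINNETQ : Prop := ∀ (c : Finset α → Lab) (i j : ℕ) (S T : Finset (Finset α))
  (a b : Finset α → ℝ) (κ : ℝ) (q : ℕ) (mS mT : Finset α → Finset α → Finset α),
  Net c i j S T a b → 0 < κ → 1 ≤ q → (∀ s u, Disjoint (mS s u) u) → (∀ t v, mT t v ⊆ v) →
  (∀ s ∈ S, MU c T a b s s ≤ κ) → (∀ t ∈ T, NU c S a b t t ≤ κ) →
  ∀ W : ℝ, W = ∑ s ∈ S, ∑ t ∈ T.filter (fun t => s ⊆ t), a s * b t * Zt (ty c s) (t \ s) →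
  0 < W →
  ∑ s ∈ S, ∑ t ∈ T.filter (fun t => s ⊆ t), a s * b t *
    (VALc (ty c s) (t \ s)
        (fun X g => MU c T a b s (s ∪ insert g X) / MU c T a b s (s ∪ X))
        (fun U => mS s (s ∪ U))
        (fun U g => NU c S a b t (s ∪ ((t \ s) \ insert g U)) / NU c S a b t (s ∪ ((t \ s) \ U)))
        (fun U => mT t (s ∪ ((t \ s) \ U))) +
      Real.log (((j : ℝ) - i) / (q : ℝ)) *
        (PEL (ty c s) (t \ s) + PEL (dual (ty c s) (t \ s)) (t \ s))) ≤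
    W * Real.log (κ * (((netE c i j S T).card : ℝ) + (q : ℝ) * ((netX c i j).card : ℝ)) /
      ((q : ℝ) * W))

/-- The typewise inequality for cubes of dimension `l` and the capacity `q` (the input of the
engine). `L`, `L'` = all light elements at the bottom and at the top (also outside the cube). -/
def Stmt_TI (l q : ℕ) : Prop := ∀ (τ : Finset α → Lab) (D L L' : Finset α)
  (ρ ρ' : Finset α → α → ℝ), D.card = l → τ ∅ = Lab.A → τ D = Lab.B →
  (∀ x ∈ D, (x ∈ L ↔ τ {x} = Lab.B)) → (∀ x ∈ D, (x ∈ L' ↔ τ (D.erase x) = Lab.A)) →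
  L.card + L'.card + 1 ≤ q →
  (∀ X ⊆ D, ∀ g ∈ D \ X, 0 < ρ X g ∧ ρ X g ≤ 1) →
  (∀ X ⊆ D, ∀ g ∈ D \ X, 0 < ρ' X g ∧ ρ' X g ≤ 1) →
  0 ≤ VALc τ D ρ (lmk L) ρ' (lmk L') +
    Real.log ((l : ℝ) / (q : ℝ)) * (PEL τ D + PEL (dual τ D) D)

/-- Entries outside the perfect matchings of an almost doubly stochastic matrix are small. -/
def Stmt_HALLM : Prop := ∀ (σ θ : Type) [DecidableEq σ] [DecidableEq θ] (S : Finset σ)
  (T : Finset θ) (R : σ → θ → Prop) (w : σ → θ → ℝ) (ε : ℝ) (φ : σ → θ), 0 ≤ ε →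
  Set.InjOn φ S → S.image φ = T → (∀ s ∈ S, R s (φ s)) →
  (∀ s ∈ S, ∀ t ∈ T, 0 ≤ w s t) → (∀ s ∈ S, ∀ t ∈ T, ¬ R s t → w s t = 0) →
  (∀ s ∈ S, |(∑ t ∈ T, w s t) - 1| ≤ ε) → (∀ t ∈ T, |(∑ s ∈ S, w s t) - 1| ≤ ε) →
  ∀ s0 ∈ S, ∀ t0 ∈ T,
  (∃ φ' : σ → θ, Set.InjOn φ' S ∧ S.image φ' = T ∧ (∀ s ∈ S, R s (φ' s)) ∧ φ' s0 = t0) ∨
    w s0 t0 ≤ 2 * ε * (S.card : ℝ)

/-- Number of light elements of a source. -/
def nbS {α : Type} [Fintype α] [DecidableEq α] (c : Finset α → Lab) (s : Finset α) : ℕ :=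
  (univ.filter fun x => x ∉ s ∧ c (insert x s) = Lab.B).card

/-- Number of light elements of a sink. -/
def nbT {α : Type} [Fintype α] [DecidableEq α] (c : Finset α → Lab) (t : Finset α) : ℕ :=
  (t.filter fun x => c (t.erase x) = Lab.A).card

/-- The cut inequality. -/
def Stmt_CUTQ : Prop := ∀ (i j q : ℕ) (S : Finset (Finset α)) (φ : Finset α → Finset α)
  (c : Finset α → Lab), i + 2 ≤ j → 1 ≤ q → q ≤ j - i → Stmt_TI α (j - i) q → Mat i j S φ →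
  (∀ s ∈ S, c s = Lab.A) → (∀ t ∈ S.image φ, c t = Lab.B) →
  (∀ φ' : Finset α → Finset α, Mat i j S φ' → S.image φ' = S.image φ → ∀ s ∈ S,
    nbS c s + nbT c (φ' s) + 1 ≤ q) →
  q * S.card ≤ (netE c i j S (S.image φ)).card + q * (netX c i j).card

/-- A counterexample of minimal cardinality is minimal for every bijection. -/
def Stmt_MINC : Prop := ∀ (q i j : ℕ), ¬ PP α q i j →
  ∃ (S : Finset (Finset α)) (φ : Finset α → Finset α) (A : Finset (Finset α)),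
    MinCex q i j S φ A ∧
    ∀ φ' : Finset α → Finset α, Mat i j S φ' → S.image φ' = S.image φ → MinCex q i j S φ' A

/-- From the typewise inequality to the cut condition. -/
def Stmt_PPQ : Prop := ∀ (i j q : ℕ), i + 2 ≤ j → 1 ≤ q → q ≤ j - i → Stmt_TI α (j - i) q →
  PP α q i j

end Network

/-- The final statement of the engine. -/
def Stmt_ENGINE : Prop := ∀ (d i j q : ℕ), i + 2 ≤ j → 1 ≤ q → q ≤ j - i →
  Stmt_TI (Fin d) (j - i) q → ∀ (S T : Finset (Vtx d)),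
  (∀ s ∈ S, wt s = i) → (∀ t ∈ T, wt t = j) → Matched S T → HasEdgeDisjointLR q S T

end R5
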