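import Pool.Agent.Work.MP_8b6acb_fq.Basic
import Pool.Agent.Work.MP_8b6acb_co.MinCex

/-! Block MINC. -/

namespace R5

open Finset MP_8b6acb_co

theorem stmt_MINC (α : Type) [Fintype α] [DecidableEq α] : Stmt_MINC α := by
  classical
  intro q i j h
  unfold PP at h
  push Not at h
  have hex : ∃ n : ℕ, ∃ (S : Finset (Finset α)) (φ : Finset α → Finset α)
      (A : Finset (Finset α)), Mat i j S φ ∧ S.card = n ∧ S ⊆ A ∧
        (∀ u ∈ A, u ∈ S ∨ u ∈ Mid i j) ∧ cost q i j (S.image φ) A < q * S.card := by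
    obtain ⟨S, φ, hm, A, hSA, hA, hv⟩ := h
    exact ⟨_, S, φ, A, hm, rfl, hSA, hA, hv⟩
  obtain ⟨S, φ, A, hm, hc, hSA, hA, hv⟩ := Nat.find_spec hex
  have hmin : ∀ (S' : Finset (Finset α)) (φ' : Finset α → Finset α) (A' : Finset (Finset α)),
      Mat i j S' φ' → S' ⊂ S → S' ⊆ A' → (∀ u ∈ A', u ∈ S' ∨ u ∈ Mid i j) →
      q * S'.card ≤ cost q i j (S'.image φ') A' := by
    intro S' φ' A' h1 h2 h3 h4
    by_contra hlt
    rw [not_le] at hlt
    have h5 := Nat.find_min hex (m := S'.card) (by rw [← hc]; exact card_lt_card h2)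
    exact h5 ⟨S', φ', A', h1, rfl, h3, h4, hlt⟩
  obtain ⟨A0, hA0, hmin0⟩ := Finset.exists_min_image
    (univ.filter (fun A' : Finset (Finset α) => S ⊆ A' ∧ (∀ u ∈ A', u ∈ S ∨ u ∈ Mid i j)))
    (fun A' => cost q i j (S.image φ) A') ⟨A, by simp only [mem_filter, mem_univ, true_and]; exact ⟨hSA, hA⟩⟩
  simp only [mem_filter, mem_univ, true_and] at hA0 hmin0
  have key : ∀ φ' : Finset α → Finset α, Mat i j S φ' → S.image φ' = S.image φ →
      MinCex q i j S φ' A0 := by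
    intro φ' hm' him
    refine ⟨hm', hA0.1, hA0.2, ?_, ?_, ?_⟩
    · rw [him]; exact lt_of_le_of_lt (hmin0 A ⟨hSA, hA⟩) hv
    · intro S' hS' A' h1 h2
      exact hmin S' φ' A' (hm'.mono hS'.1) hS' h1 h2
    · intro A' h1 h2
      rw [him]; exact hmin0 A' ⟨h1, h2⟩
  exact ⟨S, φ, A0, key φ hm rfl, key⟩

end R5
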