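import Pool.Agent.Work.MP_8b6acb_fq.Basic
import Pool.Agent.Work.MP_8b6acb_cap.OBJ

/-! Blocks OBJEQ and OBJXQ: common part (helper76). -/

namespace R5

open Finset MP_8b6acb_co

/-! ### the kernel -/

theorem kc_nonneg {α : Type} [DecidableEq α] (ρ : α → ℝ) (M : Finset α) (N : ℝ) :
    ∀ (π : List α) (W : Finset α) (k : ℕ) (G : Finset α), π.Nodup → (∀ x ∈ π, x ∈ G) →
    (∀ g ∈ G, 0 ≤ ρ g) → Disjoint W G → (∑ g ∈ W, ρ g) + ∑ g ∈ G, ρ g ≤ N →
    k + (M ∩ G).card ≤ M.card → 0 ≤ kc ρ M N π W k := by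
  intro π
  induction π with
  | nil => intro W k G _ _ _ _ _ _; simp [kc]
  | cons x π ih =>
    intro W k G hnd hG hρ hd hN hk
    have hxG : x ∈ G := hG x List.mem_cons_self
    rw [List.nodup_cons] at hnd
    have hG' : ∀ y ∈ π, y ∈ G.erase x := fun y hy =>
      mem_erase.2 ⟨fun h => hnd.1 (h ▸ hy), hG y (List.mem_cons_of_mem _ hy)⟩
    have hρ' : ∀ g ∈ G.erase x, 0 ≤ ρ g := fun g hg => hρ g (mem_of_mem_erase hg)
    have hsG : 0 ≤ ∑ g ∈ G, ρ g := sum_nonneg hρ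
    have h1 : 0 ≤ ρ x / (N - ∑ h ∈ W, ρ h) := div_nonneg (hρ x hxG) (by linarith)
    have hsum : ρ x + ∑ g ∈ G.erase x, ρ g = ∑ g ∈ G, ρ g := add_sum_erase _ _ hxG
    unfold kc
    split_ifs with hM
    · have hxM : x ∈ M ∩ G := mem_inter.2 ⟨hM, hxG⟩
      have hc : (M ∩ G.erase x).card + 1 = (M ∩ G).card := by
        have e : M ∩ G.erase x = (M ∩ G).erase x := by
          ext y; simp only [mem_inter, mem_erase]; tauto
        rw [e, card_erase_of_mem hxM]
        have : 0 < (M ∩ G).card := card_pos.2 ⟨x, hxM⟩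
        omega
      have h2 : (0 : ℝ) ≤ (M.card : ℝ) / ((M.card : ℝ) - k) := by
        apply div_nonneg (Nat.cast_nonneg _)
        have : (k : ℝ) ≤ M.card := by
          have : k ≤ M.card := by omega
          exact_mod_cast this
        linarith
      refine mul_nonneg (mul_nonneg h1 h2) (ih W (k + 1) (G.erase x) hnd.2 hG' hρ' ?_ ?_ ?_)
      · exact hd.mono_right (erase_subset _ _)
      · have := hρ x hxG
        linarith
      · omega
    · have hxW : x ∉ W := fun h => (Finset.disjoint_left.1 hd h) hxG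
      refine mul_nonneg h1 (ih (insert x W) k (G.erase x) hnd.2 hG' hρ' ?_ ?_ ?_)
      · rw [Finset.disjoint_left]
        intro y hy hy2
        rw [mem_erase] at hy2
        rcases mem_insert.1 hy with h | h
        · exact hy2.1 h
        · exact (Finset.disjoint_left.1 hd h) hy2.2
      · rw [sum_insert hxW]
        linarith
      · have : (M ∩ G.erase x).card ≤ (M ∩ G).card :=
          card_le_card (inter_subset_inter_left (erase_subset _ _))
        omega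

/-! ### shifting the orders -/

theorem gd_ty {α : Type} [DecidableEq α] (c : Finset α → Lab) (s : Finset α) :
    ∀ (π : List α) (U : Finset α), gd (ty c s) U π = gd c (s ∪ U) π := by
  intro π
  induction π with
  | nil => intro U; rfl
  | cons x π ih =>
    intro U
    simp only [gd]
    rw [ih (insert x U), union_insert]
    rfl

theorem gdv_ty {α : Type} [DecidableEq α] (c : Finset α → Lab) (s : Finset α)
    (π : List α) (U : Finset α) : gdv (ty c s) U π = gdv c (s ∪ U) π := by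
  cases π with
  | nil => rfl
  | cons x π =>
    simp only [gdv]
    rw [gd_ty, union_insert]

theorem gd_01 {α : Type} [DecidableEq α] (τ : Finset α → Lab) :
    ∀ (π : List α) (U : Finset α), gd τ U π = 0 ∨ gd τ U π = 1 := by
  intro π
  induction π with
  | nil => intro U; simp only [gd]; split_ifs <;> simp
  | cons x π ih =>
    intro U
    simp only [gd]
    split_ifs
    · exact ih _
    · exact Or.inl rfl

theorem gdv_01 {α : Type} [DecidableEq α] (τ : Finset α → Lab) (π : List α) (U : Finset α) :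
    gdv τ U π = 0 ∨ gdv τ U π = 1 := by
  cases π with
  | nil => exact Or.inl rfl
  | cons x π => exact gd_01 τ π _

section net

variable {α : Type} [Fintype α] [DecidableEq α] {c : Finset α → Lab} {i j : ℕ}
  {S T : Finset (Finset α)} {a b : Finset α → ℝ}

/-- The densities. -/
noncomputable def rh (c : Finset α → Lab) (T : Finset (Finset α)) (a b : Finset α → ℝ)
    (s : Finset α) (X : Finset α) (g : α) : ℝ :=
  MU c T a b s (s ∪ insert g X) / MU c T a b s (s ∪ X)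

/-- The kernel of the `S`-side. -/
noncomputable def qk (c : Finset α → Lab) (i j : ℕ) (T : Finset (Finset α)) (a b : Finset α → ℝ)
    (mk : Finset α → Finset α → Finset α) (vp s X : Finset α) (π : List α) : ℝ :=
  kc (rh c T a b s X) (mk s vp) (((j : ℝ) - i - X.card) -
    ∑ g ∈ (vp \ s) \ X, rh c T a b s X g) π ∅ 0

theorem rh_nonneg (h : Net c i j S T a b) {s : Finset α} (hs : s ∈ S) (X : Finset α) (g : α) :
    0 ≤ rh c T a b s X g :=
  div_nonneg (h.MU_nonneg hs _) (h.MU_nonneg hs _)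

theorem rh_pos (h : Net c i j S T a b) {s X t : Finset α} (hs : s ∈ S) (ht : t ∈ T)
    (hst : s ⊆ t) (hX : X ⊆ t) {g : α} (hg : g ∈ t) : 0 < rh c T a b s X g :=
  div_pos (h.MU_pos hs ht (union_subset hst (insert_subset hg hX)))
    (h.MU_pos hs ht (union_subset hst hX))

/-- The available mass. -/
theorem rh_avail (h : Net c i j S T a b) {s X v vp t : Finset α} (hs : s ∈ S) (ht : t ∈ T)
    (hsv : s ⊆ v) (hX : X ⊆ v \ s) (hvp : v ⊆ vp) (hvt : vp ⊆ t) :
    (∑ g ∈ (vp \ s) \ X, rh c T a b s X g) + ∑ g ∈ univ \ vp, rh c T a b s X g =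
      (j : ℝ) - i - X.card := by
  have hd : Disjoint s X := by
    rw [Finset.disjoint_left]
    intro y h1 h2
    exact (mem_sdiff.1 (hX h2)).2 h1
  have hXt : X ⊆ t := (hX.trans sdiff_subset).trans (hvp.trans hvt)
  have hst : s ⊆ t := hsv.trans (hvp.trans hvt)
  have h1 := h.rho_sum hs hd (h.MU_pos hs ht (union_subset hst hXt))
  rw [← h1, ← sum_union]
  · refine sum_congr ?_ fun _ _ => rfl
    ext y
    simp only [mem_union, mem_sdiff, mem_univ, true_and, not_or]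
    constructor
    · rintro (⟨⟨_, h3⟩, h4⟩ | h2)
      · exact ⟨h3, h4⟩
      · exact ⟨fun h3 => h2 (hvp (hsv h3)), fun h3 => h2 (hvp (mem_sdiff.1 (hX h3)).1)⟩
    · rintro ⟨h3, h4⟩
      by_cases h2 : y ∈ vp
      · exact Or.inl ⟨⟨h2, h3⟩, h4⟩
      · exact Or.inr h2
  · rw [Finset.disjoint_left]
    intro y h2 h3
    simp only [mem_sdiff, mem_univ, true_and] at h2 h3
    exact h3 h2.1.1

/-- Positivity and logarithm of the kernel. -/
theorem qk_log (hKL : Stmt_KLOG α) (h : Net c i j S T a b)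
    (mk : Finset α → Finset α → Finset α) {s X v vp t : Finset α} (hs : s ∈ S) (ht : t ∈ T)
    (hsv : s ⊆ v) (hX : X ⊆ v \ s) (hvp : v ⊆ vp) (hvt : vp ⊆ t) (hvj : v.card < j)
    {π : List α} (hπ : π ∈ seqs (t \ vp).card (t \ vp)) :
    0 < qk c i j T a b mk vp s X π ∧
    Real.log ((t \ vp).card.factorial : ℝ) + Real.log (qk c i j T a b mk vp s X π) =
      KV (rh c T a b s) (fun U => mk s (s ∪ U)) (t \ s) X (vp \ s) +
      csum (SS (rh c T a b s) (fun U => mk s (s ∪ U)) (t \ s) X (vp \ s)) (vp \ s) π := by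
  have hst : s ⊆ t := hsv.trans (hvp.trans hvt)
  have hsvp : s ⊆ vp := hsv.trans hvp
  have hXt : X ⊆ t := (hX.trans sdiff_subset).trans (hvp.trans hvt)
  have hav := rh_avail h hs ht hsv hX hvp hvt
  have hn : (0 : ℝ) < (j : ℝ) - i - X.card := by
    have h1 : X.card ≤ (v \ s).card := card_le_card hX
    rw [card_sdiff_of_subset hsv, h.cS s hs] at h1
    have h2 : i ≤ v.card := by rw [← h.cS s hs]; exact card_le_card hsv
    have h3 : i + X.card < j := by omega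
    have h4 : (i : ℝ) + X.card < j := by exact_mod_cast h3
    linarith
  have hsub : t \ vp ⊆ univ \ vp := sdiff_subset_sdiff (subset_univ _) (Subset.refl _)
  have hle : (∑ g ∈ (vp \ s) \ X, rh c T a b s X g) + ∑ g ∈ t \ vp, rh c T a b s X g ≤
      (j : ℝ) - i - X.card := by
    have := sum_le_sum_of_subset_of_nonneg hsub
      (fun g _ _ => rh_nonneg h hs X g)
    linarith
  have hdis : Disjoint (vp \ s) (t \ vp) := by
    rw [Finset.disjoint_left]
    intro y h1 h2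
    exact (mem_sdiff.1 h2).2 (mem_sdiff.1 h1).1
  have hXU : X ⊆ vp \ s := hX.trans (sdiff_subset_sdiff hvp (Subset.refl _))
  obtain ⟨k1, k2⟩ := hKL (rh c T a b s X) ((j : ℝ) - i - X.card) X (vp \ s) (mk s vp) (t \ vp)
    hXU hdis (fun g _ => rh_nonneg h hs X g)
    (fun g hg => rh_pos h hs ht hst hXt (mem_sdiff.1 hg).1) hn hle π hπ
  refine ⟨k1, ?_⟩
  unfold qk
  rw [k2]
  unfold KV SS gm
  have eU : s ∪ (vp \ s) = vp := union_sdiff_of_subset hsvp
  have eD : (t \ s) \ (vp \ s) = t \ vp := by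
    ext z
    simp only [mem_sdiff, not_and, not_not]
    constructor
    · rintro ⟨⟨h1, h2⟩, h3⟩
      exact ⟨h1, fun h4 => h2 (h3 h4)⟩
    · rintro ⟨h1, h2⟩
      exact ⟨⟨h1, fun h3 => h2 (hsvp h3)⟩, fun h3 => absurd h3 h2⟩
  have c1 : ((t \ s).card : ℝ) = (j : ℝ) - i := by
    rw [card_sdiff_cast hst, h.cS s hs, h.cT t ht]
  have c2 : (t \ s).card - (vp \ s).card = (t \ vp).card := by
    rw [card_sdiff_of_subset hst, card_sdiff_of_subset hsvp, card_sdiff_of_subset hvt]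
    have := card_le_card hsvp
    have := card_le_card hvt
    omega
  have c3 : ((t \ s).card : ℝ) - ((vp \ s).card : ℝ) = ((t \ vp).card : ℝ) := by
    rw [card_sdiff_cast hst, card_sdiff_cast hsvp, card_sdiff_cast hvt]
    ring
  beta_reduce
  rw [eU, eD, c2, c3, c1]
  ring

/-- The kernel is a sub-probability. -/
theorem qk_sum (hKS : Stmt_KSUM α) (h : Net c i j S T a b)
    (mk : Finset α → Finset α → Finset α) (hmk : ∀ s u, Disjoint (mk s u) u)
    {s X v vp : Finset α} (hs : s ∈ S) (hsv : s ⊆ v) (hX : X ⊆ v \ s) (hvp : v ⊆ vp)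
    (T' : Finset (Finset α)) (hT' : ∀ t ∈ T', t ∈ T ∧ vp ⊆ t) :
    ∑ t ∈ T', ∑ π ∈ seqs (j - vp.card) (t \ vp), qk c i j T a b mk vp s X π ≤ 1 := by
  rcases T'.eq_empty_or_nonempty with hE | ⟨t0, ht0⟩
  · rw [hE, sum_empty]
    exact zero_le_one
  obtain ⟨ht0T, ht0v⟩ := hT' t0 ht0
  have hav := rh_avail h hs ht0T hsv hX hvp ht0v
  have hMG : mk s vp ⊆ univ \ vp := by
    intro y hy
    rw [mem_sdiff]
    exact ⟨mem_univ _, fun h1 => (Finset.disjoint_left.1 (hmk s vp) hy) h1⟩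
  have hN : ∑ g ∈ univ \ vp, rh c T a b s X g ≤
      ((j : ℝ) - i - X.card) - ∑ g ∈ (vp \ s) \ X, rh c T a b s X g := by linarith
  refine le_trans ?_ (hKS (rh c T a b s X) (mk s vp) (univ \ vp) _ (j - vp.card) hMG
    (fun g _ => rh_nonneg h hs X g) hN)
  rw [← sum_biUnion]
  · refine sum_le_sum_of_subset_of_nonneg ?_ ?_
    · intro π hπ
      rw [mem_biUnion] at hπ
      obtain ⟨t, _, hπ⟩ := hπ
      exact seqs_mono (sdiff_subset_sdiff (subset_univ _) (Subset.refl _)) hπ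
    · intro π hπ _
      obtain ⟨h1, _, h3⟩ := mem_seqs.1 hπ
      refine kc_nonneg _ _ _ π ∅ 0 (univ \ vp) h1 h3 (fun g _ => rh_nonneg h hs X g)
        (disjoint_empty_left _) ?_ ?_
      · rw [sum_empty, zero_add]
        exact hN
      · rw [Nat.zero_add]
        exact card_le_card inter_subset_left
  · intro t ht t' ht' hne
    rw [Function.onFun, Finset.disjoint_left]
    intro π h1 h2
    apply hne
    have h3 := hT' t (mem_coe.1 ht)
    have h4 := hT' t' (mem_coe.1 ht')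
    have c1 : (t \ vp).card = j - vp.card := by
      rw [card_sdiff_of_subset h3.2, h.cT t h3.1]
    have c2 : (t' \ vp).card = j - vp.card := by
      rw [card_sdiff_of_subset h4.2, h.cT t' h4.1]
    rw [← c1] at h1
    rw [← c2] at h2
    rw [← union_sdiff_of_subset h3.2, ← union_sdiff_of_subset h4.2,
      ← toFinset_eq_of_mem_seqs h1, ← toFinset_eq_of_mem_seqs h2]

/-- The common part of `OBJEQ` and `OBJXQ`. -/
theorem objq_gen (hO : Stmt_ONE) (hKS : Stmt_KSUM α) (hKL : Stmt_KLOG α)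
    (h : Net c i j S T a b) (mk : Finset α → Finset α → Finset α)
    (hmk : ∀ s u, Disjoint (mk s u) u) (v vp : Finset α) (hvp : v ⊆ vp) (hvj : v.card < j)
    (F0 : Finset α → Finset α → ℝ) (hF0 : ∀ s ∈ S, s ⊆ v → ∀ X, 0 ≤ F0 s X)
    (hY0 : ∀ s ∈ S, s ⊆ v → 0 < ∑ X ∈ (v \ s).powerset, F0 s X)
    (g0 : List α → ℝ) (hg0 : ∀ π, g0 π = 0 ∨ g0 π = 1)
    (B : Finset α → Finset α → ℝ) (E : Finset α → Finset α → (Finset α → ℝ) → ℝ)
    (hB : ∀ s ∈ S, s ⊆ v → ∀ t ∈ T, vp ⊆ t →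
      ∑ π ∈ seqs (t \ vp).card (t \ vp), g0 π = ((t \ vp).card.factorial : ℝ) * B s t)
    (hE : ∀ s ∈ S, s ⊆ v → ∀ t ∈ T, vp ⊆ t → ∀ cc : Finset α → ℝ,
      ∑ π ∈ seqs (t \ vp).card (t \ vp), g0 π * csum cc (vp \ s) π =
        ((t \ vp).card.factorial : ℝ) * E s t cc) :
    ∑ s ∈ S.filter (fun s => s ⊆ v), ∑ t ∈ T.filter (fun t => vp ⊆ t), a s * b t *
      ((∑ X ∈ (v \ s).powerset, (F0 s X * B s t *
        KV (rh c T a b s) (fun U => mk s (s ∪ U)) (t \ s) X (vp \ s) +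
        F0 s X * E s t (SS (rh c T a b s) (fun U => mk s (s ∪ U)) (t \ s) X (vp \ s)))) +
      (∑ X ∈ (v \ s).powerset, F0 s X) * B s t * (-Real.log (NU c S a b t v) +
        Real.log (Zt (ty c s) (t \ s) / ∑ X ∈ (v \ s).powerset, F0 s X))) ≤
    -((∑ s ∈ S.filter (fun s => s ⊆ v), ∑ t ∈ T.filter (fun t => vp ⊆ t), a s * b t *
        ((∑ X ∈ (v \ s).powerset, F0 s X) * B s t)) *
      Real.log (∑ s ∈ S.filter (fun s => s ⊆ v), ∑ t ∈ T.filter (fun t => vp ⊆ t), a s * b t *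
        ((∑ X ∈ (v \ s).powerset, F0 s X) * B s t))) := by
  obtain ⟨S', hS'⟩ : ∃ S', S' = S.filter (fun s => s ⊆ v) := ⟨_, rfl⟩
  obtain ⟨T', hT'⟩ : ∃ T', T' = T.filter (fun t => vp ⊆ t) := ⟨_, rfl⟩
  have mS : ∀ s, s ∈ S' ↔ s ∈ S ∧ s ⊆ v := fun s => by rw [hS', mem_filter]
  have mT : ∀ t, t ∈ T' ↔ t ∈ T ∧ vp ⊆ t := fun t => by rw [hT', mem_filter]
  rw [← hS', ← hT']
  obtain ⟨Y, hY⟩ : ∃ Y : Finset α → ℝ, Y = fun s => ∑ X ∈ (v \ s).powerset, F0 s X := ⟨_, rfl⟩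
  have hYs : ∀ s, ∑ X ∈ (v \ s).powerset, F0 s X = Y s := fun s => by rw [hY]
  simp only [hYs]
  have hcr : ∀ t ∈ T', (t \ vp).card = j - vp.card := by
    intro t ht
    have h1 := (mT t).1 ht
    rw [card_sdiff_of_subset h1.2, h.cT t h1.1]
  obtain ⟨r, hr⟩ : ∃ r, r = j - vp.card := ⟨_, rfl⟩
  have hfac : (0 : ℝ) < (r.factorial : ℝ) := by exact_mod_cast Nat.factorial_pos r
  -- the data
  obtain ⟨P, hP⟩ : ∃ P : Finset ((_ : Finset α) × Finset α),
    P = S'.sigma (fun s => (v \ s).powerset) := ⟨_, rfl⟩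
  obtain ⟨Θ, hΘ⟩ : ∃ Θ : Finset ((_ : Finset α) × List α),
    Θ = T'.sigma (fun t => seqs r (t \ vp)) := ⟨_, rfl⟩
  have mP : ∀ q : (_ : Finset α) × Finset α, q ∈ P ↔ q.1 ∈ S' ∧ q.2 ⊆ v \ q.1 := by
    intro q
    rw [hP, mem_sigma, mem_powerset]
  have mΘ : ∀ q : (_ : Finset α) × List α, q ∈ Θ ↔ q.1 ∈ T' ∧ q.2 ∈ seqs r (q.1 \ vp) := by
    intro q
    rw [hΘ, mem_sigma]
  obtain ⟨F, hF⟩ : ∃ F : ((_ : Finset α) × Finset α) → ℝ, F = fun q => a q.1 * F0 q.1 q.2 :=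
    ⟨_, rfl⟩
  obtain ⟨G, hG⟩ : ∃ G : ((_ : Finset α) × List α) → ℝ,
    G = fun q => b q.1 * (g0 q.2 / (r.factorial : ℝ)) := ⟨_, rfl⟩
  obtain ⟨qT, hqT⟩ : ∃ qT : ((_ : Finset α) × List α) → Finset α → ℝ, qT = fun q s =>
    a s * b q.1 * Zt (ty c s) (q.1 \ s) / NU c S a b q.1 v := ⟨_, rfl⟩
  have hg0n : ∀ π, 0 ≤ g0 π := by
    intro π
    rcases hg0 π with h1 | h1 <;> rw [h1]
    exact zero_le_one
  have hFs : ∀ s ∈ S', ∑ q ∈ P.filter (fun q => q.1 = s), F q = a s * Y s := by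
    intro s hs
    rw [sum_filter, hP, sum_sigma, sum_eq_single s]
    · simp only [if_true]
      rw [hF, hY, mul_sum]
    · intro s' _ hne
      exact sum_eq_zero fun X _ => if_neg hne
    · intro hn
      exact absurd hs hn
  have hBs : ∀ s ∈ S', ∀ t ∈ T', ∑ π ∈ seqs r (t \ vp), g0 π / (r.factorial : ℝ) = B s t := by
    intro s hs t ht
    obtain ⟨hs1, hs2⟩ := (mS s).1 hs
    obtain ⟨ht1, ht2⟩ := (mT t).1 ht
    have h1 := hB s hs1 hs2 t ht1 ht2
    rw [hcr t ht, ← hr] at h1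
    rw [← sum_div, h1]
    field_simp
  have hEs : ∀ s ∈ S', ∀ t ∈ T', ∀ cc : Finset α → ℝ,
      ∑ π ∈ seqs r (t \ vp), g0 π / (r.factorial : ℝ) * csum cc (vp \ s) π = E s t cc := by
    intro s hs t ht cc
    obtain ⟨hs1, hs2⟩ := (mS s).1 hs
    obtain ⟨ht1, ht2⟩ := (mT t).1 ht
    have h1 := hE s hs1 hs2 t ht1 ht2 cc
    rw [hcr t ht, ← hr] at h1
    have h2 : ∑ π ∈ seqs r (t \ vp), g0 π / (r.factorial : ℝ) * csum cc (vp \ s) π =
        (∑ π ∈ seqs r (t \ vp), g0 π * csum cc (vp \ s) π) / (r.factorial : ℝ) := by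
      rw [sum_div]
      refine sum_congr rfl fun π _ => ?_
      ring
    rw [h2, h1]
    field_simp
  have hW : (∑ q ∈ P, F q) * (∑ q ∈ Θ, G q) = ∑ s ∈ S', ∑ t ∈ T', a s * b t * (Y s * B s t) := by
    rw [hP, hΘ, sum_sigma, sum_sigma, sum_mul]
    refine sum_congr rfl fun s hs => ?_
    rw [mul_sum]
    refine sum_congr rfl fun t ht => ?_
    rw [← hBs s hs t ht, hF, hG, hY]
    show (∑ X ∈ (v \ s).powerset, a s * F0 s X) *
      (∑ π ∈ seqs r (t \ vp), b t * (g0 π / (r.factorial : ℝ))) =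
      a s * b t * ((∑ X ∈ (v \ s).powerset, F0 s X) *
        ∑ π ∈ seqs r (t \ vp), g0 π / (r.factorial : ℝ))
    rw [← mul_sum, ← mul_sum]
    ring
  have hkey : ∀ q ∈ P, ∀ q' ∈ Θ, 0 < qk c i j T a b mk vp q.1 q.2 q'.2 := by
    intro q hqP q' hq'
    have h1 := (mS q.1).1 ((mP q).1 hqP).1
    have h2 := (mΘ q').1 hq'
    have h3 := (mT q'.1).1 h2.1
    refine (qk_log hKL h mk h1.1 h3.1 h1.2 ((mP q).1 hqP).2 hvp h3.2 hvj ?_).1
    rw [hcr q'.1 h2.1, ← hr]
    exact h2.2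
  have hmain := hO ((_ : Finset α) × Finset α) (Finset α) ((_ : Finset α) × List α) P S' Θ
    (fun q => q.1) F G (fun q q' => qk c i j T a b mk vp q.1 q.2 q'.2) qT
    (fun q hq => ((mP q).1 hq).1)
    (fun q hq => by
      have h1 := (mS q.1).1 ((mP q).1 hq).1
      rw [hF]
      exact mul_nonneg (h.pa _ h1.1).le (hF0 _ h1.1 h1.2 _))
    (fun q hq => by
      rw [hG]
      exact mul_nonneg (h.pb q.1 ((mT q.1).1 ((mΘ q).1 hq).1).1).le
        (div_nonneg (hg0n q.2) hfac.le))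
    (fun q hq q' hq' _ _ => hkey q hq q' hq')
    (fun q hq q' hq' _ _ => by
      have h1 := (mS q.1).1 ((mP q).1 hq).1
      have h2 := (mT q'.1).1 ((mΘ q').1 hq').1
      rw [hqT]
      exact div_pos (h.M h1.1 h2.1) (h.NU_pos h1.1 h2.1 h1.2))
    (fun q hq q' hq' => (hkey q hq q' hq').le)
    (fun q' hq' s hs => by
      have h1 := (mS s).1 hs
      have h2 := (mT q'.1).1 ((mΘ q').1 hq').1
      rw [hqT]
      exact div_nonneg (h.M h1.1 h2.1).le (h.NU_pos h1.1 h2.1 h1.2).le)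
    (fun q hqP => by
      have h1 := (mS q.1).1 ((mP q).1 hqP).1
      rw [hΘ, sum_sigma, hr]
      exact qk_sum hKS h mk hmk h1.1 h1.2 ((mP q).1 hqP).2 hvp T' (fun t ht => (mT t).1 ht))
    (fun q' hq' => by
      rw [hqT]
      show ∑ s ∈ S', a s * b q'.1 * Zt (ty c s) (q'.1 \ s) / NU c S a b q'.1 v ≤ 1
      rw [← sum_div]
      have e1 : ∑ s ∈ S', a s * b q'.1 * Zt (ty c s) (q'.1 \ s) = NU c S a b q'.1 v := by
        unfold NU
        rw [hS']
      rw [e1]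
      exact div_self_le_one _)
  rw [hW] at hmain
  rw [← neg_mul]
  refine le_trans (le_of_eq ?_) hmain
  have e1 : ∑ q ∈ P, ∑ q' ∈ Θ, F q * G q' * (Real.log (qk c i j T a b mk vp q.1 q.2 q'.2) +
      Real.log (qT q' q.1) - Real.log (∑ q'' ∈ P.filter (fun q'' => q''.1 = q.1), F q'') -
      Real.log (G q')) =
      ∑ s ∈ S', ∑ t ∈ T', ∑ X ∈ (v \ s).powerset, ∑ π ∈ seqs r (t \ vp), F ⟨s, X⟩ * G ⟨t, π⟩ *
        (Real.log (qk c i j T a b mk vp s X π) + Real.log (qT ⟨t, π⟩ s) -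
        Real.log (∑ q' ∈ P.filter (fun q' => q'.1 = s), F q') - Real.log (G ⟨t, π⟩)) := by
    conv_lhs => rw [hP]
    rw [sum_sigma]
    refine sum_congr rfl fun s _ => ?_
    symm
    rw [sum_comm]
    refine sum_congr rfl fun X _ => ?_
    rw [hΘ, sum_sigma, hP]
  rw [e1]
  refine sum_congr rfl fun s hs => sum_congr rfl fun t ht => ?_
  obtain ⟨hs1, hs2⟩ := (mS s).1 hs
  obtain ⟨ht1, ht2⟩ := (mT t).1 ht
  have ha := h.pa s hs1
  have hb := h.pb t ht1
  have hZ := h.Z hs1 t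
  have hN := h.NU_pos hs1 ht1 hs2
  have hYp : 0 < Y s := by
    rw [← hYs]
    exact hY0 s hs1 hs2
  rw [hFs s hs]
  have e2 : ∀ π, Real.log (qT ⟨t, π⟩ s) = Real.log (a s) + Real.log (b t) +
      Real.log (Zt (ty c s) (t \ s)) - Real.log (NU c S a b t v) := by
    intro π
    rw [hqT]
    show Real.log (a s * b t * Zt (ty c s) (t \ s) / NU c S a b t v) = _
    rw [Real.log_div (h.M hs1 ht1).ne' hN.ne', Real.log_mul (mul_pos ha hb).ne' hZ.ne',
      Real.log_mul ha.ne' hb.ne']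
  have e3 : ∀ X ∈ (v \ s).powerset, ∀ π ∈ seqs r (t \ vp), F ⟨s, X⟩ * G ⟨t, π⟩ *
        (Real.log (qk c i j T a b mk vp s X π) + Real.log (qT ⟨t, π⟩ s) -
        Real.log (a s * Y s) - Real.log (G ⟨t, π⟩)) =
      a s * b t * (F0 s X * ((g0 π / (r.factorial : ℝ)) *
        KV (rh c T a b s) (fun U => mk s (s ∪ U)) (t \ s) X (vp \ s)) +
        F0 s X * (g0 π / (r.factorial : ℝ) *
          csum (SS (rh c T a b s) (fun U => mk s (s ∪ U)) (t \ s) X (vp \ s)) (vp \ s) π) +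
        F0 s X * ((g0 π / (r.factorial : ℝ)) * (-Real.log (NU c S a b t v) +
          Real.log (Zt (ty c s) (t \ s) / Y s)))) := by
    intro X hX π hπ
    rw [mem_powerset] at hX
    have hF1 : F ⟨s, X⟩ = a s * F0 s X := by rw [hF]
    have hG1 : G ⟨t, π⟩ = b t * (g0 π / (r.factorial : ℝ)) := by rw [hG]
    rw [e2, hF1, hG1]
    rcases hg0 π with h0 | h0
    · rw [h0]
      simp
    · rw [h0]
      have hlog := (qk_log hKL h mk hs1 ht1 hs2 hX hvp ht2 hvj
        (π := π) (by rw [hcr t ht, ← hr]; exact hπ)).2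
      rw [hcr t ht, ← hr] at hlog
      have h1 : Real.log (b t * (1 / (r.factorial : ℝ))) =
          Real.log (b t) - Real.log (r.factorial : ℝ) := by
        rw [mul_one_div, Real.log_div hb.ne' hfac.ne']
      rw [h1, Real.log_mul ha.ne' hYp.ne', Real.log_div hZ.ne' hYp.ne']
      have h2 : Real.log (qk c i j T a b mk vp s X π) =
          KV (rh c T a b s) (fun U => mk s (s ∪ U)) (t \ s) X (vp \ s) +
          csum (SS (rh c T a b s) (fun U => mk s (s ∪ U)) (t \ s) X (vp \ s)) (vp \ s) π -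
          Real.log (r.factorial : ℝ) := by linarith
      rw [h2]
      ring
  rw [sum_congr rfl fun X hX => sum_congr rfl fun π hπ => e3 X hX π hπ]
  simp only [← mul_sum, sum_add_distrib, ← sum_mul]
  rw [hBs s hs t ht]
  have e4 : ∀ X, ∑ π ∈ seqs r (t \ vp), g0 π / (r.factorial : ℝ) *
      csum (SS (rh c T a b s) (fun U => mk s (s ∪ U)) (t \ s) X (vp \ s)) (vp \ s) π =
      E s t (SS (rh c T a b s) (fun U => mk s (s ∪ U)) (t \ s) X (vp \ s)) := fun X =>
    hEs s hs t ht _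
  simp only [e4]
  rw [hYs]
  congr 1
  have e5 : ∀ X ∈ (v \ s).powerset, F0 s X * B s t *
      KV (rh c T a b s) (fun U => mk s (s ∪ U)) (t \ s) X (vp \ s) =
      F0 s X * (B s t * KV (rh c T a b s) (fun U => mk s (s ∪ U)) (t \ s) X (vp \ s)) :=
    fun X _ => mul_assoc _ _ _
  rw [sum_congr rfl e5]
  ring

end net

end R5
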